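import Pool.Agent.Helper43.RR.Defs
import Pool.Agent.Helper46.AV.MX

/-!
BLOCK RR-TL (about 120 lines). Translation of the conditions from matrices to operators.

Proofs in words.
* `sop_of`: apply `Matrix.toLin'` to the equation (`GA.toLin_mem`, `GA.toLin_mul`).
* `locE_of`: copy the proof of `badE` in `Helper46/AV/MX.lean` up to the last bullet (the choice of
  the finite set `E0`, the operator `GA.cE hadd' hσ'` etc. are the same). In the second case
  (element `u`) the last bullet is easier: for `τ'' ∈ T` given by `η`, put `U = MX.img ha hs W` (as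
  there; `InB (τ'' ε) U` is proved there), then `U.map (u - 1) ≠ ⊥`, while `(u - 1) * τ'' ε = 0`
  would give `(u - 1) v = (u - 1) (τ'' ε v) = 0` for `v ∈ U`. In the first case (element `g`):
  `p = toLin' P`, `g' = toLin' g`, `h' = toLin' g⁻¹`; with `τ' = GA.cE hadd' hσ'`
  (`τ' x (γ' v) = γ' (x v)`, `GA.cE_apply`): `g' * τ' p = p * g'` since both sides agree on all
  vectors `γ' v`: `g (τ' p (γ' v)) = g (γ' (p v)) = P (g (γ' v))`, and every vector is some `γ' v`.
  Multiply by `h'` on the right.
-/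

set_option linter.unusedSimpArgs false
set_option linter.unusedSectionVars false
set_option linter.unusedVariables false

open Module MTPairs

namespace AV

open MTP UN

variable {K : Type*} [Field K] [IsAlgClosed K] [CharZero K] {m : Type*} [Fintype m]
  [DecidableEq m] {Γ : Subgroup (Equiv.Perm (m → K))} {J : Matrix m m K}
  {G : Subgroup (Matrix.GeneralLinearGroup m K)} {π : Matrix m m K} {W : Submodule K (m → K)}

theorem sop_of (h : IsSelfOpposite G π) : SOp (GE G) (Matrix.toLin' π) := by
  obtain ⟨g, hg, e⟩ := h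
  refine ⟨Matrix.toLin' (g : Matrix m m K), GA.toLin_mem hg, ?_⟩
  have h1 := congrArg Matrix.toLin' e
  rw [GA.toLin_mul, GA.toLin_mul, map_sub, Matrix.toLin'_one] at h1
  exact h1

theorem locE_of (D : IsStrongMTPair Γ J G π) (hr : IsReductiveRep G) [Nonempty m]
    {ε : Module.End K (m → K)}
    (hW : Irr (AA (GE G) (TE Γ) (Matrix.toLin' π) : Set (Module.End K (m → K))) W)
    (hε : Bl (AA (GE G) (TE Γ) (Matrix.toLin' π)) ε) (hWε : InB ε W)
    (hb : LocAt Γ Γ G π W) : LocE (GE G) (TE Γ) (Matrix.toLin' π) ε := by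
  classical
  rintro τ ⟨θ, hθ, hτ⟩ E
  let b : m → (m → K) := fun i => Pi.single i 1
  let E0 : Finset (m → K) := (Finset.univ.image b) ∪
    E.biUnion fun x => Finset.univ.image fun i => x (b i)
  obtain ⟨γ', hγ', hE, P, hP, hcase⟩ := hb θ hθ E0
  obtain ⟨σ, hadd, hσ⟩ := D.semi θ hθ
  obtain ⟨σ', hadd', hσ'⟩ := D.semi γ' hγ'
  have hagree : ∀ x ∈ E, GA.cE hadd' hσ' x = τ x := by
    intro x hx
    have h1 : ∀ i, γ' (b i) = θ (b i) := by
      intro i
      apply hE
      exact Finset.mem_union_left _ (Finset.mem_image_of_mem _ (Finset.mem_univ i))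
    have h2 : ∀ i, γ' (x (b i)) = θ (x (b i)) := by
      intro i
      apply hE
      apply Finset.mem_union_right
      rw [Finset.mem_biUnion]
      exact ⟨x, hx, Finset.mem_image_of_mem (fun i => x (b i)) (Finset.mem_univ i)⟩
    exact GA.agree hadd hσ hτ (GA.cE_apply hadd' hσ') h1 h2
  refine ⟨GA.cE hadd' hσ', ⟨γ', hγ', GA.cE_apply hadd' hσ'⟩, hagree,
    Matrix.toLin' P, GA.sc_of D hP, ?_⟩
  rcases hcase with ⟨g, hg, hgP⟩ | ⟨u, hu, hPu, huP, hcomm, hne⟩
  · left
    refine ⟨Matrix.toLin' (g : Matrix m m K), GA.toLin_mem hg, _, GA.toLin_mem (G.inv_mem hg),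
      GA.toLin_mul_inv g, GA.toLin_inv_mul g, ?_⟩
    have key : Matrix.toLin' (g : Matrix m m K) * GA.cE hadd' hσ' (Matrix.toLin' P) =
        Matrix.toLin' P * Matrix.toLin' (g : Matrix m m K) := by
      apply LinearMap.ext
      intro w
      obtain ⟨v, rfl⟩ : ∃ v, γ' v = w := γ'.surjective w
      rw [Module.End.mul_apply, GA.cE_apply, Module.End.mul_apply, Matrix.toLin'_apply,
        Matrix.toLin'_apply, Matrix.toLin'_apply, Matrix.toLin'_apply]
      exact hgP v
    rw [key, mul_assoc, GA.toLin_mul_inv, mul_one]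
  · right
    have hN : Matrix.toLin' (u : Matrix m m K) - 1 = ((u : Matrix m m K) - 1).mulVecLin := by
      apply LinearMap.ext
      intro v
      rw [LinearMap.sub_apply, Matrix.toLin'_apply, Matrix.mulVecLin_apply, Matrix.sub_mulVec,
        Matrix.one_mulVec, Module.End.one_apply]
    have hN' : Matrix.toLin' (u : Matrix m m K) - 1 = Matrix.toLin' ((u : Matrix m m K) - 1) := by
      rw [hN]; rfl
    refine ⟨Matrix.toLin' (u : Matrix m m K), GA.toLin_mem hu, ?_, ?_,
      GA.ind_res (GA.cE_apply hadd' hσ') hcomm, ?_⟩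
    · rw [hN', ← GA.toLin_mul, hPu]
    · rw [hN', ← GA.toLin_mul, huP, map_zero]
    · intro τ'' hτ'' h0
      obtain ⟨η, hη, hητ⟩ := hτ''
      obtain ⟨s, ha, hs⟩ := D.semi η hη
      have hεU : InB (τ'' ε) (MX.img ha hs W) := by
        intro v hv
        have h3 := hητ ε (η⁻¹ v)
        rw [perm_apply_inv] at h3
        rw [h3, hWε _ hv, perm_apply_inv]
      apply hne η hη (MX.img ha hs W) (fun v => (MX.img_mem ha hs W).symm)
      rw [← hN, Submodule.eq_bot_iff]
      rintro _ ⟨v, hv, rfl⟩
      have h4 := congrArg (fun f : Module.End K (m → K) => f v) h0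
      simp only [Module.End.mul_apply] at h4
      rw [hεU v hv] at h4
      exact h4

end AV
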