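import Pool.Agent.Helper43.RR.LA
import Pool.Agent.Helper43.RR.TL
import Pool.Agent.Helper31.AV.TY

/-!
An element of square zero and of rank half the dimension in the Lie algebra of a block.
-/

set_option linter.unusedSimpArgs false
set_option linter.unusedSectionVars false
set_option linter.unusedVariables false

open Module MTPairs

namespace AV

open MTP MTP.RRG UN

section abs
variable {K : Type*} [Field K] [CharZero K] {V : Type*} [AddCommGroup V]
  [Module K V] [FiniteDimensional K V]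
  {ω : LinearMap.BilinForm K V} {G : Set (Module.End K V)}
  {T : Set (Module.End K V ≃+* Module.End K V)} {p0 ε : Module.End K V} {W : Submodule K V}

/-- The part of degree one of a conjugate. -/
lemma MStr.deg_one (D : MStr ω G T p0) (hε : Bl (AA G T p0) ε) {p p' : Module.End K V}
    (hp : p ∈ SC G T p0) (hp' : p' ∈ SC G T p0) : p * p' * (1 - p) * ε ∈ Lb G T p0 ε := by
  obtain ⟨c, hc⟩ := D.lb_p hε hp
  obtain ⟨c', hc'⟩ := D.lb_p hε hp'
  have hpp := D.c1 hp
  have hpe : ε * p = p * ε := hε.cen p (D.sc_mem hp)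
  have hpe' : ε * p' = p' * ε := hε.cen p' (D.sc_mem hp')
  -- the bracket with `(p - c) ε`
  have key : ∀ x ∈ Lb G T p0 ε, p * x - x * p ∈ Lb G T p0 ε := by
    intro x hx
    have hxe := D.lb_le hε hx
    have h1 : x * ε = x := hxe.2
    have h2 : ε * x = x := by rw [hε.cen x hxe.1, h1]
    have h3 := D.lb_br hε hc hx
    have e1 : (p - c • 1) * ε * x = p * x - c • x := by
      rw [mul_assoc, h2, sub_mul, smul_mul_assoc, one_mul]
    have e2 : x * ((p - c • 1) * ε) = x * p - c • x := by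
      have : (p - c • 1) * ε = ε * (p - c • 1) := by
        rw [sub_mul, mul_sub, hpe, smul_mul_assoc, mul_smul_comm, one_mul, mul_one]
      rw [this, ← mul_assoc, h1, mul_sub, mul_smul_comm, mul_one]
    rw [e1, e2] at h3
    have e3 : p * x - c • x - (x * p - c • x) = p * x - x * p := by abel
    rwa [e3] at h3
  obtain ⟨x, hx⟩ : ∃ x, x = (p' - c' • 1) * ε := ⟨_, rfl⟩
  rw [← hx] at hc'
  have h1 := key x hc'
  have h2 := key _ h1
  have h3 := (Lb G T p0 ε).smul_mem (2 : K)⁻¹ (add_mem h1 h2)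
  have e : (2 : K)⁻¹ • (p * x - x * p + (p * (p * x - x * p) - (p * x - x * p) * p)) =
      p * x * (1 - p) := by
    have e1 : p * (p * x - x * p) - (p * x - x * p) * p = p * x - (2 : K) • (p * x * p) + x * p := by
      have a1 : p * (p * x) = p * x := by rw [← mul_assoc, hpp]
      have a2 : x * p * p = x * p := by rw [mul_assoc, hpp]
      have a3 : p * (x * p) = p * x * p := (mul_assoc _ _ _).symm
      rw [mul_sub, sub_mul, a1, a2, a3, two_smul]
      abel
    rw [e1, mul_sub, mul_one]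
    have e2 : p * x - x * p + (p * x - (2 : K) • (p * x * p) + x * p) =
        (2 : K) • (p * x - p * x * p) := by
      rw [smul_sub, two_smul K (p * x)]
      abel
    rw [e2, smul_smul, inv_mul_cancel₀ two_ne_zero, one_smul]
  rw [e] at h3
  have e4 : p * x * (1 - p) = p * p' * (1 - p) * ε := by
    have hq : ε * (1 - p) = (1 - p) * ε := by rw [mul_sub, sub_mul, hpe, mul_one, one_mul]
    have hq0 : p * (1 - p) = 0 := by rw [mul_sub, mul_one, hpp, sub_self]
    calc p * x * (1 - p) = p * (p' - c' • 1) * (ε * (1 - p)) := by rw [hx]; simp only [mul_assoc]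
      _ = (p * p' * (1 - p) - c' • (p * (1 - p))) * ε := by
          rw [hq, mul_sub p, mul_smul_comm, mul_one, ← mul_assoc, sub_mul (p * p'),
            smul_mul_assoc]
      _ = _ := by rw [hq0, smul_zero, sub_zero]
  rwa [e4] at h3

end abs

variable {K : Type*} [Field K] [IsAlgClosed K] [CharZero K] {m : Type*} [Fintype m]
  [DecidableEq m] {Γ : Subgroup (Equiv.Perm (m → K))} {J : Matrix m m K}
  {G : Subgroup (Matrix.GeneralLinearGroup m K)} {π : Matrix m m K} {W : Submodule K (m → K)}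

/-- The element of square zero. -/
theorem exists_full (D : IsStrongMTPair Γ J G π) (hr : IsReductiveRep G) [Nonempty m]
    (hso : IsSelfOpposite G π) {ε : Module.End K (m → K)}
    (hW : Irr (AA (GE G) (TE Γ) (Matrix.toLin' π) : Set (Module.End K (m → K))) W)
    (hε : Bl (AA (GE G) (TE Γ) (Matrix.toLin' π)) ε) (hWε : InB ε W) :
    ∃ N ∈ Lb (GE G) (TE Γ) (Matrix.toLin' π) ε, N * N = 0 ∧
      MTP.rk (Rw W N) = MTP.rk (Rw W (Matrix.toLin' π)) := by
  have U := mstr D hr
  set p0 := Matrix.toLin' π with hp0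
  set A := AA (GE G) (TE Γ) p0 with hA
  have hRm : ∀ x ∈ A, ∀ y ∈ A, Rw W (x * y) = Rw W x * Rw W y := by
    intro x hx y hy
    ext w
    rw [Rw_coe (hW.st _ (mul_mem hx hy)), Module.End.mul_apply, Module.End.mul_apply,
      Rw_coe (hW.st x hx), Rw_coe (hW.st y hy)]
  have hR1 : Rw W (1 : Module.End K (m → K)) = 1 := by
    ext w
    rw [Rw_coe (fun w hw => hw)]
    rfl
  have hgA : ∀ g ∈ G, Matrix.toLin' (g : Matrix m m K) ∈ A := fun g hg =>
    U.g_mem ⟨g, hg, rfl⟩
  have hpA : p0 ∈ A := U.sc_mem U.p0_mem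
  -- restrictions to `W`
  set p := Rw W p0 with hp
  have hpp : p * p = p := by rw [hp, ← hRm _ hpA _ hpA, U.idem]
  let ψ : Matrix m m K →ₗ[K] Module.End K W := (Rw W).comp (Matrix.toLin' (R := K)).toLinearMap
  have hψ : ∀ X, ψ X = Rw W (Matrix.toLin' X) := fun X => rfl
  have hmul : ∀ g ∈ G, ∀ h ∈ G, ψ ((g : Matrix m m K) * (h : Matrix m m K)) =
      ψ (g : Matrix m m K) * ψ (h : Matrix m m K) := by
    intro g hg h hh
    rw [hψ, hψ, hψ, Matrix.toLin'_mul]
    exact hRm _ (hgA g hg) _ (hgA h hh)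
  have hinv : ∀ g ∈ G, ψ (g : Matrix m m K) *
      ψ ((g⁻¹ : Matrix.GeneralLinearGroup m K) : Matrix m m K) = 1 := by
    intro g hg
    rw [← hmul g hg _ (G.inv_mem hg), GL_mul_inv, hψ, Matrix.toLin'_one]
    exact hR1
  have hinv' : ∀ g ∈ G, ψ ((g⁻¹ : Matrix.GeneralLinearGroup m K) : Matrix m m K) *
      ψ (g : Matrix m m K) = 1 := by
    intro g hg
    rw [← hmul _ (G.inv_mem hg) g hg, GL_inv_mul, hψ, Matrix.toLin'_one]
    exact hR1
  obtain ⟨h0, hh0, hh⟩ := hso
  set h := ψ (h0 : Matrix m m K) with hhd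
  set h' := ψ ((h0⁻¹ : Matrix.GeneralLinearGroup m K) : Matrix m m K) with hhd'
  have hhp : h * p = (1 - p) * h := by
    have h1 := congrArg Matrix.toLin' hh
    rw [Matrix.toLin'_mul, Matrix.toLin'_mul] at h1
    have h2 := congrArg (Rw W) h1
    have e1 : Rw W (Matrix.toLin' (h0 : Matrix m m K) ∘ₗ Matrix.toLin' π) = h * p :=
      hRm _ (hgA h0 hh0) _ hpA
    have e2 : Rw W (Matrix.toLin' (1 - π) ∘ₗ Matrix.toLin' (h0 : Matrix m m K)) =
        (1 - p) * h := by
      have h3 : Matrix.toLin' (1 - π) = 1 - p0 := by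
        rw [map_sub, Matrix.toLin'_one]; rfl
      rw [h3]
      have h4 := hRm _ (sub_mem (one_mem A) hpA) _ (hgA h0 hh0)
      rw [map_sub, hR1] at h4
      exact h4
    rw [e1, e2] at h2
    exact h2
  -- the two polynomials
  obtain ⟨P1, hP1⟩ := det_poly (((LinearMap.mulLeft K p).comp (LinearMap.mulRight K p)).comp ψ)
    (1 - p)
  obtain ⟨P2, hP2⟩ := det_poly (((LinearMap.mulLeft K p).comp
    (LinearMap.mulRight K (h * p))).comp ψ) (1 - p)
  have f1 : ∀ X, evm X P1 = LinearMap.det (p * ψ X * p + (1 - p)) := by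
    intro X
    rw [hP1, add_comm]
    rfl
  have f2 : ∀ X, evm X P2 = LinearMap.det (p * ψ X * h * p + (1 - p)) := by
    intro X
    rw [hP2, add_comm]
    congr 1
  have hdet1 : LinearMap.det (p + (1 - p)) ≠ 0 := by
    have e1 : p + (1 - p) = 1 := by abel
    have e2 : LinearMap.det (p + (1 - p)) = 1 := by
      rw [e1]
      exact map_one _
    rw [e2]
    exact one_ne_zero
  obtain ⟨g, hg, h1, h2⟩ := gen_two D (p := P1) (q := P2)
    ⟨1, G.one_mem, by
      rw [f1, Units.val_one, hψ, Matrix.toLin'_one]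
      have : Rw W (LinearMap.id : Module.End K (m → K)) = 1 := hR1
      rw [this, mul_one, hpp]
      exact hdet1⟩
    ⟨h0⁻¹, G.inv_mem hh0, by
      rw [f2]
      have : p * h' * h * p = p := by
        rw [mul_assoc p h' h, hinv' h0 hh0, mul_one, hpp]
      rw [this]
      exact hdet1⟩
  rw [f1] at h1
  rw [f2] at h2
  obtain ⟨u1, hu1⟩ := (LinearMap.isUnit_iff_isUnit_det _).mpr (isUnit_iff_ne_zero.mpr h1)
  obtain ⟨u2, hu2⟩ := (LinearMap.isUnit_iff_isUnit_det _).mpr (isUnit_iff_ne_zero.mpr h2)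
  set gi := ((g⁻¹ : Matrix.GeneralLinearGroup m K) : Matrix m m K) with hgi
  have hrk := rk_block (p := p) (g := ψ (g : Matrix m m K)) (gi := ψ gi) (h := h) (h' := h')
    (X' := (↑u1⁻¹ : Module.End K W)) (Y' := (↑u2⁻¹ : Module.End K W)) hpp (hinv g hg) hhp
    (hinv h0 hh0) (hinv' h0 hh0) (by rw [← hu1]; exact u1.inv_mul)
    (by rw [← hu2]; exact u2.mul_inv) (by rw [← hu2]; exact u2.inv_mul)
  -- the operator
  set a := Matrix.toLin' (g : Matrix m m K) with ha
  set a' := Matrix.toLin' gi with ha'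
  have haG : a ∈ GE G := ⟨g, hg, rfl⟩
  have haG' : a' ∈ GE G := ⟨g⁻¹, G.inv_mem hg, rfl⟩
  have haa : a * a' = 1 := GA.toLin_mul_inv g
  have haa' : a' * a = 1 := GA.toLin_inv_mul g
  have hsc := U.c3 U.p0_mem haG haG' haa haa'
  have hN := U.deg_one hε U.p0_mem hsc
  refine ⟨_, hN, ?_, ?_⟩
  · have hq0 : (1 - p0) * p0 = 0 := by rw [sub_mul, one_mul, U.idem, sub_self]
    have hce : ε * p0 = p0 * ε := hε.cen _ hpA
    calc p0 * (a * p0 * a') * (1 - p0) * ε * (p0 * (a * p0 * a') * (1 - p0) * ε)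
        = p0 * (a * p0 * a') * (1 - p0) * (ε * p0) * ((a * p0 * a') * (1 - p0) * ε) := by
          simp only [mul_assoc]
      _ = p0 * (a * p0 * a') * ((1 - p0) * p0) * ε * ((a * p0 * a') * (1 - p0) * ε) := by
          rw [hce]; simp only [mul_assoc]
      _ = 0 := by rw [hq0]; simp
  · have hmA : p0 * (a * p0 * a') * (1 - p0) ∈ A :=
      mul_mem (mul_mem hpA (U.sc_mem hsc)) (sub_mem (one_mem _) hpA)
    have e1 : Rw W (p0 * (a * p0 * a') * (1 - p0) * ε) =
        Rw W (p0 * (a * p0 * a') * (1 - p0)) := by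
      ext w
      rw [Rw_coe (hW.st _ (mul_mem hmA hε.mem)), Rw_coe (hW.st _ hmA), Module.End.mul_apply,
        hWε w w.2]
    have e2 : Rw W (p0 * (a * p0 * a') * (1 - p0)) =
        p * (ψ (g : Matrix m m K) * p * ψ gi) * (1 - p) := by
      rw [hRm _ (mul_mem hpA (U.sc_mem hsc)) _ (sub_mem (one_mem _) hpA), hRm _ hpA _
        (U.sc_mem hsc), hRm _ (mul_mem (U.g_mem haG) hpA) _ (U.g_mem haG'),
        hRm _ (U.g_mem haG) _ hpA, map_sub, hR1]
      rfl
    rw [e1, e2, hrk]

end AV
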