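import Pool.Agent.Helper26.AV.CLCore
import Pool.Agent.Helper9.AV.SO4

/-!
BLOCK RR-CO (about 100 lines). The classification on an irreducible space in the presence of an
element `N` of square zero of rank half the dimension.

Proofs in words: copy the proofs of `core_U`, `core_S` (`Helper26/AV/CLCore.lean`) and `core_O`
(`Helper26/AV/CL.lean`) and keep the types.
* `core_U2`: `UN.lie_half` gives full, or `n` odd, `5 ≤ n`, dimension `2 ^ (n - 1)`: take `n - 1`.
  In the full case `3 ≤ finrank K W` as in `core_U`.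
* `core_S2`: `TR.simple_class` gives full, or `(2 m choose m, 2 m - 2 choose m - 1)`, `3 ≤ m`, or
  spin with `n % 4 = 1 ∨ n % 4 = 2`, `5 ≤ n`. The second case contradicts `2 * rk N = finrank K W`:
  `2 * choose (2 m - 2) (m - 1) < choose (2 m) m` for `2 ≤ m`
  (`choose (2m) m = 2 choose (2m-1) (m-1)` is `AV.CL.two_mul_choose`, and
  `choose (2m-1) (m-1) = choose (2m-2) (m-1) + choose (2m-2) (m-2)` by Pascal, the last term is
  positive).
* `core_O2`: `OR.orth_class` in the same way; in the full case dimension four is excluded by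
  `so_four` and `hsmp` as in `core_O`, and dimension `8 = 2 ^ 3` is the exceptional case `n = 3`.
-/

set_option linter.unusedSimpArgs false
set_option linter.unusedSectionVars false
set_option linter.unusedVariables false

open Module

attribute [local instance 100] LieRing.ofAssociativeRing

namespace AV.CL

open MTP AV

variable {K : Type*} [Field K] [IsAlgClosed K] [CharZero K] {W : Type*} [AddCommGroup W]
  [Module K W] [FiniteDimensional K W] {L : Submodule K (Module.End K W)}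
  {b : LinearMap.BilinForm K W}

theorem core_U2 (h' : ∀ x ∈ L, ∀ y ∈ L, x * y - y * x ∈ L)
    (hirr : ∀ U : Submodule K W, (∀ z ∈ L, ∀ w ∈ U, z w ∈ U) → U = ⊥ ∨ U = ⊤)
    (htr : ∀ z ∈ L, LinearMap.trace K W z = 0) (hsimple : LieAlgebra.IsSimple K (toLie L h'))
    (hform : ∀ b : LinearMap.BilinForm K W, (∀ z ∈ L, IsSk b z) → b = 0)
    {P : Module.End K W} (hP : P * P = P) (h0 : P ≠ 0) (h1 : P ≠ 1) {c : K}
    (hc : P - c • 1 ∈ L) (hpq : 2 * rk P = finrank K W)
    {N : Module.End K W} (hN : N ∈ L) (hNN : N * N = 0) (hN0 : N ≠ 0) :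
    (∃ n, 4 ≤ n ∧ Even n ∧ finrank K W = 2 ^ n) ∨
      ((∀ z, LinearMap.trace K W z = 0 → z ∈ L) ∧ 3 ≤ finrank K W) := by
  rcases UN.lie_half (L := toLie L h') hirr htr hsimple
    (fun b hb => hform b fun z hz u v => hb z hz u v) hP h0 h1 hc hpq hN hNN hN0 with
    h | ⟨n, hodd, hn5, hD, -, -⟩
  · right
    refine ⟨h, ?_⟩
    by_contra hcon
    have h2 := MTP.MF.rk_le_half hNN
    have h3 : 0 < rk N := rk_pos.mpr hN0
    obtain ⟨b, hb, hb'⟩ := det_form (K := K) (W := W) (by omega)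
    exact hb (hform b fun z hz => hb' z (htr z hz))
  · left
    refine ⟨n - 1, by omega, ?_, hD⟩
    obtain ⟨j, hj⟩ := hodd
    exact ⟨j, by omega⟩

lemma choose_lt_CO {m : ℕ} (hm : 2 ≤ m) :
    2 * (2 * m - 2).choose (m - 1) < (2 * m).choose m := by
  have h1 := two_mul_choose (m := m) (by omega)
  obtain ⟨k, rfl⟩ : ∃ k, m = k + 2 := ⟨m - 2, by omega⟩
  have e1 : 2 * (k + 2) - 1 = (2 * k + 2) + 1 := by omega
  have e2 : k + 2 - 1 = k + 1 := by omega
  have e3 : 2 * (k + 2) - 2 = 2 * k + 2 := by omega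
  rw [e1, e2, Nat.choose_succ_succ'] at h1
  rw [e3, e2, ← h1]
  have h2 : 0 < (2 * k + 2).choose k := Nat.choose_pos (by omega)
  omega

theorem core_S2 (hL : IrrSymp b L) (hnd : b.Nondegenerate) (halt : b.IsAlt)
    (hsimple : LieAlgebra.IsSimple K (toLie L hL.br))
    {P : Module.End K W} (hP : P * P = P)
    (hc : P - (2 : K)⁻¹ • 1 ∈ L) {N : Module.End K W} (hN : N ∈ L) (hNN : N * N = 0)
    (hN0 : N ≠ 0) (hr : 2 * rk N = finrank K W) :
    (∃ n, 5 ≤ n ∧ (n % 4 = 1 ∨ n % 4 = 2) ∧ finrank K W = 2 ^ n) ∨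
      ∀ z, IsSk b z → z ∈ L := by
  have hW : Nontrivial W := by
    by_contra hcon
    rw [not_nontrivial_iff_subsingleton] at hcon
    exact hN0 (Subsingleton.elim _ _)
  have hpq := rk_half hP (trace_eq_zero_of_sk hnd (hL.sk _ hc))
  obtain ⟨hs, hss⟩ := involution hP hc
  have hs0 : (2 : K) • P - 1 ≠ 0 := by
    intro h
    rw [h, mul_zero] at hss
    exact zero_ne_one hss
  rcases TR.simple_class (L := toLie L hL.br)
    (OR.ctx_of_inv (L := toLie L hL.br) hL hnd hsimple hs hss hs0) halt hsimple hN hNN hN0 with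
    h | ⟨m, -, hm, hD, hr'⟩ | ⟨n, hn4, hn, hD, -⟩
  · exact Or.inr h
  · exfalso
    have h1 := choose_lt_CO (m := m) (by omega)
    rw [hD, hr'] at hr
    omega
  · exact Or.inl ⟨n, hn, hn4, hD⟩

theorem core_O2 (hL : IrrSymp b L) (hnd : b.Nondegenerate) (hsy : ∀ v w, b v w = b w v)
    (hsimple : LieAlgebra.IsSimple K (toLie L hL.br)) (hsmp : Smp L)
    {P : Module.End K W} (hP : P * P = P)
    (hc : P - (2 : K)⁻¹ • 1 ∈ L) {N : Module.End K W} (hN : N ∈ L) (hNN : N * N = 0)
    (hN0 : N ≠ 0) (hr : 2 * rk N = finrank K W) :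
    (∃ n, 3 ≤ n ∧ (n % 4 = 0 ∨ n % 4 = 3) ∧ finrank K W = 2 ^ n) ∨
      ((∀ z, IsSk b z → z ∈ L) ∧ Even (finrank K W) ∧
        (finrank K W = 6 ∨ 10 ≤ finrank K W)) := by
  have hpq := rk_half hP (trace_eq_zero_of_sk hnd (hL.sk _ hc))
  obtain ⟨hs, hss⟩ := involution hP hc
  rcases OR.orth_class (L := toLie L hL.br) hL hnd hsy hsimple hs hss hN hNN hN0 with
    h | ⟨m, -, hm, hD, hr'⟩ | ⟨n, hn4, hn, hD, -⟩
  · have hLb : L = skw b := le_antisymm (fun z hz => hL.sk z hz) h
    have h2 := MTP.MF.rk_le_half hNN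
    have h3 : 0 < rk N := rk_pos.mpr hN0
    have hev := rk_even hnd hsy (hL.sk N hN)
    by_cases hd : finrank K W = 6 ∨ 10 ≤ finrank K W
    · exact Or.inr ⟨h, ⟨rk P, by omega⟩, hd⟩
    · push Not at hd
      obtain ⟨j, hj⟩ := hev
      have hdim : finrank K W = 4 ∨ finrank K W = 8 := by omega
      rcases hdim with hd4 | hd8
      · exfalso
        obtain ⟨M, hM, hMi, hM0, hM1⟩ := so_four hnd hsy hd4 hP (hL.sk _ hc)
        rw [← hLb] at hM hMi hM1
        rcases hsmp M hM hMi with h4 | h4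
        · exact hM0 h4
        · exact hM1 h4
      · left
        exact ⟨3, le_refl _, Or.inr rfl, by rw [hd8]; norm_num⟩
  · exfalso
    have h1 := choose_lt_CO (m := m) (by omega)
    rw [hD, hr'] at hr
    omega
  · exact Or.inl ⟨n, hn, hn4, hD⟩

end AV.CL
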