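import Pool.Agent.Helper43.RR.Defs
import Pool.Agent.Helper43.RR.CO
import Pool.Agent.Helper26.AV.CL
import Pool.Agent.Helper2.AV.PR

/-!
BLOCK RR-CF. The classification of a block with an element `N` of
its Lie algebra of square zero and of rank half the dimension.

The proof is that of `MStr.classify` in `Helper26/AV/CL.lean`, with `core_O2`, `core_S2`,
`core_U2` (file `CO.lean`) in place of `core_O`, `core_S`, `core_U`.
In the exceptional cases the left side is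
`e = 1` (orthogonal), `e = -1` (symplectic), `e = 0` (not self dual).
-/

set_option linter.unusedSimpArgs false
set_option linter.unusedSectionVars false
set_option linter.unusedVariables false

open Module

attribute [local instance 100] LieRing.ofAssociativeRing

namespace AV

open MTP UN

variable {K : Type*} [Field K] [IsAlgClosed K] [CharZero K] {V : Type*} [AddCommGroup V]
  [Module K V] [FiniteDimensional K V]
  {ω : LinearMap.BilinForm K V} {G : Set (Module.End K V)}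
  {T : Set (Module.End K V ≃+* Module.End K V)} {p0 ε : Module.End K V} {W : Submodule K V}

theorem MStr.classify2 (D : MStr ω G T p0) (hε : Bl (AA G T p0) ε)
    (hW : Irr (AA G T p0 : Set (Module.End K V)) W) (hWε : InB ε W)
    (hns : ∀ p ∈ SC G T p0, p * ε ≠ 0 ∧ p * ε ≠ ε) (hs : Smp (Lb G T p0 ε))
    {N : Module.End K V} (hN : N ∈ Lb G T p0 ε) (hNN : N * N = 0)
    (hr : 2 * MTP.rk (Rw W N) = finrank K W)
    {p : Module.End K V} (hp : p ∈ SC G T p0) (hpq : 2 * MTP.rk (Rw W p) = finrank K W) :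
    (∃ e, SgB ω (AA G T p0) ε W e ∧ SpinD (finrank K W) e) ∨ Good ω G T p0 ε W := by
  have R := D.ssA.rs hε hW hWε
  have hLB := D.lb_le hε
  have hbr : ∀ x ∈ Lb G T p0 ε, ∀ y ∈ Lb G T p0 ε, x * y - y * x ∈ Lb G T p0 ε :=
    fun x hx y hy => D.lb_br hε hx hy
  have hirr := D.irr_lb hε hW hWε
  have htr : ∀ x ∈ Lb G T p0 ε, LinearMap.trace K V x = 0 := fun x hx => D.lb_tr hε hx
  have hWnt : Nontrivial W := (Submodule.nontrivial_iff_ne_bot).mpr hW.ne
  have hN0' : Rw W N ≠ 0 := by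
    intro h
    have h1 : 0 < finrank K W := Module.finrank_pos
    have h2 : MTP.rk (Rw W N) = 0 := by
      rw [h]
      by_contra h3
      exact (rk_pos.mp (Nat.pos_of_ne_zero h3)) rfl
    omega
  have hN0 : N ≠ 0 := by
    rintro rfl
    exact hN0' (map_zero _)
  have hne : Lb G T p0 ε ≠ ⊥ := by
    intro h
    rw [h, Submodule.mem_bot] at hN
    exact hN0 hN
  have h' := CL.map_br R hLB hbr
  have hsimple := R.simple hLB hbr hirr htr hs hN hN0 h'
  have hirr' : ∀ U : Submodule K W, (∀ z ∈ (Lb G T p0 ε).map (Rw W), ∀ w ∈ U, z w ∈ U) →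
      U = ⊥ ∨ U = ⊤ := fun U hU => hirr U fun x hx w hw => hU _ ⟨x, hx, rfl⟩ w hw
  have htr' : ∀ z ∈ (Lb G T p0 ε).map (Rw W), LinearMap.trace K W z = 0 := by
    rintro _ ⟨x, hx, rfl⟩
    exact CL.tr_zero R (hLB hx) (htr x hx)
  have hρε : ∀ x : Module.End K V, Rw W (x * ε) = Rw W x := by
    intro x
    ext w
    change ((prj W (x (ε w)) : W) : V) = prj W (x w)
    rw [hWε w w.2]
  have hAe : ∀ x ∈ AA G T p0, x * ε ∈ Ae (AA G T p0) ε := fun x hx =>
    ⟨mul_mem hx hε.mem, by rw [mul_assoc, hε.idem]⟩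
  have hρ1 : Rw W (1 : Module.End K V) = 1 := by
    ext w
    change ((prj W (w : V) : W) : V) = w
    rw [prj_coe]
  have hpA := D.sc_mem hp
  have hpe := hAe p hpA
  have hP : Rw W p * Rw W p = Rw W p := by
    have h1 : p * ε * (p * ε) = p * ε := by
      rw [mul_assoc p ε, ← mul_assoc ε p ε, hε.cen p hpA, mul_assoc p ε ε, hε.idem, ← mul_assoc,
        D.c1 hp]
    rw [← hρε p, ← R.hom _ hpe _ hpe, h1]
  have h0 : Rw W p ≠ 0 := by
    intro h
    exact (hns p hp).1 (R.inj _ hpe (by rw [hρε, h]))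
  have h1 : Rw W p ≠ 1 := by
    intro h
    have h2 : p * ε - 1 * ε = 0 := R.inj _ (sub_mem hpe (hAe 1 (one_mem _)))
      (by rw [map_sub, hρε, hρε, h, hρ1, sub_self])
    exact (hns p hp).2 (by rw [sub_eq_zero.mp h2, one_mul])
  have hc' : ∀ c : K, (p - c • 1) * ε ∈ Lb G T p0 ε →
      Rw W p - c • 1 ∈ (Lb G T p0 ε).map (Rw W) := by
    intro c hc
    refine ⟨_, hc, ?_⟩
    rw [hρε, map_sub, map_smul, hρ1]
  have hN' : Rw W N ∈ (Lb G T p0 ε).map (Rw W) := ⟨N, hN, rfl⟩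
  have hNN' : Rw W N * Rw W N = 0 := by
    rw [← R.hom _ (hLB hN) _ (hLB hN), hNN, map_zero]
  by_cases hsd : SD ω ε
  · obtain ⟨b, hF, hsa⟩ := D.sd_form hε hsd hW hWε
    have hIS : IrrSymp b ((Lb G T p0 ε).map (Rw W)) := by
      refine ⟨h', ?_, hirr'⟩
      rintro _ ⟨x, hx, rfl⟩
      exact (hF.sk x (hLB hx).1 (hLB hx).2).1 (D.lb_sk hε hsd hx)
    have hc := hc' _ (D.lb_half hε hsd hns hp)
    have hfull : (∀ z, IsSk b z → z ∈ (Lb G T p0 ε).map (Rw W)) → FullB ω G T p0 ε := by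
      intro hf x hx hxe ht hsk
      exact CL.mem_of_map R hLB ⟨hx, hxe⟩ (hf _ ((hF.sk x hx hxe).1 (hsk hsd)))
    rcases hsa with hsy | halt
    · rcases CL.core_O2 hIS hF.nd hsy hsimple (CL.map_smp R hLB hbr hs) hP hc hN' hNN' hN0' hr
        with h | ⟨h, hev, hd⟩
      · exact Or.inl ⟨1, Or.inr ⟨hsd, b, hF, Or.inl ⟨rfl, hsy⟩⟩, Or.inr (Or.inl ⟨rfl, h⟩)⟩
      · exact Or.inr ⟨hε, hW, hWε, hs, hne, hns, hfull h,
          Or.inr (Or.inr ⟨hsd, hev, hd, b, hF, hsy⟩)⟩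
    · rcases CL.core_S2 hIS hF.nd halt hsimple hP hc hN' hNN' hN0' hr with h | h
      · exact Or.inl ⟨-1, Or.inr ⟨hsd, b, hF, Or.inr ⟨rfl, halt⟩⟩, Or.inl ⟨rfl, h⟩⟩
      · exact Or.inr ⟨hε, hW, hWε, hs, hne, hns, hfull h,
          Or.inr (Or.inl ⟨hsd, b, hF, halt⟩)⟩
  · obtain ⟨c, hc⟩ := D.lb_p hε hp
    rcases CL.core_U2 h' hirr' htr' hsimple (fun b hb => D.nsd_form hε hsd hns hW hWε b
      fun x hx => hb _ ⟨x, hx, rfl⟩) hP h0 h1 (hc' c hc) hpq hN' hNN' hN0' with h | ⟨h, hd⟩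
    · exact Or.inl ⟨0, Or.inl ⟨rfl, hsd⟩, Or.inr (Or.inr ⟨rfl, h⟩)⟩
    · refine Or.inr ⟨hε, hW, hWε, hs, hne, hns, ?_, Or.inl ⟨hsd, hd⟩⟩
      intro x hx hxe ht hsk
      exact CL.mem_of_map R hLB ⟨hx, hxe⟩ (h _ (CL.tr_zero R ⟨hx, hxe⟩ ht))

end AV
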