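import Pool.Agent.Helper43.RR.NS
import Pool.Agent.Helper43.RR.TL
import Pool.Agent.Helper31.AV.TY
import Pool.Agent.Helper26.AV.CL

/-!
BLOCK RR-SG (about 150 lines). The sign of a subrepresentation (matrices) is the sign of its block.

Write `A = AA (GE G) (TE Γ) (toLin' π)`, `M = mstr D hr`.
Given `hs : HasSign J G W e` and `hb : SgB (fJ J) A ε W e'` show `e = e'`.

Step 1. Let `B` be a matrix with `IsFormOn J G W B`, and let `bB v w = v ⬝ᵥ B w` be the bilinear form
on `W`. For `g ∈ G` there is `c` with `gᵀ J g = c J` (`D.sim`), so `bB (g v) (g w) = c * bB v w`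
and `fJ J (g v) (g w) = c * fJ J v w`. Let `p ∈ SC (GE G) (TE Γ) (toLin' π)`, `g_t = 1 + (t - 1) p`
(in `GE G` by `M.cpt`). By `M.c2 hp`: `IsAdj (fJ J) p (1 - p)` (the cases `p = 0`, `p = 1` are
excluded by `M.ns_so hso hε p hp`), so the multiplier of `g_t` is `t` (`J` is not zero:
`fJ J (g_t v) (g_t w) = fJ J v w * t`, computed from `IsAdj`). Hence for all `t ≠ 0` and `v, w ∈ W`
`bB (g_t v) (g_t w) = t * bB v w`. With `v = p v + q v` (`q = 1 - p`):
`t² bB (p v) (p w) + t (bB (p v) (q w) + bB (q v) (p w)) + bB (q v) (q w) = t bB v w` for all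
`t ≠ 0`; three values of `t` (`1, 2, -1`, characteristic zero) give `bB (p v) (p w) = 0 =
bB (q v) (q w)`, so `bB (p v) w = bB v (w - p w)`. So `Rw W ((p - 1/2) ε)` is skew for `bB`:
`IsSk bB`. By `M.lb_gen hε` (generation of `Lb`, see its use at the end of
`Helper51/AV/SE.lean`; the scalar `c` there is `1/2`: `trace = 0`, `M.rk_so`, `M.lb_tr`)
all `x ∈ Lb` satisfy `IsSk bB (Rw W x)` (the brackets of skew operators are skew, and `Rw W` is
multiplicative on `A`).
Step 2. If `¬ SD (fJ J) ε` then `M.nsd_form hε hsd hns hW hWε bB` (see `Helper31/AV/TY.lean`, used in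
`MStr.classify`) gives `bB = 0`, contradiction with `IsFormOn`. So in the case `e' = 0` there is
no form, so `e = 0`.
Step 3. If `SD`, with `b` from `SgB`, `Fm`: conversely `b` gives a matrix `B` with `IsFormOn J G W B`:
take for `B` the Gram matrix of the form `(v, w) ↦ b (prj W v) (prj W w)` on `m → K`
(`LinearMap.BilinForm.toMatrix'`); for `g ∈ G`: `g` has the adjoint `c g⁻¹` for `fJ J`, so by
`Fm.adj`, `b (g v) (g w) = c b v w`. So the first alternative `e = 0 ∧ no form` of `hs` is
impossible, and there is a form `B` with `v ⬝ᵥ B w = e * (w ⬝ᵥ B v)` on `W`. By step 1 both `bB`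
and `b` are invariant under `(Lb ..).map (Rw W)`, which acts irreducibly on `W` (`M.irr_lb`), so
by Schur's lemma `bB = c • b` with `c ≠ 0` (`b` nondegenerate: `bB v w = b (φ v) w`, `φ` commutes
with the Lie algebra; an eigenspace of `φ` is stable; perhaps a lemma on uniqueness of invariant
forms is in the library: search `uniq` / `schur` in `Helper31/AV/TY.lean`, `Helper21/MT`,
`Helper54/MT`). The symmetry of `b` is `e'` so `(e : K) = e'`, `e = e'` by `Int.cast_injective`.
-/

set_option linter.unusedSimpArgs false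
set_option linter.unusedSectionVars false
set_option linter.unusedVariables false

open Module MTPairs

namespace AV

open MTP UN

namespace SGN

section abs
variable {K : Type*} [Field K] [IsAlgClosed K] [CharZero K] {V : Type*} [AddCommGroup V]
  [Module K V] [FiniteDimensional K V]
  {ω : LinearMap.BilinForm K V} {G : Set (Module.End K V)}
  {T : Set (Module.End K V ≃+* Module.End K V)} {p0 ε : Module.End K V} {W : Submodule K V}

lemma Rw_one (W : Submodule K V) : Rw W (1 : Module.End K V) = 1 := by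
  apply LinearMap.ext
  intro w
  exact prj_coe W w

lemma Rw_mul' {A : Subalgebra K (Module.End K V)} (hW : Irr (A : Set (Module.End K V)) W)
    {x y : Module.End K V} (hx : x ∈ A) (hy : y ∈ A) : Rw W (x * y) = Rw W x * Rw W y := by
  apply LinearMap.ext
  intro w
  apply Subtype.ext
  rw [Rw_coe (hW.st _ (A.mul_mem hx hy)), Module.End.mul_apply, Module.End.mul_apply,
    Rw_coe (hW.st _ hx), Rw_coe (hW.st _ hy)]

/-- A form for which `p` and `1 - p` are adjoint for all the conjugates has the same adjoints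
as `ω`. -/
lemma adjW (D : MStr ω G T p0) (hW : Irr (AA G T p0 : Set (Module.End K V)) W)
    (hadj : ∀ p ∈ SC G T p0, IsAdj ω p (1 - p)) (b : LinearMap.BilinForm K W)
    (hb : ∀ p ∈ SC G T p0, IsAdj b (Rw W p) (1 - Rw W p)) {a : Module.End K V}
    (ha : a ∈ AA G T p0) :
    ∃ a' ∈ AA G T p0, IsAdj ω a a' ∧ IsAdj b (Rw W a) (Rw W a') := by
  have ha' : a ∈ Algebra.adjoin K (SC G T p0) := ha
  clear ha
  induction ha' using Algebra.adjoin_induction with
  | mem p hp =>
    refine ⟨1 - p, (AA G T p0).sub_mem (AA G T p0).one_mem (D.sc_mem hp), hadj p hp, ?_⟩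
    rw [map_sub, Rw_one]
    exact hb p hp
  | algebraMap c =>
    have h1 : algebraMap K (Module.End K V) c = c • (1 : Module.End K V) :=
      Algebra.algebraMap_eq_smul_one c
    refine ⟨algebraMap K _ c, (AA G T p0).algebraMap_mem c, ?_, ?_⟩
    · intro v w
      rw [h1]
      simp
    · intro v w
      rw [h1, map_smul, Rw_one]
      simp
  | add x y hx hy hx' hy' =>
    obtain ⟨x', m1, h1, h2⟩ := hx'
    obtain ⟨y', m2, h3, h4⟩ := hy'
    refine ⟨x' + y', (AA G T p0).add_mem m1 m2, ?_, ?_⟩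
    · intro v w
      rw [LinearMap.add_apply, map_add, LinearMap.add_apply, h1, h3, LinearMap.add_apply, map_add]
    · intro v w
      rw [map_add, LinearMap.add_apply, map_add, LinearMap.add_apply, h2, h4, map_add,
        LinearMap.add_apply, map_add]
  | mul x y hx hy hx' hy' =>
    obtain ⟨x', m1, h1, h2⟩ := hx'
    obtain ⟨y', m2, h3, h4⟩ := hy'
    refine ⟨y' * x', (AA G T p0).mul_mem m2 m1, ?_, ?_⟩
    · intro v w
      rw [Module.End.mul_apply, h1, h3, Module.End.mul_apply]
    · intro v w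
      rw [Rw_mul' hW hx hy, Rw_mul' hW m2 m1, Module.End.mul_apply, h2, h4, Module.End.mul_apply]

lemma adjW' (D : MStr ω G T p0) (hW : Irr (AA G T p0 : Set (Module.End K V)) W)
    (hadj : ∀ p ∈ SC G T p0, IsAdj ω p (1 - p)) (b : LinearMap.BilinForm K W)
    (hb : ∀ p ∈ SC G T p0, IsAdj b (Rw W p) (1 - Rw W p)) {a a' : Module.End K V}
    (ha : a ∈ AA G T p0) (haa : IsAdj ω a a') : IsAdj b (Rw W a) (Rw W a') := by
  obtain ⟨a'', h1, h2, h3⟩ := adjW D hW hadj b hb ha
  rw [IsAdj.unique D.nd haa h2]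
  exact h3

/-- Uniqueness of the invariant form. -/
lemma uniq (D : MStr ω G T p0) (hW : Irr (AA G T p0 : Set (Module.End K V)) W)
    (b b' : LinearMap.BilinForm K W) (hnd : b.Nondegenerate)
    (h1 : ∀ a ∈ AA G T p0, ∀ a' ∈ AA G T p0, IsAdj ω a a' → IsAdj b (Rw W a) (Rw W a'))
    (h2 : ∀ a ∈ AA G T p0, ∀ a' ∈ AA G T p0, IsAdj ω a a' → IsAdj b' (Rw W a) (Rw W a')) :
    ∃ c : K, ∀ v w, b' v w = c * b v w := by
  obtain ⟨φ, hφ⟩ := TY.exists_op (V := W) hnd b'
  have hcomm : ∀ x ∈ AA G T p0, ∀ v, φ (Rw W x v) = Rw W x (φ v) := by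
    intro x hx v
    obtain ⟨x', hx', hxx, hxx'⟩ := D.exists_adj hx
    apply TY.ext_nd hnd
    intro w
    rw [hφ, h2 x hx x' hx' hxx, h1 x hx x' hx' hxx, hφ]
  have hntW : Nontrivial W := Submodule.nontrivial_iff_ne_bot.mpr hW.ne
  obtain ⟨c, hc⟩ := Module.End.exists_eigenvalue φ
  refine ⟨c, fun v w => ?_⟩
  have hφc : φ v = c • v := by
    let U : Submodule K V := (Module.End.eigenspace φ c).map W.subtype
    have hU : Stab (AA G T p0 : Set (Module.End K V)) U := by
      rintro a ha _ ⟨u, hu, rfl⟩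
      refine ⟨Rw W a u, ?_, Rw_coe (hW.st _ ha) u⟩
      rw [SetLike.mem_coe, Module.End.mem_eigenspace_iff] at hu ⊢
      rw [hcomm a ha, hu, map_smul]
    have hUW : U ≤ W := by
      rintro _ ⟨u, hu, rfl⟩
      exact u.2
    rcases hW.irr U hUW hU with h | h
    · exfalso
      obtain ⟨u, hu⟩ := hc.exists_hasEigenvector
      have : (u : V) ∈ U := ⟨u, hu.1, rfl⟩
      rw [h] at this
      exact hu.2 (Subtype.ext (by simpa using this))
    · have : (v : V) ∈ U := by rw [h]; exact v.2
      obtain ⟨u, hu, hu'⟩ := this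
      have : u = v := Subtype.ext hu'
      subst this
      rwa [SetLike.mem_coe, Module.End.mem_eigenspace_iff] at hu
  rw [← hφ, hφc, map_smul, LinearMap.smul_apply, smul_eq_mul]

/-- There is no invariant form in a block which is not self dual. -/
lemma no_form (D : MStr ω G T p0) (hε : Bl (AA G T p0) ε) (hsd : ¬ SD ω ε)
    (hW : Irr (AA G T p0 : Set (Module.End K V)) W) (hWε : InB ε W)
    (b : LinearMap.BilinForm K W)
    (h2 : ∀ a ∈ AA G T p0, ∀ a' ∈ AA G T p0, IsAdj ω a a' → IsAdj b (Rw W a) (Rw W a')) :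
    ∀ v w, b v w = 0 := by
  intro v w
  obtain ⟨ε', hε', h3, -⟩ := D.adj_bl hε
  have hne : ε' ≠ ε := by
    rintro rfl
    exact hsd h3
  have h4 := h2 ε hε.mem ε' hε'.mem h3 v w
  have h5 : Rw W ε v = v := by
    apply Subtype.ext
    rw [Rw_coe (hW.st _ hε.mem), hWε _ v.2]
  have h6 : Rw W ε' w = 0 := by
    apply Subtype.ext
    rw [Rw_coe (hW.st _ hε'.mem), ← hWε _ w.2, ← Module.End.mul_apply, Bl.orth hε' hε hne]
    rfl
  rw [h5, h6, map_zero] at h4
  exact h4

end abs

end SGN

open SGN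

variable {K : Type*} [Field K] [IsAlgClosed K] [CharZero K] {m : Type*} [Fintype m]
  [DecidableEq m] {Γ : Subgroup (Equiv.Perm (m → K))} {J : Matrix m m K}
  {G : Subgroup (Matrix.GeneralLinearGroup m K)} {π : Matrix m m K} {W : Submodule K (m → K)}

/-- The restriction to `W` of the form with Gram matrix `B`. -/
lemma SGN.form_adj (D : IsStrongMTPair Γ J G π) (hr : IsReductiveRep G) [Nonempty m]
    (hW : Irr (AA (GE G) (TE Γ) (Matrix.toLin' π) : Set (Module.End K (m → K))) W)
    (hadj : ∀ p ∈ SC (GE G) (TE Γ) (Matrix.toLin' π), IsAdj (fJ J) p (1 - p))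
    {B : Matrix m m K} (hB : IsFormOn J G W B) :
    ∀ p ∈ SC (GE G) (TE Γ) (Matrix.toLin' π),
      IsAdj ((fJ B).compl₁₂ W.subtype W.subtype) (Rw W p) (1 - Rw W p) := by
  intro p hp
  have M := mstr D hr
  have hpp := M.c1 hp
  have hpA := M.sc_mem hp
  obtain ⟨g, hg, hgp⟩ := M.cpt p hp 2 two_ne_zero
  have hgv : ∀ v : m → K, (g : Matrix m m K).mulVec v = v + p v := by
    intro v
    rw [← Matrix.toLin'_apply, ← hgp]
    have : (2 : K) - 1 = 1 := by norm_num
    rw [this, one_smul]; rfl
  obtain ⟨c, hc⟩ := D.sim g hg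
  have hJ : ∀ v w : m → K, fJ J (v + p v) (w + p w) = c * fJ J v w := by
    intro v w
    rw [GA.fJ_apply, GA.fJ_apply, ← hgv, ← hgv]
    have e : ((g : Matrix m m K).mulVec v) ⬝ᵥ J.mulVec ((g : Matrix m m K).mulVec w) =
        v ⬝ᵥ ((g : Matrix m m K).transpose * J * g).mulVec w := by
      rw [← Matrix.mulVec_mulVec, ← Matrix.mulVec_mulVec, Matrix.dotProduct_mulVec v,
        Matrix.vecMul_transpose]
    rw [e, hc, Matrix.smul_mulVec, dotProduct_smul, smul_eq_mul]
  have hppv : ∀ v, p (p v) = p v := fun v => LinearMap.congr_fun hpp v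
  have hc2 : c = 2 := by
    obtain ⟨v, w, hvw⟩ := M.exists_ne_form
    have h1 := hJ v w
    have h2 := hadj p hp v w
    have h3 := hadj p hp v (p w)
    simp only [LinearMap.sub_apply, Module.End.one_apply, map_sub, map_add,
      LinearMap.add_apply, hppv, sub_self] at h1 h2 h3
    have h0 : fJ J v (0 : m → K) = 0 := map_zero _
    have h4 : (c - 2) * fJ J v w = 0 := by
      rw [h3] at h1
      linear_combination - h1 + h2 + h0
    exact sub_eq_zero.mp ((mul_eq_zero.mp h4).resolve_right hvw)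
  have hF : ∀ v ∈ W, ∀ w ∈ W, fJ B (v + p v) (w + p w) = 2 * fJ B v w := by
    intro v hv w hw
    have := hB.2 g hg c hc v hv w hw
    rw [hgv, hgv, hc2] at this
    rw [GA.fJ_apply, GA.fJ_apply]
    exact this
  have hpW : ∀ v ∈ W, p v ∈ W := hW.st _ hpA
  have hz1 : ∀ v ∈ W, ∀ w ∈ W, fJ B (p v) (p w) = 0 := by
    intro v hv w hw
    have := hF (p v) (hpW v hv) (p w) (hpW w hw)
    simp only [map_add, LinearMap.add_apply, hppv] at this
    have h2 : (2 : K) * fJ B (p v) (p w) = 0 := by linear_combination this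
    exact (mul_eq_zero.mp h2).resolve_left two_ne_zero
  have hz2 : ∀ v ∈ W, ∀ w ∈ W, fJ B (v - p v) (w - p w) = 0 := by
    intro v hv w hw
    have := hF (v - p v) (W.sub_mem hv (hpW v hv)) (w - p w) (W.sub_mem hw (hpW w hw))
    rw [map_sub p, hppv, sub_self, add_zero, map_sub p, hppv, sub_self, add_zero] at this
    linear_combination -this
  intro v w
  have h1 := hz1 v v.2 w w.2
  have h2 := hz2 v v.2 w w.2
  rw [LinearMap.sub_apply, Module.End.one_apply]
  simp only [LinearMap.compl₁₂_apply, Submodule.subtype_apply, Submodule.coe_sub,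
    Rw_coe hpW]
  simp only [map_sub, LinearMap.sub_apply] at h2 ⊢
  linear_combination h1 - h2

theorem sign_eq (D : IsStrongMTPair Γ J G π) (hr : IsReductiveRep G) [Nonempty m]
    (hso : IsSelfOpposite G π) {ε : Module.End K (m → K)}
    (hW : Irr (AA (GE G) (TE Γ) (Matrix.toLin' π) : Set (Module.End K (m → K))) W)
    (hε : Bl (AA (GE G) (TE Γ) (Matrix.toLin' π)) ε) (hWε : InB ε W) {e e' : ℤ}
    (hs : HasSign J G W e) (hb : SgB (fJ J) (AA (GE G) (TE Γ) (Matrix.toLin' π)) ε W e') :
    e = e' := by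
  have M := mstr D hr
  have hadj : ∀ p ∈ SC (GE G) (TE Γ) (Matrix.toLin' π), IsAdj (fJ J) p (1 - p) := by
    intro p hp
    obtain ⟨h0, h1⟩ := M.ns_so (sop_of hso) hε p hp
    rcases M.c2 hp with h | h | h
    · exact h
    · exact absurd (by rw [h, zero_mul]) h0
    · exact absurd (by rw [h, one_mul]) h1
  have key : ∀ B, IsFormOn J G W B → ∀ a ∈ AA (GE G) (TE Γ) (Matrix.toLin' π),
      ∀ a' ∈ AA (GE G) (TE Γ) (Matrix.toLin' π), IsAdj (fJ J) a a' →
      IsAdj ((fJ B).compl₁₂ W.subtype W.subtype) (Rw W a) (Rw W a') := by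
    intro B hB a ha a' _ haa
    exact adjW' M hW hadj _ (SGN.form_adj D hr hW hadj hB) ha haa
  rcases hb with ⟨rfl, hnsd⟩ | ⟨hsd, b, hF, hsign⟩
  · rcases hs with ⟨rfl, -⟩ | ⟨B, hB, -⟩
    · rfl
    · exfalso
      obtain ⟨v, hv, w, hw, hvw⟩ := hB.1
      have h := no_form M hε hnsd hW hWε _ (key B hB) ⟨v, hv⟩ ⟨w, hw⟩
      apply hvw
      rw [← GA.fJ_apply]
      exact h
  · have hb0 : ∃ v w, b v w ≠ 0 := by
      by_contra hcon
      push Not at hcon
      obtain ⟨w₀, hw₀, hw₀0⟩ := W.ne_bot_iff.mp hW.ne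
      exact hw₀0 (congrArg Subtype.val (hF.nd.1 ⟨w₀, hw₀⟩ (hcon _)))
    rcases hs with ⟨rfl, hno⟩ | ⟨B, hB, hBs⟩
    · exfalso
      -- the form `b` gives a matrix
      set B : Matrix m m K := LinearMap.BilinForm.toMatrix' (b.compl₁₂ (prj W) (prj W)) with hBd
      have hfB : ∀ v w : m → K, v ⬝ᵥ B.mulVec w = b (prj W v) (prj W w) := by
        intro v w
        rw [← GA.fJ_apply]
        unfold fJ
        rw [hBd, Matrix.toBilin'_toMatrix']
        rfl
      apply hno B
      constructor
      · obtain ⟨v, w, hvw⟩ := hb0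
        refine ⟨v, v.2, w, w.2, ?_⟩
        rw [hfB, prj_coe, prj_coe]
        exact hvw
      · intro g hg c hc v hv w hw
        have hgE := GA.toLin_mem hg
        have hgA := M.g_mem hgE
        have hgiA := M.g_mem (GA.toLin_mem (G.inv_mem hg))
        have hadjg : IsAdj (fJ J) (Matrix.toLin' (g : Matrix m m K))
            (c • Matrix.toLin' ((g⁻¹ : Matrix.GeneralLinearGroup m K) : Matrix m m K)) := by
          have hJ : ∀ v w : m → K, fJ J (Matrix.toLin' (g : Matrix m m K) v)
              (Matrix.toLin' (g : Matrix m m K) w) = c * fJ J v w := by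
            intro v w
            rw [GA.fJ_apply, GA.fJ_apply, Matrix.toLin'_apply, Matrix.toLin'_apply]
            have e : ((g : Matrix m m K).mulVec v) ⬝ᵥ J.mulVec ((g : Matrix m m K).mulVec w) =
                v ⬝ᵥ ((g : Matrix m m K).transpose * J * g).mulVec w := by
              rw [← Matrix.mulVec_mulVec, ← Matrix.mulVec_mulVec, Matrix.dotProduct_mulVec v,
                Matrix.vecMul_transpose]
            rw [e, hc, Matrix.smul_mulVec, dotProduct_smul, smul_eq_mul]
          intro v w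
          have h1 := hJ v (Matrix.toLin' ((g⁻¹ : Matrix.GeneralLinearGroup m K) :
            Matrix m m K) w)
          have h2 : Matrix.toLin' (g : Matrix m m K) (Matrix.toLin'
              ((g⁻¹ : Matrix.GeneralLinearGroup m K) : Matrix m m K) w) = w :=
            LinearMap.congr_fun (GA.toLin_mul_inv g) w
          rw [h2] at h1
          rw [h1, LinearMap.smul_apply, map_smul, smul_eq_mul]
        have h3 := hF.adj _ hgA _ ((AA (GE G) (TE Γ) (Matrix.toLin' π)).smul_mem hgiA c) hadjg
        have hRg : ∀ v : m → K, (hv : v ∈ W) →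
            prj W ((g : Matrix m m K).mulVec v) = Rw W (Matrix.toLin' (g : Matrix m m K)) ⟨v, hv⟩ := by
          intro v hv
          rfl
        rw [hfB, hfB, hRg v hv, hRg w hw, h3, map_smul]
        have h4 : Rw W (Matrix.toLin' ((g⁻¹ : Matrix.GeneralLinearGroup m K) : Matrix m m K))
            (Rw W (Matrix.toLin' (g : Matrix m m K)) ⟨w, hw⟩) = ⟨w, hw⟩ := by
          rw [← Module.End.mul_apply, ← Rw_mul' hW hgiA hgA, GA.toLin_inv_mul, Rw_one]
          rfl
        rw [LinearMap.smul_apply, h4, map_smul, smul_eq_mul]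
        have h5 : prj W v = ⟨v, hv⟩ := prj_coe W ⟨v, hv⟩
        have h6 : prj W w = ⟨w, hw⟩ := prj_coe W ⟨w, hw⟩
        rw [h5, h6]
    · obtain ⟨c, hc⟩ := uniq M hW b _ hF.nd hF.adj (key B hB)
      have hc0 : c ≠ 0 := by
        rintro rfl
        obtain ⟨v, hv, w, hw, hvw⟩ := hB.1
        apply hvw
        have h := hc ⟨v, hv⟩ ⟨w, hw⟩
        rw [zero_mul] at h
        rw [← GA.fJ_apply]
        exact h
      have hbe : ∀ v w, b v w = (e : K) * b w v := by
        intro v w
        have h1 := hBs v v.2 w w.2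
        rw [← GA.fJ_apply, ← GA.fJ_apply] at h1
        have h2 : fJ B v w = c * b v w := hc v w
        have h3 : fJ B w v = c * b w v := hc w v
        rw [h2, h3] at h1
        apply mul_left_cancel₀ hc0
        linear_combination h1
      obtain ⟨v, w, hvw⟩ := hb0
      rcases hsign with ⟨rfl, hsy⟩ | ⟨rfl, halt⟩
      · have h1 := hbe v w
        rw [hsy w v] at h1
        have h2 : ((e : K) - 1) * b v w = 0 := by linear_combination -h1
        have h3 := (mul_eq_zero.mp h2).resolve_right hvw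
        have h4 : (e : K) = ((1 : ℤ) : K) := by rw [Int.cast_one]; exact sub_eq_zero.mp h3
        exact Int.cast_injective h4
      · have h1 := hbe v w
        have h5 : b w v = - b v w := (LinearMap.IsAlt.neg halt v w).symm
        rw [h5] at h1
        have h2 : ((e : K) + 1) * b v w = 0 := by linear_combination h1
        have h3 := (mul_eq_zero.mp h2).resolve_right hvw
        have h4 : (e : K) = ((-1 : ℤ) : K) := by
          rw [Int.cast_neg, Int.cast_one]; exact eq_neg_of_add_eq_zero_left h3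
        exact Int.cast_injective h4

end AV
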