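import Pool.Agent.Helper2.AV.TDefs

/-!
Strong Mumford-Tate pairs whose cocharacter is conjugate to its opposite: definitions, and the
abstract forms of the conditions.
-/

open Module

namespace MTPairs

variable {K : Type*} [Field K] {m : Type*} [Fintype m] [DecidableEq m]

/-- The cocharacter `t ↦ t π + (1 - π)` is conjugate in `G` to the opposite cocharacter
`t ↦ t (1 - π) + π`. -/
def IsSelfOpposite (G : Subgroup (Matrix.GeneralLinearGroup m K)) (π : Matrix m m K) : Prop :=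
  ∃ g ∈ G, (g : Matrix m m K) * π = (1 - π) * (g : Matrix m m K)

/-- Every `γ` in `Γ₁` coincides on every finite set with some `γ'` in `Γ` such that for some
conjugate `P` of `π` either the class of `P` under `G` is fixed by `γ'` (some `g γ'` with `g` in
`G` commutes with `P`), or `γ'` commutes with an element `u = 1 + N` of `G`, such that `P N = N`
and `N P = 0`, and such that `N` is not zero on any image of `W` under `Γ`. -/
def LocAt (Γ₁ Γ : Subgroup (Equiv.Perm (m → K))) (G : Subgroup (Matrix.GeneralLinearGroup m K))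
    (π : Matrix m m K) (W : Submodule K (m → K)) : Prop :=
  ∀ γ ∈ Γ₁, ∀ E : Finset (m → K), ∃ γ' ∈ Γ, (∀ v ∈ E, γ' v = γ v) ∧
    ∃ P : Matrix m m K, IsConj Γ G π P ∧
      ((∃ g ∈ G, ∀ v : m → K, (g : Matrix m m K).mulVec (γ' (P.mulVec v)) =
          P.mulVec ((g : Matrix m m K).mulVec (γ' v))) ∨
        ∃ u ∈ G, P * ((u : Matrix m m K) - 1) = (u : Matrix m m K) - 1 ∧
          ((u : Matrix m m K) - 1) * P = 0 ∧
          (∀ v : m → K, (u : Matrix m m K).mulVec (γ' v) = γ' ((u : Matrix m m K).mulVec v)) ∧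
          ∀ θ ∈ Γ, ∀ U : Submodule K (m → K), (∀ v, v ∈ W ↔ θ v ∈ U) →
            U.map ((u : Matrix m m K) - 1).mulVecLin ≠ ⊥)

/-- The bilinear form with Gram matrix `B` is not zero on the subspace `W`, and the elements of
`G` are similitudes of it on `W`, with the same multipliers as for the form with Gram matrix
`J`. -/
def IsFormOn (J : Matrix m m K) (G : Subgroup (Matrix.GeneralLinearGroup m K))
    (W : Submodule K (m → K)) (B : Matrix m m K) : Prop :=
  (∃ v ∈ W, ∃ w ∈ W, v ⬝ᵥ B.mulVec w ≠ 0) ∧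
    ∀ g ∈ G, ∀ c : K, (g : Matrix m m K).transpose * J * (g : Matrix m m K) = c • J →
      ∀ v ∈ W, ∀ w ∈ W, ((g : Matrix m m K).mulVec v) ⬝ᵥ B.mulVec ((g : Matrix m m K).mulVec w) =
        c * (v ⬝ᵥ B.mulVec w)

/-- The sign of the subrepresentation `W`: it is `1` if there is a symmetric form on `W` of which
the elements of `G` are similitudes with the multipliers of `J`, it is `-1` if there is an
alternating one, and `0` if there is none. -/
def HasSign (J : Matrix m m K) (G : Subgroup (Matrix.GeneralLinearGroup m K))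
    (W : Submodule K (m → K)) (e : ℤ) : Prop :=
  (e = 0 ∧ ∀ B, ¬ IsFormOn J G W B) ∨
    ∃ B, IsFormOn J G W B ∧ ∀ v ∈ W, ∀ w ∈ W, v ⬝ᵥ B.mulVec w = (e : K) * (w ⬝ᵥ B.mulVec v)

end MTPairs

namespace AV

open MTP UN

variable {K : Type*} [Field K] {V : Type*} [AddCommGroup V] [Module K V] [FiniteDimensional K V]

/-- The cocharacter is conjugate to its opposite. -/
def SOp (G : Set (Module.End K V)) (p0 : Module.End K V) : Prop :=
  ∃ g ∈ G, g * p0 = (1 - p0) * g

/-- The local condition for the block `ε`. -/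
def LocE (G : Set (Module.End K V)) (T : Set (Module.End K V ≃+* Module.End K V))
    (p0 ε : Module.End K V) : Prop :=
  ∀ τ ∈ T, ∀ E : Finset (Module.End K V), ∃ τ' ∈ T, (∀ x ∈ E, τ' x = τ x) ∧
    ∃ p ∈ SC G T p0, (∃ g ∈ G, ∃ h ∈ G, g * h = 1 ∧ h * g = 1 ∧ g * τ' p * h = p) ∨
      ∃ u ∈ G, p * (u - 1) = u - 1 ∧ (u - 1) * p = 0 ∧ τ' u = u ∧
        ∀ τ'' ∈ T, (u - 1) * τ'' ε ≠ 0

/-- The exceptional dimensions of the three types: the spin representations. -/
def SpinD (D : ℕ) (e : ℤ) : Prop :=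
  (e = -1 ∧ ∃ n, 5 ≤ n ∧ (n % 4 = 1 ∨ n % 4 = 2) ∧ D = 2 ^ n) ∨
  (e = 1 ∧ ∃ n, 3 ≤ n ∧ (n % 4 = 0 ∨ n % 4 = 3) ∧ D = 2 ^ n) ∨
  (e = 0 ∧ ∃ n, 4 ≤ n ∧ Even n ∧ D = 2 ^ n)

/-- The sign of a block, abstract form. -/
def SgB (ω : LinearMap.BilinForm K V) (A : Subalgebra K (Module.End K V)) (ε : Module.End K V)
    (W : Submodule K V) (e : ℤ) : Prop :=
  (e = 0 ∧ ¬ SD ω ε) ∨
    (SD ω ε ∧ ∃ b : LinearMap.BilinForm K W, Fm ω A ε W b ∧
      ((e = 1 ∧ ∀ v w, b v w = b w v) ∨ (e = -1 ∧ b.IsAlt)))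

section SH
open MTPairs

/-- An exceptional example of sign `e` and dimension `D`. -/
def HasEx3 (K : Type*) [Field K] (D : ℕ) (e : ℤ) : Prop :=
  ∃ (m : Type) (_ : Fintype m) (_ : DecidableEq m) (J : Matrix m m K)
    (G : Subgroup (Matrix.GeneralLinearGroup m K)) (π : Matrix m m K),
    IsStrongMTPair ⊥ J G π ∧ IsReductiveRep G ∧ IsSelfOpposite G π ∧
    (∀ W, IsIrrSub G W → finrank K W = D ∧ HasSign J G W e) ∧ ¬ ContainsDer J G

end SH

end AV
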