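import Pool.Agent.Helper43.RR.Defs
import Pool.Agent.Helper82.AV.SHS
import Pool.Agent.Helper82.UN.EE

/-!
BLOCK RR-ShS (about 150 lines). The spin representations, self dual case.

Proof in words. `Dat.hasEx` in `Helper82/AV/SHS.lean` constructs, from the data `Dat V x y` of an
irreducible Clifford space and the form `J` on spinors, the strong pair `J2 J`, `GG V x y`,
`bl K m x * bl K m y` on `K^(m ⊕ m)` (two copies of the spin representation) with all the needed
properties. Two more things are needed.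
(1) `IsSelfOpposite`: for `w ∈ V` with `w x + x w = 0`, `w y + y w = 0`, `w * w = 1` the element
`(x + y) w = (1 + x w) (1 + y w) (1 + x w)` is in `EN V x y`
(the generators of `EN` are exactly `1 + x w`, `1 + y w` for such `w`; expand: `(x w)² = 0`,
`x w y w = - x y`, `y w x w = - y x`, `x y x = x`), and `(x + y) w * (x y) = y w =
(1 - x y) (x + y) w` (use `x y + y x = 1`, `x² = y² = 0`). Take its image under `bl`
(`EN_map`, `Dat.EN_le`). For the examples take `w = g0` (`g0_mem`, `g0_orth`, `g0_sq`).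
(2) `HasSign (J2 J) (GG V x y) W e` for every irreducible `W`: let `pr` be as in `Dat.ex_pr`; the
Gram matrix is `B = Pᵀ J P` with `P` the matrix of `pr` (`v ⬝ᵥ B w = pr v ⬝ᵥ J (pr w)`); it is not
zero on `W` as `pr` maps `W` onto `K^m` and `J ≠ 0`. An element `g` of `GG V x y` is `bl A`: by
`Dat.cen` it commutes with `e1`; if this is not enough to get `g = bl A`, use a closed subgroup
argument: the matrices `fromBlocks A 0 0 A` form a linear subspace `N` of matrices and
`closed_of_linear` shows that `{g | g ∈ N}` (with `G = ⊤`, `top_closed`) is closed, it contains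
the tori by `Dat.ex`, so `GenG ≤` it; see `Dat.cen`. Then `gᵀ J2 g = c J2` gives `Aᵀ J A = c J`, so
`pr (g v) = A (pr v)` and the form has the multiplier `c`. If `Jᵀ = s J`, `s = ± 1`, the sign is
`s`.
The form is `JS K (k+2)` (`JS_det'`, `JS_VS`). Its symmetry: `JS_t` gives `(JS K n).transpose =
-JS K n` for `n % 4 = 1 ∨ n % 4 = 2`, and `UN.EE.JS_t3` (`n % 4 = 3`) gives `JS_t = JS`; prove the
case `n % 4 = 0` in the same way (`prod_sg3` with `n = 4 q`).
`¬ ContainsDer` is `Dat.not_contains` with `exists_N` (which needs `1 ≤ k`, `n = k + 2`).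
-/

set_option linter.unusedSimpArgs false
set_option linter.unusedSectionVars false
set_option linter.unusedVariables false

open Module MTPairs MTP TRSpin

namespace AV

open AV.SHS

namespace RRS

variable {K : Type*} [Field K]

section so
variable {m : Type*} [Fintype m] [DecidableEq m]

/-- The cocharacter of a hyperbolic pair is conjugate to its opposite. -/
lemma so_mem {V : Submodule K (Matrix m m K)} {x y w : Matrix m m K} (hw : w ∈ V)
    (x2 : x * x = 0) (y2 : y * y = 0) (xy : x * y + y * x = 1) (hwx : w * x + x * w = 0)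
    (hwy : w * y + y * w = 0) (w2 : w * w = 1) :
    ∃ g ∈ EN V x y, (g : Matrix m m K) * (x * y) = (1 - x * y) * (g : Matrix m m K) := by
  obtain ⟨u, hu⟩ := unip_ex (eich_sq x2 hwx)
  obtain ⟨u', hu'⟩ := unip_ex (eich_sq y2 hwy)
  have hu1 : u ∈ EN V x y := Subgroup.subset_closure ⟨w, hw, hwx, hwy, Or.inl hu⟩
  have hu2 : u' ∈ EN V x y := Subgroup.subset_closure ⟨w, hw, hwx, hwy, Or.inr hu'⟩
  refine ⟨u * u' * u, Subgroup.mul_mem _ (Subgroup.mul_mem _ hu1 hu2) hu1, ?_⟩
  have ewx : w * x = -(x * w) := eq_neg_of_add_eq_zero_left hwx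
  have ewy : w * y = -(y * w) := eq_neg_of_add_eq_zero_left hwy
  have exw : x * w * (y * w) = -(x * y) := by
    calc x * w * (y * w) = x * (w * y) * w := by simp only [mul_assoc]
      _ = -(x * y) := by
        rw [ewy, mul_neg, neg_mul, ← mul_assoc, mul_assoc (x * y), w2, mul_one]
  have eyw : y * w * (x * w) = -(y * x) := by
    calc y * w * (x * w) = y * (w * x) * w := by simp only [mul_assoc]
      _ = -(y * x) := by
        rw [ewx, mul_neg, neg_mul, ← mul_assoc, mul_assoc (y * x), w2, mul_one]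
  have exx : x * w * (x * w) = 0 := eich_sq x2 hwx
  have eg : ((u * u' * u : Matrix.GeneralLinearGroup m K) : Matrix m m K) =
      x * w + y * w := by
    rw [Units.val_mul, Units.val_mul, hu, hu']
    have e1 : (1 + x * w) * (1 + y * w) * (1 + x * w) =
        1 + x * w + y * w + x * w * (y * w) + x * w + x * w * (x * w) + y * w * (x * w) +
          x * w * (y * w) * (x * w) := by noncomm_ring
    rw [e1, exw, eyw, exx]
    have e2 : -(x * y) * (x * w) = -(x * w) := by
      rw [neg_mul, xyxw x2 xy]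
    rw [e2]
    have e3 : (1 : Matrix m m K) = x * y + y * x := xy.symm
    rw [e3]
    abel
  have e3 : (1 : Matrix m m K) - x * y = y * x := by rw [← xy]; abel
  have e4 : w * (x * y) = x * y * w := by
    rw [← mul_assoc, ewx, neg_mul, mul_assoc, ewy, mul_neg, neg_neg, mul_assoc]
  have e5 : x * (x * y * w) = 0 := by
    rw [← mul_assoc, ← mul_assoc, x2, zero_mul, zero_mul]
  have e6 : y * x * (x * w) = 0 := by
    rw [mul_assoc, ← mul_assoc x, x2, zero_mul, mul_zero]
  rw [eg, e3, add_mul, mul_assoc x w, e4, mul_assoc y w, e4, mul_add, e5, e6, zero_add, zero_add,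
    ← mul_assoc, ← mul_assoc, ← mul_assoc]

end so

section sd
variable {m : Type*} [Fintype m] [DecidableEq m]
variable {V : Submodule K (Matrix m m K)} {x y : Matrix m m K} [CharZero K]

lemma cenE (D : Dat V x y) {E : Matrix (m ⊕ m) (m ⊕ m) K}
    (hE : ∀ A, bl K m A * E = E * bl K m A) : GG V x y ≤ UN.W.Cen E := by
  apply GenG_le (UN.W.Cen_closed _)
  intro Q hQ
  apply cen_cochar (D.idem hQ)
  obtain ⟨A, rfl⟩ := D.ex hQ
  exact hE A

lemma ex_bl (D : Dat V x y) {g : Matrix.GeneralLinearGroup (m ⊕ m) K} (hg : g ∈ GG V x y) :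
    ∃ A, (g : Matrix (m ⊕ m) (m ⊕ m) K) = bl K m A := by
  have h1 : (g : Matrix (m ⊕ m) (m ⊕ m) K) * Matrix.fromBlocks 1 0 0 0 =
      Matrix.fromBlocks 1 0 0 0 * (g : Matrix (m ⊕ m) (m ⊕ m) K) := cenE D (fun A => by
    rw [bl_apply, Matrix.fromBlocks_multiply, Matrix.fromBlocks_multiply]; simp) hg
  have h2 : (g : Matrix (m ⊕ m) (m ⊕ m) K) * Matrix.fromBlocks 0 1 0 0 =
      Matrix.fromBlocks 0 1 0 0 * (g : Matrix (m ⊕ m) (m ⊕ m) K) := cenE D (fun A => by
    rw [bl_apply, Matrix.fromBlocks_multiply, Matrix.fromBlocks_multiply]; simp) hg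
  rw [← Matrix.fromBlocks_toBlocks (g : Matrix (m ⊕ m) (m ⊕ m) K)] at h1 h2 ⊢
  simp only [Matrix.fromBlocks_multiply, Matrix.mul_zero, Matrix.zero_mul, add_zero, zero_add,
    Matrix.fromBlocks_inj, mul_one, one_mul] at h1 h2
  obtain ⟨-, h12, h21, -⟩ := h1
  obtain ⟨-, h, -, -⟩ := h2
  refine ⟨(g : Matrix (m ⊕ m) (m ⊕ m) K).toBlocks₁₁, ?_⟩
  rw [bl_apply, ← h12, h21, ← h]

lemma sim_of_bl {J A : Matrix m m K} {c : K}
    (h : (bl K m A).transpose * J2 J * bl K m A = c • J2 J) :
    A.transpose * J * A = c • J := by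
  rw [bl_apply, J2, Matrix.fromBlocks_transpose, Matrix.fromBlocks_multiply,
    Matrix.fromBlocks_multiply, Matrix.fromBlocks_smul, Matrix.fromBlocks_inj] at h
  simpa using h.2.1

/-- The sign of an irreducible subrepresentation. -/
theorem sign_sd [Nonempty m] (D : Dat V x y) {J : Matrix m m K} (hJ : J.det ≠ 0) {e : ℤ}
    (hs : J.transpose = (e : K) • J) {W : Submodule K (m ⊕ m → K)}
    (hW : IsIrrSub (GG V x y) W) : HasSign (J2 J) (GG V x y) W e := by
  obtain ⟨pr, h1, h2, h3⟩ := D.ex_pr hW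
  have hq : ∀ u, ∃ v ∈ W, pr v = u := by
    intro u
    have : u ∈ W.map pr := by rw [h3]; trivial
    obtain ⟨v, hv, rfl⟩ := this
    exact ⟨v, hv, rfl⟩
  set P : Matrix m (m ⊕ m) K := LinearMap.toMatrix' pr with hP
  have hPv : ∀ v, P.mulVec v = pr v := fun v => by
    rw [hP, ← Matrix.toLin'_apply, Matrix.toLin'_toMatrix']
  have hb : ∀ v w, v ⬝ᵥ (P.transpose * J * P).mulVec w = pr v ⬝ᵥ J.mulVec (pr w) := by
    intro v w
    rw [← Matrix.mulVec_mulVec, ← Matrix.mulVec_mulVec, Matrix.mulVec_transpose, hPv,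
      dotProduct_comm, ← Matrix.dotProduct_mulVec, hPv, dotProduct_comm]
  refine Or.inr ⟨P.transpose * J * P, ⟨?_, ?_⟩, ?_⟩
  · by_contra hcon
    push Not at hcon
    have h0 : J = 0 := by
      ext i j
      obtain ⟨v, hv, hvi⟩ := hq (Pi.single i 1)
      obtain ⟨w, hw, hwj⟩ := hq (Pi.single j 1)
      have := hcon v hv w hw
      rw [hb, hvi, hwj] at this
      simpa using this
    rw [h0, Matrix.det_zero] at hJ
    exact hJ rfl
  · intro g hg c hc v hv w hw
    obtain ⟨A, hA⟩ := ex_bl D hg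
    rw [hA] at hc ⊢
    have h4 := sim_of_bl hc
    rw [hb, hb, h1, h1]
    have : A.mulVec (pr v) ⬝ᵥ J.mulVec (A.mulVec (pr w)) =
        pr v ⬝ᵥ (A.transpose * J * A).mulVec (pr w) := by
      rw [← Matrix.mulVec_mulVec, ← Matrix.mulVec_mulVec, Matrix.mulVec_transpose,
        dotProduct_comm, Matrix.dotProduct_mulVec, dotProduct_comm]
    rw [this, h4, Matrix.smul_mulVec, dotProduct_smul, smul_eq_mul]
  · intro v hv w hw
    rw [hb, hb]
    have : pr v ⬝ᵥ J.mulVec (pr w) = pr w ⬝ᵥ J.transpose.mulVec (pr v) := by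
      rw [Matrix.mulVec_transpose, Matrix.dotProduct_mulVec, dotProduct_comm]
    rw [this, hs, Matrix.smul_mulVec, dotProduct_smul, smul_eq_mul]

/-- The example. -/
theorem ex3_dat [IsAlgClosed K] {m : Type} [Fintype m] [DecidableEq m] [Nonempty m]
    {V : Submodule K (Matrix m m K)} {x y : Matrix m m K} (D : Dat V x y) {J N w : Matrix m m K}
    (hJ : J.det ≠ 0) {s : ℤ} (hs : J.transpose = (s : K) • J) {e : K} (he : e * e = 1)
    (hv : ∀ v ∈ V, v.transpose * J = e • (J * v))
    (h1 : N * N = 0) (h2 : x * y * N = N) (h3 : N * (x * y) = 0)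
    (h4 : N.transpose * J + J * N = 0) (h5 : N ∉ V * V) {d : ℕ} (hd : Fintype.card m = d)
    (hw : w ∈ V) (hwx : w * x + x * w = 0) (hwy : w * y + y * w = 0) (hww : w * w = 1) :
    HasEx3 K d s := by
  refine ⟨m ⊕ m, inferInstance, inferInstance, J2 J, GG V x y, bl K m x * bl K m y,
    ?_, D.red, ?_, fun W hW => ⟨by rw [D.fr hW, hd], sign_sd D hJ hs hW⟩,
    D.not_contains h1 h2 h3 h4 h5⟩
  · refine strong_of_orbit_self (J2_t J) (J2_det hJ) _ _ (fun P hP => ?_) D.EN_le
    refine hyp_lag he ?_ (D.hyp hP)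
    rintro _ ⟨v, hv', rfl⟩
    exact J2_vec he (hv v hv')
  · obtain ⟨g, hg, hgp⟩ := so_mem (V := V2 V) (x := bl K m x) (y := bl K m y) (w := bl K m w)
      (mem_V2 hw) (by rw [← map_mul, D.x2, map_zero]) (by rw [← map_mul, D.y2, map_zero])
      (by rw [← map_mul, ← map_mul, ← map_add, D.xy, map_one])
      (by rw [← map_mul, ← map_mul, ← map_add, hwx, map_zero])
      (by rw [← map_mul, ← map_mul, ← map_add, hwy, map_zero])
      (by rw [← map_mul, hww, map_one])
    exact ⟨g, D.EN_le hg, hgp⟩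

end sd

/-! ### The symmetry of the form -/

section sym
variable {n : ℕ}

lemma prod_sg0 (hn : n % 4 = 0) : ∏ k : Fin n, (-1 : K) ^ (k.val + (n + 1) + 1) = 1 := by
  rw [Finset.prod_pow_eq_pow_sum, Fin.sum_univ_eq_sum_range (fun k => k + (n + 1) + 1) n]
  have h1 : (∑ k ∈ Finset.range n, (k + (n + 1) + 1)) * 2 = n * (n - 1) + 2 * (n * (n + 2)) := by
    simp only [Finset.sum_add_distrib, Finset.sum_const, Finset.card_range, smul_eq_mul]
    rw [add_mul, add_mul, Finset.sum_range_id_mul_two]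
    ring
  have h2 : Even (∑ k ∈ Finset.range n, (k + (n + 1) + 1)) := by
    generalize (∑ k ∈ Finset.range n, (k + (n + 1) + 1)) = s at h1
    rw [Nat.even_iff]
    rcases Nat.eq_zero_or_pos n with h0 | hpos
    · subst h0
      omega
    · obtain ⟨q, rfl⟩ : ∃ q, n = 4 * q + 4 := ⟨n / 4 - 1, by omega⟩
      have e : 4 * q + 4 - 1 = 4 * q + 3 := by omega
      rw [e] at h1
      ring_nf at h1
      have : s * 2 = 2 * (30 + q * 54 + q ^ 2 * 24) := by rw [h1]; ring
      omega
  exact h2.neg_one_pow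

lemma JS_t0 (hn : n % 4 = 0 ∨ n % 4 = 3) : (JS K n).transpose = JS K n := by
  rcases hn with hn | hn
  · rw [JS, Tn_transpose]
    ext x y
    have := prod_sg0 (K := K) hn
    simp only [Tn, Jf_t, Matrix.smul_apply, smul_eq_mul, Finset.prod_mul_distrib, this, one_mul]
  · exact UN.EE.JS_t3 hn

end sym

/-- The spin representation with the sign of its form. -/
theorem ex3_spin (K : Type*) [Field K] [IsAlgClosed K] [CharZero K] {n : ℕ} (hn : 3 ≤ n)
    {s : ℤ} (hs : (JS K n).transpose = (s : K) • JS K n) : HasEx3 K (2 ^ n) s := by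
  obtain ⟨k, rfl⟩ : ∃ k, n = k + 2 := ⟨n - 2, by omega⟩
  obtain ⟨N, h1, h2, h3, h4, h5⟩ := exists_N (K := K) (k := k) (by omega)
  have hee : (-1 : K) ^ (k + 2) * (-1 : K) ^ (k + 2) = 1 := by
    rw [← mul_pow]; simp
  exact ex3_dat (dat (K := K) (k := k)) JS_det' hs hee JS_VS h1 h2 h3 h4 h5 (by simp)
    g0_mem (g0_orth 0 mem_cm) (g0_orth 0 mem_am) g0_sq

end RRS

theorem ex3_S (K : Type*) [Field K] [IsAlgClosed K] [CharZero K] {n : ℕ} (hn : 5 ≤ n)
    (h : n % 4 = 1 ∨ n % 4 = 2) : HasEx3 K (2 ^ n) (-1) := by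
  apply RRS.ex3_spin K (by omega)
  rw [JS_t h]
  simp

theorem ex3_O (K : Type*) [Field K] [IsAlgClosed K] [CharZero K] {n : ℕ} (hn : 3 ≤ n)
    (h : n % 4 = 0 ∨ n % 4 = 3) : HasEx3 K (2 ^ n) 1 := by
  apply RRS.ex3_spin K hn
  rw [RRS.JS_t0 h]
  simp

end AV
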