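import Pool.Agent.Helper43.RR.ShS

/-!
BLOCK RR-ShU (about 180 lines). The half-spin representations, not self dual.

Proof in words. `UN.exists_half` (end of `Helper82/UN/EE.lean`) constructs, for `n = k + 2` odd,
`5 ≤ n`, the strong pair `J` (`exists_form`), `G = GenG (OH V (x0 K k) (y0 K k))`,
`π = x0 K k * y0 K k`, `V = V0 K (k + 2)` on `Sx (k + 2) → K`, with the two irreducible
subrepresentations `Wh K (k + 2) 1` and `Wh K (k + 2) (-1)` of dimension `2 ^ (k + 1)`. Repeat that
construction (here the exponent of the statement is `n = k + 1`, even, `4 ≤ n`). To be shown: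
(1) `IsReductiveRep`: a stable `U` meets `Wh 1` in `⊥` or `Wh 1` etc.: copy `Dat.red` in
`Helper82/AV/SHS.lean` (irreducibility of `Wh (±1)`: the last two fields of `IsUnitarySplit` /
`half_irr`; for `-1` use the involution `v ↦ J v` or repeat `half_irr`; `SH4` or
`Helper90/AV/Shw.lean` may contain a lemma: a unitary split pair is reductive; search
`IsReductiveRep` there).
(2) `IsSelfOpposite`: the element `(x0 + y0) * zz = (1 + x0 zz) (1 + y0 zz) (1 + x0 zz)` lies in
`EN V x0 y0 ≤ G` (`zz_mem`, `zz_sq`, `zz_x`, `zz_y`; the generators of `EN` are `1 + x0 w` and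
`1 + y0 w`), and `(x0 + y0) zz * (x0 y0) = y0 zz = (1 - x0 y0) (x0 + y0) zz`.
(3) an irreducible `W` is `Wh 1` or `Wh (-1)`: if `W` is neither contained in `Wh 1` nor in
`Wh (-1)` then both projections `W → Wh (±1)` are injective (kernels `W ⊓ Wh (∓1)` are stable and
not `W`), so bijective, and the composition is a nonzero intertwiner `Wh 1 → Wh (-1)`,
contradiction to `no_iso`. (Or: `g0 K (k+2)` maps `W` to itself by `pres_g0`, the element
`g0` lies in the algebra generated by the idempotents `OH`, so for `w ∈ W` both `w ± g0 w` are in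
`W`: so `W` meets `Wh 1` or `Wh (-1)`. This is easier.) So `finrank W = 2 ^ (k + 1)`
(`IsCompl` and `zz` exchanges the two halves, see `fr_le`).
(4) `HasSign J G W 0`: no form `B` on `W = Wh s` with `B (g v) (g w) = c B v w`. For
`P ∈ OH V x0 y0`, `g_t = t P + (1 - P)` has multiplier `t` (`hyp_lag`, `torus_sim`), so
`B (P v) w = B v ((1 - P) w)` on `W` (compare the coefficients at `t = 1, 2, -1`). With
`P * g0 = g0 * P` etc.: let `S = {M : B (M v) w = B v (M* w)}` where `M ↦ M* = J⁻¹ Mᵀ J` is the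
adjoint for `J` (so `P* = 1 - P`); `S` is closed under products and sums and contains the `P`, so
it contains `g0` (`pres_g0` is proved by products of the `P`; or use `Subalgebra`/the algebra
generated by `OH`: `g0 ∈ Algebra.adjoin K (OH ..)`), and `g0* = -g0` (`Form.g0`), so for
`v, w ∈ Wh s`: `s B v w = B (g0 v) w = - B v (g0 w) = - s B v w`, `B v w = 0`.
(Alternative for (4): the form gives an intertwiner `f : Wh 1 → Wh (-1)`, `B v w = v'ᵀ J f..`, and
`no_iso`.)
(5) `¬ ContainsDer J G`: `UN.EE.not_contains` gives `¬ ContainsSU J G (Wh 1) (Wh (-1))`;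
unfold both: an isometry `t` of `J` preserving `Wh (±1)` with determinant one on `Wh 1`
commutes with all the endomorphisms of the representation (which are scalars on `Wh (±1)` by
Schur and `no_iso`), and has determinant one also on `Wh (-1)` (dual). See the same step in
`Helper90/AV/Shw.lean` (wedge representations, unitary type), there may be a lemma to reuse.
-/

set_option linter.unusedSimpArgs false
set_option linter.unusedSectionVars false
set_option linter.unusedVariables false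

open Module MTPairs MTP TRSpin

namespace AV

open AV.SHS

namespace RRU

section gen
variable {K : Type*} [Field K] {m : Type*} [Fintype m] [DecidableEq m]

/-- The vectors of the even dimensional space in two copies of the spinors. -/
def ovl (K : Type*) [Field K] (m : Type*) [Fintype m] [DecidableEq m] :
    (Matrix m m K × K) →ₗ[K] Matrix (m ⊕ m) (m ⊕ m) K where
  toFun p := Matrix.fromBlocks 0 (p.1 + p.2 • 1) (p.1 - p.2 • 1) 0
  map_add' p q := by
    rw [Matrix.fromBlocks_add, Prod.fst_add, Prod.snd_add, add_smul]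
    congr 1
    · simp
    · abel
    · abel
    · simp
  map_smul' c p := by
    rw [RingHom.id_apply, Matrix.fromBlocks_smul, Prod.smul_fst, Prod.smul_snd, smul_add,
      smul_sub, smul_smul, smul_eq_mul]
    congr 1
    · simp
    · simp

/-- The space of vectors. -/
def VD (V : Submodule K (Matrix m m K)) : Submodule K (Matrix (m ⊕ m) (m ⊕ m) K) :=
  (V.prod (⊤ : Submodule K K)).map (ovl K m)

lemma mem_VD {V : Submodule K (Matrix m m K)} {X : Matrix (m ⊕ m) (m ⊕ m) K} :
    X ∈ VD V ↔ ∃ v ∈ V, ∃ a : K, X = Matrix.fromBlocks 0 (v + a • 1) (v - a • 1) 0 := by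
  constructor
  · rintro ⟨⟨v, a⟩, ⟨hv, -⟩, rfl⟩
    exact ⟨v, hv, a, rfl⟩
  · rintro ⟨v, hv, a, rfl⟩
    exact ⟨(v, a), ⟨hv, trivial⟩, rfl⟩

/-- The vector given by a matrix. -/
def o1 (v : Matrix m m K) : Matrix (m ⊕ m) (m ⊕ m) K := Matrix.fromBlocks 0 v v 0

/-- The extra vector. -/
def oe (K : Type*) [Field K] (m : Type*) [DecidableEq m] : Matrix (m ⊕ m) (m ⊕ m) K :=
  Matrix.fromBlocks 0 1 (-1) 0

lemma o1_mul (v w : Matrix m m K) : o1 v * o1 w = bl K m (v * w) := by
  rw [o1, o1, bl_apply, Matrix.fromBlocks_multiply]; simp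

lemma o1_oe (v : Matrix m m K) : o1 v * oe K m = Matrix.fromBlocks (-v) 0 0 v := by
  rw [o1, oe, Matrix.fromBlocks_multiply]; simp

lemma oe_o1 (v : Matrix m m K) : oe K m * o1 v = Matrix.fromBlocks v 0 0 (-v) := by
  rw [o1, oe, Matrix.fromBlocks_multiply]; simp

lemma oe_orth (v : Matrix m m K) : oe K m * o1 v + o1 v * oe K m = 0 := by
  rw [o1_oe, oe_o1, Matrix.fromBlocks_add]; simp

lemma o1_orth {v w : Matrix m m K} (h : v * w + w * v = 0) :
    o1 v * o1 w + o1 w * o1 v = 0 := by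
  rw [o1_mul, o1_mul, ← map_add, h, map_zero]

variable {V : Submodule K (Matrix m m K)} {x y g : Matrix m m K}

lemma o1_mem {v : Matrix m m K} (hv : v ∈ V) : o1 v ∈ VD V :=
  mem_VD.mpr ⟨v, hv, 0, by rw [o1]; simp⟩

lemma oe_mem : oe K m ∈ VD V := mem_VD.mpr ⟨0, V.zero_mem, 1, by rw [oe]; simp⟩

lemma VD_mul (v w : Matrix m m K) (a b : K) :
    Matrix.fromBlocks 0 (v + a • 1) (v - a • 1) 0 *
      Matrix.fromBlocks 0 (w + b • 1) (w - b • (1 : Matrix m m K)) 0 =
    Matrix.fromBlocks ((v + a • 1) * (w - b • 1)) 0 0 ((v - a • 1) * (w + b • 1)) := by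
  rw [Matrix.fromBlocks_multiply]; simp

lemma VD_cliff (h : IsCliff V) : IsCliff (VD V) := by
  intro X hX Y hY
  obtain ⟨v, hv, a, rfl⟩ := mem_VD.mp hX
  obtain ⟨w, hw, b, rfl⟩ := mem_VD.mp hY
  obtain ⟨c, hc⟩ := h v hv w hw
  refine ⟨c - 2 * (a * b), ?_⟩
  rw [VD_mul, VD_mul, Matrix.fromBlocks_add, ← Matrix.fromBlocks_one, Matrix.fromBlocks_smul,
    sub_smul, ← hc]
  congr 1
  · simp only [add_mul, mul_sub, smul_mul_assoc, mul_smul_comm, one_mul, mul_one]
    module
  · simp
  · simp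
  · simp only [sub_mul, mul_add, smul_mul_assoc, mul_smul_comm, one_mul, mul_one]
    module

/-- The data of an irreducible Clifford space with a vector whose action is generated. -/
structure Du (V : Submodule K (Matrix m m K)) (x y g : Matrix m m K) : Prop where
  D : Dat V x y
  hg : g ∈ V
  gx : g * x + x * g = 0
  gy : g * y + y * g = 0
  gg : g * g = 1

/-- The group. -/
noncomputable abbrev GD (V : Submodule K (Matrix m m K)) (x y : Matrix m m K) :
    Subgroup (Matrix.GeneralLinearGroup (m ⊕ m) K) :=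
  GenG (OH (VD V) (o1 x) (o1 y))

lemma x2' (D : Dat V x y) : o1 x * o1 x = 0 := by rw [o1_mul, D.x2, map_zero]
lemma y2' (D : Dat V x y) : o1 y * o1 y = 0 := by rw [o1_mul, D.y2, map_zero]
lemma xy' (D : Dat V x y) : o1 x * o1 y + o1 y * o1 x = 1 := by
  rw [o1_mul, o1_mul, ← map_add, D.xy, map_one]

lemma EN_le' : EN (V2 V) (bl K m x) (bl K m y) ≤ EN (VD V) (o1 x) (o1 y) := by
  rw [EN, Subgroup.closure_le]
  rintro h ⟨_, ⟨w, hw, rfl⟩, hx, hy, hh⟩
  change bl K m w * bl K m x + bl K m x * bl K m w = 0 at hx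
  change bl K m w * bl K m y + bl K m y * bl K m w = 0 at hy
  rw [← map_mul, ← map_mul, ← map_add] at hx hy
  have hx' : w * x + x * w = 0 := bl_inj (by rw [hx, map_zero])
  have hy' : w * y + y * w = 0 := bl_inj (by rw [hy, map_zero])
  refine Subgroup.subset_closure ⟨o1 w, o1_mem hw, o1_orth hx', o1_orth hy', ?_⟩
  rw [o1_mul, o1_mul, map_mul, map_mul]
  exact hh

lemma OH_le' {Q : Matrix (m ⊕ m) (m ⊕ m) K} (hQ : Q ∈ OH (V2 V) (bl K m x) (bl K m y)) :
    Q ∈ OH (VD V) (o1 x) (o1 y) := by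
  obtain ⟨h, hh, rfl⟩ := hQ
  refine ⟨h, EN_le' hh, ?_⟩
  rw [o1_mul, map_mul]

variable [CharZero K]

lemma hyp (D : Dat V x y) {Q : Matrix (m ⊕ m) (m ⊕ m) K} (hQ : Q ∈ OH (VD V) (o1 x) (o1 y)) :
    Q ∈ HypSet (VD V) :=
  OH_hyp (VD_cliff D.cl) (o1_mem D.hx) (o1_mem D.hy) (x2' D) (y2' D) (xy' D) hQ

lemma idem (D : Dat V x y) {Q : Matrix (m ⊕ m) (m ⊕ m) K} (hQ : Q ∈ OH (VD V) (o1 x) (o1 y)) :
    Q * Q = Q := by
  obtain ⟨a, ha, b, hb, k1, k2, k3, rfl⟩ := hyp D hQ
  exact hyp_idem k1 k3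

lemma EN_le (D : Dat V x y) : EN (VD V) (o1 x) (o1 y) ≤ GD V x y :=
  EN_le_gen (x2' D) (y2' D) (xy' D)

lemma GG_le (D : Dat V x y) : GG V x y ≤ GD V x y :=
  GenG_le (GenG_closed _) fun _ hQ => GenG_cochar (D.idem hQ) (OH_le' hQ)

lemma cen (D : Dat V x y) : GD V x y ≤ UN.W.Cen (UN.W.e1 K m) := by
  apply GenG_le (UN.W.Cen_closed _)
  intro Q hQ
  apply cen_cochar (idem D hQ)
  obtain ⟨X, hX, Y, hY, -, -, -, rfl⟩ := hyp D hQ
  obtain ⟨v, hv, a, rfl⟩ := mem_VD.mp hX
  obtain ⟨w, hw, b, rfl⟩ := mem_VD.mp hY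
  rw [VD_mul, UN.W.e1, Matrix.fromBlocks_multiply, Matrix.fromBlocks_multiply]
  simp

lemma pres_of_gen {l : Type*} [Fintype l] [DecidableEq l] {Λ : Set (Matrix l l K)}
    (hΛ : ∀ P ∈ Λ, P * P = P) {U : Submodule K (l → K)} (hU : IsSub (GenG Λ) U)
    {P : Matrix l l K} (hP : P ∈ Λ) : Pres U P := by
  intro v hv
  obtain ⟨g, hg, hgt⟩ := (GenG_cochar (hΛ P hP) hP).2 2 two_ne_zero
  have h1 := hU g hg v hv
  have e : (g : Matrix l l K) = P + 1 := by
    rw [hgt, two_smul]; abel
  rw [e, Matrix.add_mulVec, Matrix.one_mulVec] at h1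
  have := U.sub_mem h1 hv
  rwa [add_sub_cancel_right] at this

lemma sub_GG (D : Dat V x y) {U : Submodule K (m ⊕ m → K)} (hU : IsSub (GD V x y) U) :
    IsSub (GG V x y) U := fun g hg => hU g (GG_le D hg)

lemma sub1 (D : Dat V x y) : IsSub (GD V x y) (UN.W.W1 K m) :=
  fun _ hg _ hv => UN.W.cen_W1 (cen D hg) hv

lemma sub2 (D : Dat V x y) : IsSub (GD V x y) (UN.W.W2 K m) :=
  fun _ hg _ hv => UN.W.cen_W2 (cen D hg) hv

/-- The action of the vector `g` is generated by the group. -/
def PG (V : Submodule K (Matrix m m K)) (x y g : Matrix m m K) : Prop :=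
  ∀ U : Submodule K (m ⊕ m → K), IsSub (GG V x y) U → Pres U (bl K m g)

lemma presE (D : Du V x y g) (hp : PG V x y g) {U : Submodule K (m ⊕ m → K)}
    (hU : IsSub (GD V x y) U) : Pres U (UN.W.e1 K m) := by
  obtain ⟨p1, p2, p3, p4⟩ := Pres_cliff (x2' D.D) (y2' D.D) (xy' D.D)
    (fun P hP => pres_of_gen (fun Q hQ => idem D.D hQ) hU hP)
  have a1 := p3 _ (o1_mem D.hg) (o1_orth D.gx) (o1_orth D.gy)
  have a2 := p3 _ (oe_mem (V := V)) (oe_orth x) (oe_orth y)
  have a3 := p4 _ _ (o1_orth D.gx) (o1_orth D.gy) a1.1 a1.2 a2.1 a2.2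
  have a4 := Pres.mul a3 (hp U (sub_GG D.D hU))
  have e : UN.W.e1 K m = (2 : K)⁻¹ • (1 - o1 g * oe K m * bl K m g) := by
    rw [o1_oe, bl_apply, Matrix.fromBlocks_multiply, ← Matrix.fromBlocks_one,
      sub_eq_add_neg, Matrix.fromBlocks_neg, Matrix.fromBlocks_add, Matrix.fromBlocks_smul,
      UN.W.e1]
    simp only [neg_mul, D.gg, Matrix.mul_zero, Matrix.zero_mul, add_zero, zero_add, neg_zero,
      neg_neg, neg_add_cancel, add_neg_cancel, smul_zero, mul_zero, zero_mul]
    congr 1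
    rw [← two_smul K (1 : Matrix m m K), smul_smul, inv_mul_cancel₀ (two_ne_zero), one_smul]
  rw [e]
  exact Pres_smul _ (Pres.sub Pres_one a4)

lemma cases4 (D : Du V x y g) (hp : PG V x y g) {U : Submodule K (m ⊕ m → K)}
    (hU : IsSub (GD V x y) U) : U = ⊥ ∨ U = UN.W.W1 K m ∨ U = UN.W.W2 K m ∨ U = ⊤ := by
  have hE := presE D hp hU
  have hdec : U = (U ⊓ UN.W.W1 K m) ⊔ (U ⊓ UN.W.W2 K m) := by
    apply le_antisymm
    · intro v hv
      have h1 := hE v hv
      rw [Submodule.mem_sup]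
      refine ⟨_, ⟨h1, ?_⟩, v - (UN.W.e1 K m).mulVec v, ⟨U.sub_mem hv h1, ?_⟩, by abel⟩
      · change (UN.W.e1 K m).mulVec v ∈ UN.W.W1 K m
        rw [UN.W.mem_W1, Matrix.mulVec_mulVec]
        congr 1
        rw [UN.W.e1, Matrix.fromBlocks_multiply]; simp
      · change v - (UN.W.e1 K m).mulVec v ∈ UN.W.W2 K m
        rw [UN.W.mem_W2, Matrix.mulVec_sub, Matrix.mulVec_mulVec]
        have e : UN.W.e1 K m * UN.W.e1 K m = UN.W.e1 K m := by
          rw [UN.W.e1, Matrix.fromBlocks_multiply]; simp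
        rw [e, sub_self]
    · exact sup_le inf_le_left inf_le_left
  have hG := sub_GG D.D hU
  have hc := UN.W.compl_W (K := K) (ι := m)
  rcases D.D.irr1 (sub_inf hG D.D.sub1) inf_le_right with h1 | h1 <;>
    rcases D.D.irr2 (sub_inf hG D.D.sub2) inf_le_right with h2 | h2
  · left
    rw [hdec, h1, h2, sup_bot_eq]
  · right; right; left
    rw [hdec, h1, h2, bot_sup_eq]
  · right; left
    rw [hdec, h1, h2, sup_bot_eq]
  · right; right; right
    rw [hdec, h1, h2, hc.sup_eq_top]

theorem red (D : Du V x y g) (hp : PG V x y g) : IsReductiveRep (GD V x y) := by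
  have hc := UN.W.compl_W (K := K) (ι := m)
  intro U hU
  rcases cases4 D hp hU with rfl | rfl | rfl | rfl
  · exact ⟨⊤, fun _ _ _ _ => trivial, isCompl_bot_top⟩
  · exact ⟨UN.W.W2 K m, sub2 D.D, hc⟩
  · exact ⟨UN.W.W1 K m, sub1 D.D, hc.symm⟩
  · refine ⟨⊥, ?_, isCompl_top_bot⟩
    intro g _ v hv
    rw [Submodule.mem_bot] at hv ⊢
    rw [hv, Matrix.mulVec_zero]

lemma W1_ne [Nonempty m] : UN.W.W1 K m ≠ ⊥ := by
  rw [← UN.W.range_i1]
  intro h
  rw [LinearMap.range_eq_bot] at h
  have := LinearMap.congr_fun h (fun _ => 1)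
  have h2 := congrFun this (Sum.inl (Classical.arbitrary m))
  exact one_ne_zero h2

lemma W2_ne [Nonempty m] : UN.W.W2 K m ≠ ⊥ := by
  rw [← UN.W.range_i2]
  intro h
  rw [LinearMap.range_eq_bot] at h
  have := LinearMap.congr_fun h (fun _ => 1)
  have h2 := congrFun this (Sum.inr (Classical.arbitrary m))
  exact one_ne_zero h2

lemma irr_cases [Nonempty m] (D : Du V x y g) (hp : PG V x y g)
    {W : Submodule K (m ⊕ m → K)} (hW : IsIrrSub (GD V x y) W) :
    W = UN.W.W1 K m ∨ W = UN.W.W2 K m := by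
  have hc := UN.W.compl_W (K := K) (ι := m)
  rcases cases4 D hp hW.sub with h | h | h | h
  · exact absurd h hW.ne
  · exact Or.inl h
  · exact Or.inr h
  · exfalso
    rcases hW.irr (UN.W.W1 K m) (by rw [h]; exact le_top) (sub1 D.D) with h1 | h1
    · exact W1_ne h1
    · rw [h1, h] at hc
      have := hc.inf_eq_bot
      rw [top_inf_eq] at this
      exact W2_ne this

lemma finrank_W [Nonempty m] (D : Du V x y g) (hp : PG V x y g)
    {W : Submodule K (m ⊕ m → K)} (hW : IsIrrSub (GD V x y) W) :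
    finrank K W = Fintype.card m := by
  rcases irr_cases D hp hW with h | h
  · rw [h, ← UN.W.range_i1, LinearMap.finrank_range_of_inj UN.W.i1_inj,
      Module.finrank_fintype_fun_eq_card]
  · rw [h, ← UN.W.range_i2, LinearMap.finrank_range_of_inj UN.W.i2_inj,
      Module.finrank_fintype_fun_eq_card]

lemma first_block {φ : Matrix m m K →ₗ[K] K}
    (hφ : ∀ v ∈ V, ∀ w ∈ V, ∀ a b : K, φ ((v + a • 1) * (w - b • 1)) = 0)
    {X : Matrix (m ⊕ m) (m ⊕ m) K} (hX : X ∈ VD V * VD V) : φ X.toBlocks₁₁ = 0 := by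
  induction hX using Submodule.mul_induction_on' with
  | mem_mul_mem X hX Y hY =>
    obtain ⟨v, hv, a, rfl⟩ := mem_VD.mp hX
    obtain ⟨w, hw, b, rfl⟩ := mem_VD.mp hY
    rw [VD_mul, Matrix.toBlocks_fromBlocks₁₁]
    exact hφ v hv w hw a b
  | add X _ Y _ h1 h2 =>
    have e : (X + Y).toBlocks₁₁ = X.toBlocks₁₁ + Y.toBlocks₁₁ := rfl
    rw [e, map_add, h1, h2, add_zero]

theorem not_contains [IsAlgClosed K] [Nonempty m] (D : Dat V x y) {J N : Matrix m m K}
    (h1 : N * N = 0) (h2 : x * y * N = N) (h3 : N * (x * y) = 0)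
    (h4 : N.transpose * J + J * N = 0) {φ : Matrix m m K →ₗ[K] K}
    (hφ : ∀ v ∈ V, ∀ w ∈ V, ∀ a b : K, φ ((v + a • 1) * (w - b • 1)) = 0) (h5 : φ N ≠ 0) :
    ¬ ContainsDer (J2 J) (GD V x y) := by
  intro hC
  have hNN : bl K m N * bl K m N = 0 := by rw [← map_mul, h1, map_zero]
  let t : Matrix.GeneralLinearGroup (m ⊕ m) K :=
    ⟨1 + bl K m N, 1 - bl K m N, one_add_mul hNN, one_sub_mul hNN⟩
  have h4' : N.transpose * J.transpose + J.transpose * N = 0 := by
    have := congrArg Matrix.transpose h4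
    rw [Matrix.transpose_add, Matrix.transpose_mul, Matrix.transpose_mul,
      Matrix.transpose_transpose, Matrix.transpose_zero, add_comm] at this
    exact this
  have hsp : (bl K m N).transpose * J2 J + J2 J * bl K m N = 0 := by
    rw [bl_apply, J2, Matrix.fromBlocks_transpose, Matrix.fromBlocks_multiply,
      Matrix.fromBlocks_multiply, Matrix.fromBlocks_add, ← Matrix.fromBlocks_zero]
    congr 1
    · simp
    · simpa using h4
    · have e : N.transpose * -J.transpose + -J.transpose * N = 0 := by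
        rw [mul_neg, neg_mul, ← neg_add, h4', neg_zero]
      simpa using e
    · simp
  have hmem : t ∈ GD V x y := by
    apply hC t (isom_one_add hNN hsp)
    · intro T hT
      change T * (1 + bl K m N) = (1 + bl K m N) * T
      rw [mul_add, add_mul, mul_one, one_mul, D.comm (fun h hh => hT h (GG_le D hh))]
    · intro W _ h
      apply det_unip
      apply LinearMap.ext
      rintro ⟨v, hv⟩
      apply Subtype.ext
      change (1 + bl K m N).mulVec ((1 + bl K m N).mulVec v - v) -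
        ((1 + bl K m N).mulVec v - v) = 0
      have e1 : (1 + bl K m N).mulVec v - v = (bl K m N).mulVec v := by
        rw [Matrix.add_mulVec, Matrix.one_mulVec, add_sub_cancel_left]
      rw [e1, Matrix.add_mulVec, Matrix.one_mulVec, Matrix.mulVec_mulVec, hNN,
        Matrix.zero_mulVec, add_zero, sub_self]
  have hG : GD V x y ≤ Nrm (VD V * VD V) :=
    GenG_le (Nrm_closed _) fun Q hQ => hyp_nrm (VD_cliff D.cl) (hyp D hQ)
  have hxy : o1 x * o1 y ∈ VD V * VD V := Submodule.mul_mem_mul (o1_mem D.hx) (o1_mem D.hy)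
  have h6 := hG hmem (o1 x * o1 y) hxy
  change (1 + bl K m N) * (o1 x * o1 y) * (1 - bl K m N) ∈ VD V * VD V at h6
  have e : (1 + bl K m N) * (o1 x * o1 y) * (1 - bl K m N) =
      o1 x * o1 y - bl K m N := by
    rw [o1_mul]
    have e1 : bl K m (x * y) * bl K m N = bl K m N := by rw [← map_mul, h2]
    have e2 : bl K m N * bl K m (x * y) = 0 := by rw [← map_mul, h3, map_zero]
    rw [add_mul, e2, one_mul, add_zero, mul_sub, mul_one, e1]
  rw [e] at h6
  have h7 : bl K m N ∈ VD V * VD V := by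
    have := Submodule.sub_mem _ hxy h6
    rwa [sub_sub_cancel] at this
  apply h5
  have h8 := first_block hφ h7
  rw [bl_apply, Matrix.toBlocks_fromBlocks₁₁] at h8
  exact h8

/-- The form. -/
lemma form_VD {J : Matrix m m K} {s : K} (hs : J.transpose = s • J) (hss : s * s = 1)
    (hv : ∀ v ∈ V, v.transpose * J = J * v) {X : Matrix (m ⊕ m) (m ⊕ m) K} (hX : X ∈ VD V) :
    X.transpose * J2 J = (-s) • (J2 J * X) := by
  obtain ⟨v, hv', a, rfl⟩ := mem_VD.mp hX
  have h1 := hv v hv'
  rw [J2, Matrix.fromBlocks_transpose, Matrix.fromBlocks_multiply, Matrix.fromBlocks_multiply,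
    Matrix.fromBlocks_smul, hs]
  simp only [Matrix.transpose_add, Matrix.transpose_sub, Matrix.transpose_smul,
    Matrix.transpose_one, Matrix.transpose_zero, Matrix.mul_zero, Matrix.zero_mul, add_zero,
    zero_add, smul_zero]
  congr 1
  · rw [mul_neg, mul_smul_comm, sub_mul, h1, mul_sub, smul_mul_assoc, one_mul, mul_smul_comm,
      mul_one, neg_smul]
  · rw [add_mul, h1, neg_mul, smul_neg, neg_smul, neg_neg, smul_mul_assoc a, one_mul,
      smul_mul_assoc s, smul_smul, hss, one_smul, mul_add, mul_smul_comm, mul_one]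

lemma x_ne [Nonempty m] (D : Dat V x y) : x ≠ 0 := by
  intro h
  have := D.xy
  rw [h, zero_mul, mul_zero, add_zero] at this
  exact zero_ne_one this

/-- A bilinear form on the spinors with the right multipliers is a multiple of `J`. -/
lemma form_unique [IsAlgClosed K] [Nonempty m] (D : Dat V x y) {J C : Matrix m m K}
    (hJ : J.det ≠ 0) (hv : ∀ v ∈ V, v.transpose * J = J * v)
    (hC : ∀ P ∈ OH V x y, (1 - (2 : K) • P).transpose * C * (1 - (2 : K) • P) = -C) :
    ∃ c : K, C = c • J := by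
  have hu : IsUnit J.det := isUnit_iff_ne_zero.mpr hJ
  have hJi : J⁻¹ * J = 1 := Matrix.nonsing_inv_mul _ hu
  have hJi' : J * J⁻¹ = 1 := Matrix.mul_nonsing_inv _ hu
  obtain ⟨c, hc⟩ := D.schur (A := J⁻¹ * C) (by
    intro P hP
    have hPh : P ∈ HypSet V := OH_hyp D.cl D.hx D.hy D.x2 D.y2 D.xy hP
    have hlag : P ∈ LagSet J := hyp_lag (e := 1) (mul_one 1)
      (fun v hv' => by rw [one_smul, hv v hv']) hPh
    obtain ⟨hPP, hPJ⟩ := hlag
    have h1 := hC P hP
    have e1 : (1 - (2 : K) • P).transpose * C * (1 - (2 : K) • P) =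
        C - (2 : K) • (P.transpose * C) - (2 : K) • (C * P) +
          (4 : K) • (P.transpose * C * P) := by
      rw [Matrix.transpose_sub, Matrix.transpose_one, Matrix.transpose_smul]
      simp only [sub_mul, mul_sub, one_mul, mul_one, smul_mul_assoc, mul_smul_comm]
      module
    rw [e1] at h1
    have hPt : P.transpose * P.transpose = P.transpose := by
      rw [← Matrix.transpose_mul, hPP]
    have h2 : P.transpose * C * P = 0 := by
      have h3 := congrArg (fun Z => P.transpose * Z * P) h1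
      simp only [mul_add, add_mul, mul_sub, sub_mul, mul_smul_comm, smul_mul_assoc, mul_neg,
        neg_mul] at h3
      have a1 : P.transpose * (P.transpose * C) * P = P.transpose * C * P := by
        rw [← mul_assoc, hPt]
      have a2 : P.transpose * (C * P) * P = P.transpose * C * P := by
        rw [← mul_assoc, mul_assoc _ P, hPP]
      have a3 : P.transpose * (P.transpose * C * P) * P = P.transpose * C * P := by
        rw [← mul_assoc, ← mul_assoc, hPt, mul_assoc _ P, hPP]
      rw [a1, a2, a3] at h3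
      have h4 : (2 : K) • (P.transpose * C * P) = 0 := by
        have h5 : P.transpose * C * P - (2 : K) • (P.transpose * C * P) -
          (2 : K) • (P.transpose * C * P) + (4 : K) • (P.transpose * C * P) +
          P.transpose * C * P = 0 := by rw [h3]; abel
        rw [← h5]
        module
      exact (smul_eq_zero.mp h4).resolve_left two_ne_zero
    rw [h2, smul_zero, add_zero] at h1
    have h6 : C = P.transpose * C + C * P := by
      have h7 : (2 : K) • (C - (P.transpose * C + C * P)) = 0 := by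
        have h8 : C - (2 : K) • (P.transpose * C) - (2 : K) • (C * P) + C = 0 := by
          rw [h1]; abel
        rw [← h8]
        module
      have h9 := (smul_eq_zero.mp h7).resolve_left two_ne_zero
      exact sub_eq_zero.mp h9
    -- `J⁻¹ C` commutes with `P`
    have h10 : J⁻¹ * P.transpose = (1 - P) * J⁻¹ := by
      have h11 : P.transpose * J = J - J * P := eq_sub_of_add_eq hPJ
      calc J⁻¹ * P.transpose = J⁻¹ * (P.transpose * J) * J⁻¹ := by
            rw [mul_assoc, mul_assoc, hJi', mul_one]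
        _ = (J⁻¹ * J - J⁻¹ * J * P) * J⁻¹ := by
            rw [h11, mul_sub, mul_assoc J⁻¹ J P]
        _ = _ := by rw [hJi, one_mul]
    have h12 : C * P = C - P.transpose * C := by
      rw [eq_sub_iff_add_eq, add_comm]; exact h6.symm
    calc J⁻¹ * C * P = J⁻¹ * (C * P) := mul_assoc _ _ _
      _ = J⁻¹ * C - J⁻¹ * P.transpose * C := by rw [h12, mul_sub, mul_assoc J⁻¹]
      _ = P * (J⁻¹ * C) := by
          rw [h10, sub_mul, sub_mul, one_mul, sub_sub_cancel, mul_assoc])
  refine ⟨c, ?_⟩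
  calc C = J * (J⁻¹ * C) := by rw [← mul_assoc, hJi', one_mul]
    _ = c • J := by rw [hc, mul_smul_comm, mul_one]

lemma form_zero [IsAlgClosed K] [Nonempty m] (D : Dat V x y) {J C : Matrix m m K}
    (hJ : J.det ≠ 0) (hv : ∀ v ∈ V, v.transpose * J = J * v)
    (hC : ∀ P ∈ OH V x y, (1 - (2 : K) • P).transpose * C * (1 - (2 : K) • P) = -C)
    {σ : K} (hσ : σ ≠ 0)
    (hx : (1 + σ • x).transpose * C * (1 + σ • x) = C) : C = 0 := by
  obtain ⟨c, rfl⟩ := form_unique D hJ hv hC
  have h1 := hv x D.hx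
  have e : (1 + σ • x).transpose * (c • J) * (1 + σ • x) =
      c • J + (2 * σ * c) • (J * x) + (σ * σ * c) • (J * (x * x)) := by
    rw [Matrix.transpose_add, Matrix.transpose_one, Matrix.transpose_smul]
    simp only [add_mul, mul_add, one_mul, mul_one, smul_mul_assoc, mul_smul_comm, h1, mul_assoc]
    module
  rw [e, D.x2, mul_zero, smul_zero, add_zero, add_eq_left] at hx
  have hu : IsUnit J.det := isUnit_iff_ne_zero.mpr hJ
  have hJx : J * x ≠ 0 := by
    intro h0
    apply x_ne D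
    rw [← one_mul x, ← Matrix.nonsing_inv_mul _ hu, mul_assoc, h0, mul_zero]
  have h2 := (smul_eq_zero.mp hx).resolve_right hJx
  have h3 : c = 0 := by
    rcases mul_eq_zero.mp h2 with h | h
    · rcases mul_eq_zero.mp h with h | h
      · exact absurd h two_ne_zero
      · exact absurd h hσ
    · exact h
  rw [h3, zero_smul]

lemma mat_eq {l : Type*} [Fintype l] [DecidableEq l] {A B : Matrix l l K}
    (h : ∀ u v : l → K, u ⬝ᵥ A.mulVec v = u ⬝ᵥ B.mulVec v) : A = B := by
  ext i j
  have := h (Pi.single i 1) (Pi.single j 1)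
  simpa using this

lemma mat_form {l : Type*} [Fintype l] [DecidableEq l] (A C : Matrix l l K) (u v : l → K) :
    u ⬝ᵥ (A.transpose * C * A).mulVec v = (A.mulVec u) ⬝ᵥ C.mulVec (A.mulVec v) := by
  rw [← Matrix.mulVec_mulVec, ← Matrix.mulVec_mulVec, Matrix.mulVec_transpose,
    dotProduct_comm (A.mulVec u), Matrix.dotProduct_mulVec _ A, dotProduct_comm]

lemma lag_OH (D : Dat V x y) {J : Matrix m m K} {s : K} (hs : J.transpose = s • J)
    (hss : s * s = 1) (hv : ∀ v ∈ V, v.transpose * J = J * v)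
    {Q : Matrix (m ⊕ m) (m ⊕ m) K} (hQ : Q ∈ OH (VD V) (o1 x) (o1 y)) : Q ∈ LagSet (J2 J) :=
  hyp_lag (e := -s) (by rw [neg_mul_neg, hss]) (fun X hX => form_VD hs hss hv hX) (hyp D hQ)

theorem sign_zero [IsAlgClosed K] [Nonempty m] (D : Du V x y g) (hp : PG V x y g)
    {J : Matrix m m K} (hJ : J.det ≠ 0) {s : K} (hs : J.transpose = s • J) (hss : s * s = 1)
    (hv : ∀ v ∈ V, v.transpose * J = J * v) {W : Submodule K (m ⊕ m → K)}
    (hW : IsIrrSub (GD V x y) W) : HasSign (J2 J) (GD V x y) W 0 := by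
  refine Or.inl ⟨rfl, ?_⟩
  rintro B ⟨⟨v0, hv0, w0, hw0, hne⟩, hB⟩
  have hz : o1 x * oe K m * (o1 x * oe K m) = 0 := eich_sq (x2' D.D) (oe_orth x)
  have key : ∀ (I : (m → K) →ₗ[K] (m ⊕ m → K)) (σ : K), σ ≠ 0 → LinearMap.range I = W →
      (∀ A v, (bl K m A).mulVec (I v) = I (A.mulVec v)) →
      (∀ v, (1 + o1 x * oe K m).mulVec (I v) = I ((1 + σ • x).mulVec v)) → False := by
    intro I σ hσ hIW hbl hx1
    have hmem : ∀ v, I v ∈ W := fun v => by rw [← hIW]; exact ⟨v, rfl⟩
    set M : Matrix (m ⊕ m) m K := LinearMap.toMatrix' I with hM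
    have hMv : ∀ v, M.mulVec v = I v := fun v => by
      rw [hM, ← Matrix.toLin'_apply, Matrix.toLin'_toMatrix']
    have hb : ∀ u v, u ⬝ᵥ (M.transpose * B * M).mulVec v = I u ⬝ᵥ B.mulVec (I v) := by
      intro v w
      rw [← Matrix.mulVec_mulVec, ← Matrix.mulVec_mulVec, Matrix.mulVec_transpose, hMv,
        dotProduct_comm, ← Matrix.dotProduct_mulVec, hMv, dotProduct_comm]
    have h0 : M.transpose * B * M = 0 := by
      refine form_zero D.D hJ hv ?_ hσ ?_
      · intro P hP
        have hQ := OH_le' (OH_map hP)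
        obtain ⟨h, hh, hht⟩ := (GenG_cochar (idem D.D hQ) hQ).2 (-1)
          (neg_ne_zero.mpr one_ne_zero)
        obtain ⟨hQQ, hQJ⟩ := lag_OH D.D hs hss hv hQ
        have h1 := torus_sim hQQ hQJ (-1)
        rw [← hht] at h1
        have h2 : (h : Matrix (m ⊕ m) (m ⊕ m) K) = bl K m (1 - (2 : K) • P) := by
          rw [hht, map_sub, map_one, map_smul]
          module
        apply mat_eq
        intro u v
        rw [mat_form, hb, ← hbl, ← hbl, ← h2, hB h hh _ h1 _ (hmem u) _ (hmem v), ← hb,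
          Matrix.neg_mulVec, dotProduct_neg, neg_one_mul]
      · obtain ⟨h, hh⟩ := unip_ex hz
        have hhE : h ∈ GD V x y := EN_le D.D (Subgroup.subset_closure
          ⟨oe K m, oe_mem, oe_orth x, oe_orth y, Or.inl hh⟩)
        have hsim : (h : Matrix (m ⊕ m) (m ⊕ m) K).transpose * J2 J * h = (1 : K) • J2 J := by
          rw [hh, one_smul]
          apply isom_one_add hz
          have e1 := form_VD hs hss hv (o1_mem D.D.hx)
          have e2 := form_VD hs hss hv (oe_mem (V := V))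
          rw [Matrix.transpose_mul, mul_assoc, e1, mul_smul_comm, ← mul_assoc, e2,
            smul_mul_assoc, smul_smul, neg_mul_neg, hss, one_smul, mul_assoc, ← mul_add,
            oe_orth, mul_zero]
        apply mat_eq
        intro u v
        rw [mat_form, hb, ← hx1, ← hx1, ← hh, hB h hhE 1 hsim _ (hmem u) _ (hmem v), ← hb,
          one_mul]
    apply hne
    rw [← hIW] at hv0 hw0
    obtain ⟨u, rfl⟩ := hv0
    obtain ⟨v, rfl⟩ := hw0
    rw [← hb, h0, Matrix.zero_mulVec, dotProduct_zero]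
  have hu : (1 : Matrix (m ⊕ m) (m ⊕ m) K) + o1 x * oe K m =
      Matrix.fromBlocks (1 + (-1 : K) • x) 0 0 (1 + (1 : K) • x) := by
    rw [o1_oe, ← Matrix.fromBlocks_one, Matrix.fromBlocks_add]
    simp
  rcases irr_cases D hp hW with h | h
  · refine key (UN.W.i1 K m) (-1) (neg_ne_zero.mpr one_ne_zero) (by rw [h, UN.W.range_i1])
      (fun A v => ?_) (fun v => ?_)
    · rw [bl_apply, UN.W.blk_i1]
    · rw [hu, UN.W.blk_i1]
  · refine key (UN.W.i2 K m) 1 one_ne_zero (by rw [h, UN.W.range_i2])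
      (fun A v => ?_) (fun v => ?_)
    · rw [bl_apply, UN.W.blk_i2]
    · rw [hu, UN.W.blk_i2]

end gen

/-- The example. -/
theorem ex3_du {K : Type*} [Field K] [IsAlgClosed K] [CharZero K] {m : Type} [Fintype m]
    [DecidableEq m] [Nonempty m] {V : Submodule K (Matrix m m K)} {x y g : Matrix m m K}
    (D : Du V x y g) (hp : PG V x y g) {J N : Matrix m m K} (hJ : J.det ≠ 0) {s : K}
    (hs : J.transpose = s • J) (hss : s * s = 1) (hv : ∀ v ∈ V, v.transpose * J = J * v)
    (h1 : N * N = 0) (h2 : x * y * N = N) (h3 : N * (x * y) = 0)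
    (h4 : N.transpose * J + J * N = 0) {φ : Matrix m m K →ₗ[K] K}
    (hφ : ∀ v ∈ V, ∀ w ∈ V, ∀ a b : K, φ ((v + a • 1) * (w - b • 1)) = 0) (h5 : φ N ≠ 0)
    {d : ℕ} (hd : Fintype.card m = d) : HasEx3 K d 0 := by
  refine ⟨m ⊕ m, inferInstance, inferInstance, J2 J, GD V x y, o1 x * o1 y, ?_, red D hp, ?_,
    fun W hW => ⟨by rw [finrank_W D hp hW, hd], sign_zero D hp hJ hs hss hv hW⟩,
    not_contains D.D h1 h2 h3 h4 hφ h5⟩
  · exact strong_of_orbit_self (J2_t J) (J2_det hJ) _ _
      (fun P hP => lag_OH D.D hs hss hv hP) (EN_le D.D)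
  · obtain ⟨h, hh, hhp⟩ := RRS.so_mem (o1_mem D.hg) (x2' D.D) (y2' D.D) (xy' D.D)
      (o1_orth D.gx) (o1_orth D.gy) (by rw [o1_mul, D.gg, map_one])
    exact ⟨h, EN_le D.D hh, hhp⟩

section spin
variable {K : Type*} [Field K] {k : ℕ}

lemma Pres_TnB {n : ℕ} {U : Submodule K (Sx n ⊕ Sx n → K)}
    (A : Fin n → Matrix (Fin 2) (Fin 2) K) (h : ∀ j, Pres U (bl K (Sx n) (loc j (A j)))) :
    Pres U (bl K (Sx n) (Tn A)) := by
  have key : ∀ s : Finset (Fin n), Pres U (bl K (Sx n) (Tn (fun i => if i ∈ s then A i else 1)))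
      := by
    intro s
    induction s using Finset.induction_on with
    | empty =>
      have : Tn (fun i : Fin n => if i ∈ (∅ : Finset (Fin n)) then A i else 1) = 1 := by
        rw [← Tn_one]; simp
      rw [this, map_one]; exact Pres_one
    | insert a s ha ih =>
      have e : Tn (fun i => if i ∈ insert a s then A i else 1) =
          loc a (A a) * Tn (fun i => if i ∈ s then A i else 1) := by
        rw [loc, Tn_mul]
        congr 1
        funext i
        by_cases hi : i = a
        · subst hi; simp [ha]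
        · simp [hi]
      rw [e, map_mul]
      exact Pres.mul (h a) ih
  have := key Finset.univ
  simpa using this

lemma pg_spin [CharZero K] : PG (VS K (k + 2)) (x0 K k) (y0 K k) (g0 K (k + 2)) := by
  intro U hU
  have D := dat (K := K) (k := k)
  obtain ⟨p1, p2, p3, p4⟩ := Pres_cliff (V := V2 (VS K (k + 2)))
    (x := bl K _ (x0 K k)) (y := bl K _ (y0 K k)) (by rw [← map_mul, D.x2, map_zero])
    (by rw [← map_mul, D.y2, map_zero])
    (by rw [← map_mul, ← map_mul, ← map_add, D.xy, map_one])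
    (fun P hP => pres_of_gen (fun Q hQ => D.idem hQ) hU hP)
  have orth : ∀ {v w : Matrix (Sx (k + 2)) (Sx (k + 2)) K}, v * w + w * v = 0 →
      bl K _ v * bl K _ w + bl K _ w * bl K _ v = 0 := by
    intro v w h
    rw [← map_mul, ← map_mul, ← map_add, h, map_zero]
  have d : ∀ j : Fin (k + 2), Pres U (bl K _ (loc j (cm K * am K))) ∧
      Pres U (bl K _ (loc j (am K * cm K))) := by
    intro j
    by_cases hj : j = 0
    · subst hj
      rw [← map_mul, jw_mul_same] at p1 p2
      exact ⟨p1, p2⟩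
    · have q : ∀ B ∈ AC K, Pres U (bl K _ (x0 K k) * bl K _ (jw j B)) ∧
          Pres U (bl K _ (y0 K k) * bl K _ (jw j B)) := fun B hB =>
        p3 _ (mem_V2 (jw_mem j hB)) (orth (jw_orth hj hB mem_cm)) (orth (jw_orth hj hB mem_am))
      have a1 := p4 _ _ (orth (jw_orth hj mem_cm mem_cm)) (orth (jw_orth hj mem_cm mem_am))
        (q _ mem_cm).1 (q _ mem_cm).2 (q _ mem_am).1 (q _ mem_am).2
      have a2 := p4 _ _ (orth (jw_orth hj mem_am mem_cm)) (orth (jw_orth hj mem_am mem_am))
        (q _ mem_am).1 (q _ mem_am).2 (q _ mem_cm).1 (q _ mem_cm).2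
      rw [← map_mul, jw_mul_same] at a1 a2
      exact ⟨a1, a2⟩
  rw [g0]
  apply Pres_TnB
  intro j
  rw [Zm_eq, loc_sub, map_sub]
  exact Pres.sub (d j).2 (d j).1

lemma dist_pq (hk : 1 ≤ k) : 2 < hammingDist (pc k) (qa k) := by
  rw [hammingDist, Finset.two_lt_card]
  refine ⟨⟨0, by omega⟩, ?_, ⟨1, by omega⟩, ?_, ⟨2, by omega⟩, ?_, ?_, ?_, ?_⟩
  all_goals simp [pc, qa]

lemma triple_entry (hk : 1 ≤ k) : (x0 K k * z1 K k * z2 K hk) (pc k) (qa k) = 1 := by
  rw [x0_z1, z2, jw, Tn_mul]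
  refine Finset.prod_eq_one fun i _ => ?_
  have hq : qa k i = 0 := rfl
  by_cases h3 : i.val < 3
  · have hp : pc k i = 1 := if_pos h3
    by_cases h2 : i = ⟨2, by omega⟩
    · have hB : Bf k (cm K) i = 1 := if_neg (by
        rintro (h | h)
        · exact (two_ne hk).1 (h2.symm.trans h)
        · exact (two_ne hk).2 (h2.symm.trans h))
      have hL : ¬ i < ⟨2, by omega⟩ := by rw [h2]; exact lt_irrefl _
      change (Bf k (cm K) i * (if i < ⟨2, by omega⟩ then Zm K else
        if i = ⟨2, by omega⟩ then cm K else 1)) (pc k i) (qa k i) = 1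
      rw [hp, hq, hB, if_neg hL, if_pos h2, one_mul]
      simp [cm]
    · have hv : i.val ≠ 2 := fun h => h2 (Fin.ext h)
      have hL : i < ⟨2, by omega⟩ := by
        rw [Fin.lt_def]
        change i.val < 2
        omega
      have hB : Bf k (cm K) i = cm K := if_pos (by
        rcases Nat.lt_or_ge i.val 1 with h | h
        · left
          apply Fin.ext
          change i.val = 0
          omega
        · right
          apply Fin.ext
          rw [Fin.val_one]
          omega)
      change (Bf k (cm K) i * (if i < ⟨2, by omega⟩ then Zm K else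
        if i = ⟨2, by omega⟩ then cm K else 1)) (pc k i) (qa k i) = 1
      rw [hp, hq, hB, if_pos hL]
      simp [cm, Zm, Matrix.mul_apply, Fin.sum_univ_two]
  · have hp : pc k i = 0 := if_neg h3
    have hL : ¬ i < ⟨2, by omega⟩ := by
      rw [Fin.lt_def]
      change ¬ i.val < 2
      omega
    have h2 : i ≠ ⟨2, by omega⟩ := by
      intro h
      apply h3
      rw [h]
      exact Nat.lt_succ_self 2
    have hB : Bf k (cm K) i = 1 := if_neg (by
      rintro (h | h)
      · rw [h] at h3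
        simp at h3
      · rw [h] at h3
        simp at h3)
    change (Bf k (cm K) i * (if i < ⟨2, by omega⟩ then Zm K else
      if i = ⟨2, by omega⟩ then cm K else 1)) (pc k i) (qa k i) = 1
    rw [hp, hq, hB, if_neg hL, if_neg h2, one_mul]
    simp

/-- The product of three creation vectors. -/
theorem triple (hk : 1 ≤ k) (h : Even k) : ∃ N : Matrix (Sx (k + 2)) (Sx (k + 2)) K,
    N * N = 0 ∧ x0 K k * y0 K k * N = N ∧ N * (x0 K k * y0 K k) = 0 ∧
    N.transpose * JS K (k + 2) + JS K (k + 2) * N = 0 ∧ N (pc k) (qa k) = 1 := by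
  have he : (-1 : K) ^ (k + 2) = 1 := (h.add even_two).neg_one_pow
  have hJ : ∀ v ∈ VS K (k + 2), v.transpose * JS K (k + 2) = JS K (k + 2) * v := by
    intro v hv
    rw [JS_VS v hv, he, one_smul]
  have a0 := hJ _ (jw_mem (0 : Fin (k + 2)) mem_cm)
  have a1 := hJ _ (jw_mem (1 : Fin (k + 2)) mem_cm)
  have a2 := hJ _ (jw_mem (⟨2, by omega⟩ : Fin (k + 2)) mem_cm)
  have c10 : z1 K k * x0 K k = -(x0 K k * z1 K k) := jw_anti' one_ne mem_cm mem_cm
  have c20 : z2 K hk * x0 K k = -(x0 K k * z2 K hk) := jw_anti' (two_ne hk).1 mem_cm mem_cm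
  have c21 : z2 K hk * z1 K k = -(z1 K k * z2 K hk) := jw_anti' (two_ne hk).2 mem_cm mem_cm
  have cM : z1 K k * z2 K hk * x0 K k = x0 K k * (z1 K k * z2 K hk) := by
    rw [mul_assoc, c20, mul_neg, ← mul_assoc, c10, neg_mul, neg_neg, mul_assoc]
  refine ⟨x0 K k * z1 K k * z2 K hk, ?_, ?_, ?_, ?_, triple_entry hk⟩
  · calc x0 K k * z1 K k * z2 K hk * (x0 K k * z1 K k * z2 K hk)
        = x0 K k * (z1 K k * z2 K hk * x0 K k) * (z1 K k * z2 K hk) := by
          simp only [mul_assoc]
      _ = x0 K k * x0 K k * (z1 K k * z2 K hk) * (z1 K k * z2 K hk) := by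
          rw [cM]; simp only [mul_assoc]
      _ = 0 := by rw [x0_sq]; simp
  · calc x0 K k * y0 K k * (x0 K k * z1 K k * z2 K hk)
        = x0 K k * y0 K k * x0 K k * z1 K k * z2 K hk := by simp only [mul_assoc]
      _ = _ := by rw [xyx x0_sq x0_y0]
  · calc x0 K k * z1 K k * z2 K hk * (x0 K k * y0 K k)
        = x0 K k * (z1 K k * z2 K hk * x0 K k) * y0 K k := by simp only [mul_assoc]
      _ = x0 K k * x0 K k * (z1 K k * z2 K hk) * y0 K k := by
          rw [cM]; simp only [mul_assoc]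
      _ = 0 := by rw [x0_sq]; simp
  · rw [Matrix.transpose_mul, Matrix.transpose_mul]
    have e1 : (z2 K hk).transpose * ((z1 K k).transpose * (x0 K k).transpose) *
        JS K (k + 2) = JS K (k + 2) * (z2 K hk * z1 K k * x0 K k) := by
      calc (z2 K hk).transpose * ((z1 K k).transpose * (x0 K k).transpose) * JS K (k + 2)
          = (z2 K hk).transpose * ((z1 K k).transpose * ((x0 K k).transpose * JS K (k + 2))) := by
            simp only [mul_assoc]
        _ = (z2 K hk).transpose * (((z1 K k).transpose * JS K (k + 2)) * x0 K k) := by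
            rw [a0]; simp only [mul_assoc]
        _ = ((z2 K hk).transpose * JS K (k + 2)) * (z1 K k * x0 K k) := by
            rw [a1]; simp only [mul_assoc]
        _ = _ := by rw [a2]; simp only [mul_assoc]
    have e2 : z2 K hk * z1 K k * x0 K k = -(x0 K k * z1 K k * z2 K hk) := by
      rw [c21, neg_mul, cM, mul_assoc]
    rw [e1, e2, mul_neg, neg_add_cancel]

lemma far_zero (hk : 1 ≤ k) {v w : Matrix (Sx (k + 2)) (Sx (k + 2)) K}
    (hv : v ∈ VS K (k + 2)) (hw : w ∈ VS K (k + 2)) (a b : K) :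
    ((v + a • 1) * (w - b • 1)) (pc k) (qa k) = 0 := by
  have hd := dist_pq hk
  have h1 := VV_far (Submodule.mul_mem_mul hv hw) hd
  have h2 := VS_far hv (lt_trans Nat.one_lt_two hd)
  have h3 := VS_far hw (lt_trans Nat.one_lt_two hd)
  have h4 : (1 : Matrix (Sx (k + 2)) (Sx (k + 2)) K) (pc k) (qa k) = 0 := by
    apply Matrix.one_apply_ne
    intro h
    rw [h, hammingDist_self] at hd
    omega
  have e : (v + a • 1) * (w - b • 1) = v * w - b • v + a • w - (a * b) • 1 := by
    simp only [add_mul, mul_sub, smul_mul_assoc, mul_smul_comm, one_mul, mul_one]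
    module
  rw [e, Matrix.sub_apply, Matrix.add_apply, Matrix.sub_apply, Matrix.smul_apply,
    Matrix.smul_apply, Matrix.smul_apply, h1, h2, h3, h4]
  simp

end spin

end RRU

theorem ex3_U (K : Type*) [Field K] [IsAlgClosed K] [CharZero K] {n : ℕ} (hn : 4 ≤ n)
    (h : Even n) : HasEx3 K (2 ^ n) 0 := by
  obtain ⟨k, rfl⟩ : ∃ k, n = k + 2 := ⟨n - 2, by omega⟩
  have hk : Even k := by
    rw [Nat.even_iff] at h ⊢
    omega
  obtain ⟨N, h1, h2, h3, h4, h5⟩ := RRU.triple (K := K) (k := k) (by omega) hk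
  have he : (-1 : K) ^ (k + 2) = 1 := h.neg_one_pow
  have hJ : ∀ v ∈ VS K (k + 2), v.transpose * JS K (k + 2) = JS K (k + 2) * v := by
    intro v hv
    rw [JS_VS v hv, he, one_smul]
  have D : RRU.Du (VS K (k + 2)) (x0 K k) (y0 K k) (g0 K (k + 2)) :=
    ⟨dat, g0_mem, g0_orth 0 mem_cm, g0_orth 0 mem_am, g0_sq⟩
  have key : ∀ s : K, s * s = 1 → (JS K (k + 2)).transpose = s • JS K (k + 2) →
      HasEx3 K (2 ^ (k + 2)) 0 := fun s hss hs =>
    RRU.ex3_du D RRU.pg_spin JS_det' hs hss hJ h1 h2 h3 h4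
      (φ := Matrix.entryLinearMap K K (pc k) (qa k))
      (fun v hv w hw a b => RRU.far_zero (by omega) hv hw a b)
      (by
        change N (pc k) (qa k) ≠ 0
        rw [h5]; exact one_ne_zero)
      (by simp)
  have h4' : (k + 2) % 4 = 0 ∨ (k + 2) % 4 = 2 := by
    rw [Nat.even_iff] at h
    omega
  rcases h4' with h6 | h6
  · exact key 1 (mul_one 1) (by rw [RRS.JS_t0 (Or.inl h6), one_smul])
  · exact key (-1) (by ring) (by rw [JS_t (Or.inr h6), neg_one_smul])

end AV
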