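import Pool.Agent.Helper43.RR.NS
import Pool.Agent.Helper51.AV.SE

/-!
BLOCK RR-SL (about 170 lines, mostly a copy of `MStr.smp_lb` in `Helper51/AV/SE.lean`).
The section theorem under the local condition.

Proof in words: copy the proof of `MStr.smp_lb` (last theorem of `Helper51/AV/SE.lean`). Changes:
`hOns` is the hypothesis `hns`; in the part `fixed points` the last step
`imT τ' hσ' I0 = mI G T p0 e P` has now two cases. Second case (an element `u`): as before, with
`(u - 1) * e ≠ 0` for `e = τ1 ε` given directly by the hypothesis. First case: there are `g, h ∈ G`,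
inverse to each other, with `g * τ' P * h = P`. By `s2 : MI G T p0 e (τ' P) (imT τ' hσ' I0)` and
`SE.mi_conj` we get `MI G T p0 e (g * τ' P * h) (imT τ' hσ' I0)`, that is `MI G T p0 e P (imT ..)`,
and `SE.mi_unique` (or `SE.mI_eq`) with `s3` gives the equality.
-/

set_option linter.unusedSimpArgs false
set_option linter.unusedSectionVars false
set_option linter.unusedVariables false

open Module

namespace AV

open MTP UN

variable {K : Type*} [Field K] [IsAlgClosed K] [CharZero K] {V : Type*} [AddCommGroup V]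
  [Module K V] [FiniteDimensional K V]
  {ω : LinearMap.BilinForm K V} {G : Set (Module.End K V)}
  {T : Set (Module.End K V ≃+* Module.End K V)} {p0 ε : Module.End K V} {W : Submodule K V}

open SE in
theorem MStr.smp_loc (D : MStr ω G T p0) (hε : Bl (AA G T p0) ε)
    (hns : ∀ τ ∈ T, ∀ p ∈ SC G T p0, p * τ ε ≠ 0 ∧ p * τ ε ≠ τ ε)
    (hb : LocE G T p0 ε) : Smp (Lb G T p0 ε) := by
  classical
  let O : Set (Module.End K V) := {e | ∃ τ ∈ T, e = τ ε}
  have hOB : ∀ e ∈ O, Bl (AA G T p0) e := by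
    rintro _ ⟨τ, hτ, rfl⟩
    exact D.tw_bl hτ hε
  have hOns : ∀ e ∈ O, ∀ p ∈ SC G T p0, p * e ≠ 0 ∧ p * e ≠ e := by
    rintro _ ⟨τ, hτ, rfl⟩
    exact hns τ hτ
  have hOT : ∀ τ ∈ T, ∀ e ∈ O, τ e ∈ O := by
    rintro τ hτ _ ⟨τ', hτ', rfl⟩
    exact ⟨τ'.trans τ, D.tmul _ hτ _ hτ', rfl⟩
  have hεO : ε ∈ O := ⟨_, D.tone, rfl⟩
  have hOfin : O.Finite := by
    apply (bls (AA G T p0)).finite_toSet.subset
    intro e he
    exact mem_bls.mpr (hOB e he)
  have hOF : Finite O := hOfin
  have hmin : ∀ e ∈ O, {I | IsMin (Lb G T p0 e) I}.Finite := fun e he =>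
    (D.red_lb (hOB e he)).finite_min
  let F : Module.End K V → (O → Submodule K (Module.End K V)) := fun p e => mI G T p0 e.1 p
  have hF : ∀ p ∈ SC G T p0, ∀ q ∈ SC G T p0, F p = F q := by
    apply jordan (T := T) _ D.tone D.tmul D.tinv (fun τ hτ p hp => D.c4 hp hτ)
    · -- well defined
      intro τ hτ p hp q hq h
      obtain ⟨σ, hσ⟩ := D.semi τ hτ
      funext e
      have he0 : τ.symm e.1 ∈ O := hOT _ (D.tinv τ hτ) _ e.2
      have hk : ∀ p ∈ SC G T p0, F (τ p) e = imT τ hσ (F p ⟨τ.symm e.1, he0⟩) := by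
        intro p hp
        have h1 := mi_tw D (hOB _ he0) hτ hσ (mI_spec D (hOB _ he0) hp (hOns _ he0 p hp))
        rw [RingEquiv.apply_symm_apply] at h1
        exact mI_eq D (hOB _ e.2) (D.c4 hp hτ) (hOns _ e.2 _ (D.c4 hp hτ)) h1
      rw [hk p hp, hk q hq, h]
    · -- transitivity
      have hk : ∀ τ ∈ T, ∀ g ∈ G, ∀ h ∈ G, g * h = 1 → h * g = 1 →
          F (g * τ p0 * h) = F (τ p0) := by
        intro τ hτ g hg h hh hgh hhg
        funext e
        have h1 := D.c4 D.p0_mem hτ
        have h2 := D.c3 h1 hg hh hgh hhg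
        exact mI_eq D (hOB _ e.2) h2 (hOns _ e.2 _ h2)
          (mi_conj D (hOB _ e.2) hg hh hgh hhg (mI_spec D (hOB _ e.2) h1 (hOns _ e.2 _ h1)))
      rintro _ ⟨τ, hτ, g, hg, h, hh, hgh, hhg, rfl⟩ _ ⟨τ', hτ', g', hg', h', hh', hgh', hhg', rfl⟩
      have hτ'' := D.tmul _ hτ' _ (D.tinv _ hτ)
      refine ⟨τ.symm.trans τ', hτ'', ?_⟩
      rw [hk τ' hτ' g' hg' h' hh' hgh' hhg']
      have e1 : (τ.symm.trans τ') (g * τ p0 * h) =
          (τ.symm.trans τ') g * τ' p0 * (τ.symm.trans τ') h := by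
        rw [map_mul, map_mul]
        congr 2
        change τ' (τ.symm (τ p0)) = _
        rw [RingEquiv.symm_apply_apply]
      rw [e1]
      apply hk τ' hτ' _ (D.tgrp _ hτ'' _ hg) _ (D.tgrp _ hτ'' _ hh)
      · rw [← map_mul, hgh, map_one]
      · rw [← map_mul, hhg, map_one]
    · -- fixed points
      intro τ hτ
      have hx : ∀ I : Submodule K (Module.End K V), ∃ x, I ≠ ⊥ → x ∈ I ∧ x ≠ 0 := by
        intro I
        by_cases h : I = ⊥
        · exact ⟨0, fun h' => absurd h h'⟩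
        · obtain ⟨x, hx, hx0⟩ := Submodule.exists_mem_ne_zero_of_ne_bot h
          exact ⟨x, fun _ => ⟨hx, hx0⟩⟩
      choose x hx using hx
      have hfinI : {I | ∃ e ∈ O, IsMin (Lb G T p0 e) I}.Finite := by
        have : {I | ∃ e ∈ O, IsMin (Lb G T p0 e) I} =
            ⋃ e ∈ O, {I | IsMin (Lb G T p0 e) I} := by
          ext I; simp
        rw [this]
        exact hOfin.biUnion hmin
      obtain ⟨τ', hτ', hE, P, hP, hcase⟩ :=
        hb τ hτ (hOfin.toFinset ∪ hfinI.toFinset.image x)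
      refine ⟨P, hP, ?_⟩
      obtain ⟨σ, hσ⟩ := D.semi τ hτ
      obtain ⟨σ', hσ'⟩ := D.semi τ' hτ'
      funext e
      obtain ⟨e, he⟩ := e
      have he0 : τ.symm e ∈ O := hOT _ (D.tinv τ hτ) _ he
      generalize hee : τ.symm e = e0 at he0
      have hee' : τ e0 = e := by rw [← hee, RingEquiv.apply_symm_apply]
      have hee'' : τ' e0 = e := by
        rw [hE e0 (by
          apply Finset.mem_union_left
          rw [Set.Finite.mem_toFinset]
          exact he0), hee']
      have s0 := mI_spec D (hOB _ he0) hP (hOns _ he0 P hP)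
      have s1 := mi_tw D (hOB _ he0) hτ hσ s0
      have s2 := mi_tw D (hOB _ he0) hτ' hσ' s0
      have s3 := mI_spec D (hOB _ he) hP (hOns _ he P hP)
      generalize mI G T p0 e0 P = I0 at s0 s1 s2
      rw [hee'] at s1
      rw [hee''] at s2
      have k1 : F (τ P) ⟨e, he⟩ = imT τ hσ I0 :=
        mI_eq D (hOB _ he) (D.c4 hP hτ) (hOns _ he _ (D.c4 hP hτ)) s1
      rw [k1]
      change _ = mI G T p0 e P
      obtain ⟨hx1, hx2⟩ := hx I0 s0.1.2.1
      have hx3 : τ' (x I0) = τ (x I0) := by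
        apply hE
        apply Finset.mem_union_right
        apply Finset.mem_image_of_mem
        rw [Set.Finite.mem_toFinset]
        exact ⟨e0, he0, s0.1⟩
      have k2 : imT τ hσ I0 = imT τ' hσ' I0 := by
        apply s1.1.eq_of_mem s2.1 (x := τ (x I0))
        · rw [mem_imT, RingEquiv.symm_apply_apply]; exact hx1
        · rw [mem_imT, ← hx3, RingEquiv.symm_apply_apply]; exact hx1
        · intro h
          apply hx2
          have := congrArg τ.symm h
          simpa using this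
      rw [k2]
      rcases hcase with ⟨g, hg, h, hh, hgh, hhg, hP'⟩ | ⟨u, hu, h1, h2, h3, h4⟩
      · have s4 := mi_conj D (hOB _ he) hg hh hgh hhg s2
        rw [hP'] at s4
        exact mi_unique D (hOB _ he) hP (hOns _ he P hP) s4 s3
      · apply s2.1.eq_of_mem s3.1 (x := (u - 1) * e)
        · rw [mem_imT]
          have : (u - 1) * e = τ' ((u - 1) * e0) := by
            rw [map_mul, map_sub, h3, map_one, hee'']
          rw [this, RingEquiv.symm_apply_apply]
          exact mem_N D (hOB _ he0) hP hu h1 h2 s0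
        · exact mem_N D (hOB _ he) hP hu h1 h2 s3
        · obtain ⟨τ1, hτ1, rfl⟩ := he
          exact h4 τ1 hτ1
    · -- finiteness
      apply (Set.Finite.pi (fun e : O => hmin e.1 e.2)).subset
      rintro _ ⟨p, hp, rfl⟩
      intro e _
      exact (mI_spec D (hOB _ e.2) hp (hOns _ e.2 p hp)).1
  have hM := mI_spec D hε D.p0_mem (hOns _ hεO _ D.p0_mem)
  have hle : Lb G T p0 ε ≤ mI G T p0 ε p0 := by
    apply D.lb_gen hε
    · intro x hx y hy
      exact hM.1.1.2 x (hM.1.1.1 hx) y hy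
    · intro p hp c hc
      have h1 := mI_spec D hε hp (hOns _ hεO _ hp)
      have h2 : mI G T p0 ε p = mI G T p0 ε p0 :=
        congrFun (hF p hp p0 D.p0_mem) ⟨ε, hεO⟩
      rw [h2] at h1
      obtain ⟨h3, c', hc'⟩ := h1
      rw [c_unique D hε hc (h3.1.1 hc')]
      exact hc'
  have heq : mI G T p0 ε p0 = Lb G T p0 ε := le_antisymm hM.1.1.1 hle
  intro M hM1 hM2
  by_cases hM0 : M = ⊥
  · exact Or.inl hM0
  · right
    rw [← heq]
    exact hM.1.2.2 M (hM1.trans hle) ⟨hM1, hM2⟩ hM0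

end AV
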