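import Pool.Agent.Helper43.RR.Ful
import Pool.Agent.Helper43.RR.SL
import Pool.Agent.Helper43.RR.CF
import Pool.Agent.Helper43.RR.SG
import Pool.Agent.Helper2.RR.IX
import Pool.Agent.Helper43.RR.ShS
import Pool.Agent.Helper43.RR.ShU
import Pool.Agent.Helper46.AV.MX
import Pool.Agent.Helper20.AV.GR

/-!
Strong pairs with a self opposite cocharacter: the group theorem and the criterion.
-/

set_option linter.unusedSimpArgs false
set_option linter.unusedSectionVars false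
set_option linter.unusedVariables false

open Module MTPairs

namespace AV.RR

open MTP UN AV

variable {K : Type*} [Field K] [IsAlgClosed K] [CharZero K] {m : Type*} [Fintype m]
  [DecidableEq m] {Γ : Subgroup (Equiv.Perm (m → K))} {J : Matrix m m K}
  {G : Subgroup (Matrix.GeneralLinearGroup m K)} {π : Matrix m m K} {W : Submodule K (m → K)}

omit [IsAlgClosed K] [CharZero K] in
lemma stab_sub {U : Submodule K (m → K)} : Stab (GE G) U ↔ IsSub G U := by
  constructor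
  · intro h g hg v hv
    have := h _ ⟨g, hg, rfl⟩ v hv
    rwa [Matrix.toLin'_apply] at this
  · rintro h _ ⟨g, hg, rfl⟩ v hv
    rw [Matrix.toLin'_apply]
    exact h g hg v hv

omit [IsAlgClosed K] [CharZero K] in
lemma irr_sub {U : Submodule K (m → K)} : Irr (GE G) U ↔ IsIrrSub G U := by
  constructor
  · rintro ⟨h1, h2, h3⟩
    exact ⟨h1, stab_sub.mp h2, fun U' hU' h => h3 U' hU' (stab_sub.mpr h)⟩
  · rintro ⟨h1, h2, h3⟩
    exact ⟨h1, stab_sub.mpr h2, fun U' hU' h => h3 U' hU' (stab_sub.mp h)⟩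

/-- The group contains the derived group of the Lefschetz group if all the blocks are good and
there are no special pairs of blocks. -/
theorem der_of_good (D : IsStrongMTPair Γ J G π) (hr : IsReductiveRep G) [Nonempty m]
    (hgood' : ∀ ε, Bl (AA (GE G) (TE Γ) (Matrix.toLin' π)) ε → ∃ W,
      Good (fJ J) (GE G) (TE Γ) (Matrix.toLin' π) ε W)
    (hnospc : ∀ ε₁ ε₂ W₁ W₂, Good (fJ J) (GE G) (TE Γ) (Matrix.toLin' π) ε₁ W₁ →
      Good (fJ J) (GE G) (TE Γ) (Matrix.toLin' π) ε₂ W₂ →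
      TyO (fJ J) (AA (GE G) (TE Γ) (Matrix.toLin' π)) ε₂ W₂ →
      ¬ Good.Spc (GE G) (TE Γ) (Matrix.toLin' π) W₁ W₂) : ContainsDer J G := by
  have U := mstr D hr
  have hpair : ∀ ε₁ ε₂, Bl (AA (GE G) (TE Γ) (Matrix.toLin' π)) ε₁ →
      Bl (AA (GE G) (TE Γ) (Matrix.toLin' π)) ε₂ → ε₁ ≠ ε₂ → ¬ IsAdj (fJ J) ε₁ ε₂ →
      ∃ x ∈ ML (GE G) (TE Γ) (Matrix.toLin' π), x * ε₁ ≠ 0 ∧ x * ε₂ = 0 := by
    intro ε₁ ε₂ h1 h2 hne hna
    obtain ⟨W₁, g1⟩ := hgood' ε₁ h1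
    obtain ⟨W₂, g2⟩ := hgood' ε₂ h2
    by_contra hcon
    push Not at hcon
    have hl : Good.Lnk (GE G) (TE Γ) (Matrix.toLin' π) ε₁ ε₂ := by
      intro x hx hx2
      by_contra hx1
      exact hcon x hx hx1 hx2
    exact Good.not_lnk U g1 g2 hne hna (fun t2 hs => hnospc _ _ _ _ g1 g2 t2 hs)
      (fun t1 hs => hnospc _ _ _ _ g2 g1 t1 hs) hl
  have hsm := fun ε hε => (hgood' ε hε).choose_spec.smp
  have hne := fun ε hε => (hgood' ε hε).choose_spec.ne
  have hfu := fun ε hε => (hgood' ε hε).choose_spec.full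
  have hM := U.fullM hsm hne hfu hpair
  intro g hgJ hgT hgdet
  have hgA : Matrix.toLin' (g : Matrix m m K) ∈ AA (GE G) (TE Γ) (Matrix.toLin' π) := by
    apply U.ssA.mem_of_comm
    intro X hX
    have h1 := hgT (LinearMap.toMatrix' X) (by
      intro g' hg'
      have h2 := hX _ (U.g_mem ⟨g', hg', rfl⟩)
      have h3 := congrArg LinearMap.toMatrix' h2
      rwa [LinearMap.toMatrix'_mul, LinearMap.toMatrix'_mul, LinearMap.toMatrix'_toLin'] at h3)
    have h4 := congrArg Matrix.toLin' h1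
    rw [GA.toLin_mul, GA.toLin_mul, Matrix.toLin'_toMatrix'] at h4
    exact h4.symm
  have hgi : ∀ v w, fJ J (Matrix.toLin' (g : Matrix m m K) v)
      (Matrix.toLin' (g : Matrix m m K) w) = fJ J v w := by
    intro v w
    rw [gb_fJ, gb_fJ, Matrix.toLin'_apply, Matrix.toLin'_apply]
    have e : ((g : Matrix m m K).mulVec v) ⬝ᵥ J.mulVec ((g : Matrix m m K).mulVec w) =
        v ⬝ᵥ ((g : Matrix m m K).transpose * J * g).mulVec w := by
      rw [← Matrix.mulVec_mulVec, ← Matrix.mulVec_mulVec, Matrix.dotProduct_mulVec v,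
        Matrix.vecMul_transpose]
    rw [e, hgJ]
  have hmem := U.mem_of_full hM (fun ε hε => by
      obtain ⟨W, hW⟩ := hgood' ε hε
      exact ⟨W, hW.irr, hW.inb, hW.ty⟩)
    (fun x hx hxx => exp_mem D hr (U.ml_der hsm hne hfu hpair hx) hxx) hgA hgi (by
      intro W hW
      have hst : ∀ v ∈ W, (g : Matrix m m K).mulVecLin v ∈ W := by
        intro v hv
        exact hW.st _ hgA v hv
      have h1 := hgdet W (irr_sub.mp (U.irr_iff.mpr hW)) hst
      have h2 : Rw W (Matrix.toLin' (g : Matrix m m K)) =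
          (g : Matrix m m K).mulVecLin.restrict hst := by
        ext w
        rw [Rw_coe (x := Matrix.toLin' (g : Matrix m m K)) (fun v hv => hst v hv)]
        rfl
      rw [h2]
      exact h1)
  obtain ⟨g', hg', he⟩ := hmem
  have : g = g' := by
    apply Units.ext
    apply Matrix.toLin'.injective
    exact he
  rw [this]; exact hg'

/-- **The group theorem.** -/
theorem containsDer (D : IsStrongMTPair Γ J G π) (hr : IsReductiveRep G)
    (hso : IsSelfOpposite G π) {R : Set (ℕ × ℤ)} (hR : ∀ d e, (d, e) ∈ R → ¬ SpinD d e)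
    (h : ∀ W, IsIrrSub G W → ∃ e, HasSign J G W e ∧ (finrank K W, e) ∈ R ∧
      ∃ Γ₁ ≤ Γ, LocAt Γ₁ Γ G π W ∧ (Γ₁ = Γ ∨ (e = -1 ∧ (∀ θ ∈ Γ, ∀ v ∈ W, θ v ∈ W) ∧
        ∀ d k, Odd k → 3 ≤ k → finrank K W = d ^ k → Nat.Coprime k (Γ₁.relIndex Γ)))) :
    ContainsDer J G := by
  rcases isEmpty_or_nonempty m with hm | hm
  · intro g _ _ _
    have : g = 1 := by
      apply Units.ext
      apply Matrix.ext
      intro i
      exact (hm.false i).elim
    rw [this]; exact G.one_mem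
  have U := mstr D hr
  have hso' : SOp (GE G) (Matrix.toLin' π) := sop_of hso
  have hgood : ∀ ε, Bl (AA (GE G) (TE Γ) (Matrix.toLin' π)) ε → ∀ W,
      Irr (AA (GE G) (TE Γ) (Matrix.toLin' π) : Set (Module.End K (m → K))) W → InB ε W →
      Good (fJ J) (GE G) (TE Γ) (Matrix.toLin' π) ε W := by
    intro ε hε W hW hWε
    obtain ⟨e, hse, heR, Γ₁, hΓ₁, hloc, halt⟩ := h W (irr_sub.mp (U.irr_iff.mpr hW))
    have hsmp : Smp (Lb (GE G) (TE Γ) (Matrix.toLin' π) ε) := by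
      rcases halt with rfl | ⟨rfl, hst, hco⟩
      · exact U.smp_loc hε (fun τ hτ => U.ns_so hso' (U.tw_bl hτ hε))
          (locE_of D hr hW hε hWε hloc)
      · exact smp_index D hr hso hW hε hWε hse hst hΓ₁ hloc hco
    obtain ⟨N, hN, hNN, hrk⟩ := exists_full D hr hso hW hε hWε
    have hpq := U.rkW_so hso' hε hW hWε _ U.p0_mem
    rcases U.classify2 hε hW hWε (U.ns_so hso' hε) hsmp hN hNN (by rw [hrk, hpq]) U.p0_mem
      hpq with ⟨e', he', hsp⟩ | hgd
    · have : e = e' := sign_eq D hr hso hW hε hWε hse he'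
      rw [← this] at hsp
      exact absurd hsp (hR _ _ heR)
    · exact hgd
  refine der_of_good D hr (fun ε hε => ?_) ?_
  · obtain ⟨W, hW, hWε⟩ := hε.exists_irr
    exact ⟨W, hgood ε hε W hW hWε⟩
  · intro ε₁ ε₂ W₁ W₂ g1 g2 hO hs
    have h1 := U.rkW_so hso' g1.bl g1.irr g1.inb _ U.p0_mem
    rw [hs.1] at h1
    rcases hs.2.2 _ U.p0_mem with h2 | h2 <;> omega

/-- **The exact criterion.** -/
theorem criterion {K : Type*} [Field K] [IsAlgClosed K] [CharZero K] (R : Set (ℕ × ℤ)) :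
    (∀ (m : Type) [Fintype m] [DecidableEq m] (Γ : Subgroup (Equiv.Perm (m → K)))
      (J : Matrix m m K) (G : Subgroup (Matrix.GeneralLinearGroup m K)) (π : Matrix m m K),
      IsStrongMTPair Γ J G π → IsReductiveRep G → IsSelfOpposite G π →
      (∀ W, IsIrrSub G W → ∃ e, HasSign J G W e ∧ (finrank K W, e) ∈ R ∧
        ∃ Γ₁ ≤ Γ, LocAt Γ₁ Γ G π W ∧ (Γ₁ = Γ ∨ (e = -1 ∧ (∀ θ ∈ Γ, ∀ v ∈ W, θ v ∈ W) ∧
          ∀ d k, Odd k → 3 ≤ k → finrank K W = d ^ k → Nat.Coprime k (Γ₁.relIndex Γ)))) →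
      ContainsDer J G) ↔
    (∀ n, 5 ≤ n → n % 4 = 1 ∨ n % 4 = 2 → (2 ^ n, -1) ∉ R) ∧
    (∀ n, 3 ≤ n → n % 4 = 0 ∨ n % 4 = 3 → (2 ^ n, 1) ∉ R) ∧
    (∀ n, 4 ≤ n → Even n → (2 ^ n, 0) ∉ R) := by
  have hloc : ∀ {m : Type} [Fintype m] [DecidableEq m]
      {G : Subgroup (Matrix.GeneralLinearGroup m K)} {π : Matrix m m K}
      (W : Submodule K (m → K)), LocAt ⊥ ⊥ G π W := by
    intro m _ _ G π W γ hγ E
    rw [Subgroup.mem_bot] at hγ
    subst hγ
    refine ⟨1, Subgroup.one_mem _, fun v _ => rfl, π, ⟨1, Subgroup.one_mem _, 1, G.one_mem,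
      fun v => ?_⟩, Or.inl ⟨1, G.one_mem, fun v => ?_⟩⟩
    · rw [Units.val_one, Matrix.one_mulVec, Matrix.one_mulVec]
      rfl
    · rw [Units.val_one, Matrix.one_mulVec, Matrix.one_mulVec]
      rfl
  have hex : ∀ {d : ℕ} {e : ℤ}, HasEx3 K d e → (d, e) ∈ R →
      (∀ (m : Type) [Fintype m] [DecidableEq m] (Γ : Subgroup (Equiv.Perm (m → K)))
      (J : Matrix m m K) (G : Subgroup (Matrix.GeneralLinearGroup m K)) (π : Matrix m m K),
      IsStrongMTPair Γ J G π → IsReductiveRep G → IsSelfOpposite G π →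
      (∀ W, IsIrrSub G W → ∃ e, HasSign J G W e ∧ (finrank K W, e) ∈ R ∧
        ∃ Γ₁ ≤ Γ, LocAt Γ₁ Γ G π W ∧ (Γ₁ = Γ ∨ (e = -1 ∧ (∀ θ ∈ Γ, ∀ v ∈ W, θ v ∈ W) ∧
          ∀ d k, Odd k → 3 ≤ k → finrank K W = d ^ k → Nat.Coprime k (Γ₁.relIndex Γ)))) →
      ContainsDer J G) → False := by
    rintro d e ⟨m, _, _, J, G, π, h1, h2, h3, h4, h5⟩ hmem h
    apply h5
    apply h m ⊥ J G π h1 h2 h3
    intro W hW
    obtain ⟨h6, h7⟩ := h4 W hW
    exact ⟨e, h7, by rw [h6]; exact hmem, ⊥, le_rfl, hloc W, Or.inl rfl⟩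
  constructor
  · intro h
    exact ⟨fun n hn hc hmem => hex (ex3_S K hn hc) hmem h,
      fun n hn hc hmem => hex (ex3_O K hn hc) hmem h,
      fun n hn hc hmem => hex (ex3_U K hn hc) hmem h⟩
  · rintro ⟨h1, h2, h3⟩ m _ _ Γ J G π D hr hso h
    refine containsDer D hr hso ?_ h
    rintro d e hmem (⟨rfl, n, a1, a2, rfl⟩ | ⟨rfl, n, a1, a2, rfl⟩ | ⟨rfl, n, a1, a2, rfl⟩)
    · exact h1 n a1 a2 hmem
    · exact h2 n a1 a2 hmem
    · exact h3 n a1 a2 hmem

end AV.RR
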