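import Pool.Agent.Helper93.SR.NormC
import Pool.Agent.Helper21.MT.Gen

/-!
The Zariski closure of a subgroup, and two functions which do not vanish on a group generated by
tori.
-/

set_option linter.unusedSectionVars false

open Module MTPairs

namespace MTP.RRG

variable {K : Type*} [Field K] {m : Type*} [Fintype m] [DecidableEq m]

/-- Evaluation of a polynomial at a matrix. -/
noncomputable abbrev evm (A : Matrix m m K) : MvPolynomial (m × m) K →+* K :=
  MvPolynomial.eval (fun ij => A ij.1 ij.2)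

/-- Polynomials can be translated on both sides. -/
lemma evm_pull (A B : Matrix m m K) (p : MvPolynomial (m × m) K) :
    ∃ p' : MvPolynomial (m × m) K, ∀ X : Matrix m m K, evm X p' = evm (A * X * B) p := by
  refine ⟨MvPolynomial.bind₁ (fun ij => ∑ k, ∑ l, MvPolynomial.C (A ij.1 k * B l ij.2) *
    MvPolynomial.X (k, l)) p, fun X => ?_⟩
  rw [evm, MvPolynomial.eval, MvPolynomial.eval₂Hom_bind₁]
  congr 1
  congr 1
  funext ij
  simp only [map_sum, map_mul, MvPolynomial.eval₂Hom_C, MvPolynomial.eval₂Hom_X', RingHom.id_apply]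
  rw [Matrix.mul_apply]
  simp only [Matrix.mul_apply, Finset.sum_mul]
  rw [Finset.sum_comm]
  apply Finset.sum_congr rfl
  intro k _
  apply Finset.sum_congr rfl
  intro l _
  ring

/-- The Zariski closure of a subgroup. -/
noncomputable def Zcl (S : Subgroup (Matrix.GeneralLinearGroup m K)) :
    Subgroup (Matrix.GeneralLinearGroup m K) where
  carrier := {g | ∀ p : MvPolynomial (m × m) K, (∀ s ∈ S, evm (s : Matrix m m K) p = 0) →
    evm (g : Matrix m m K) p = 0}
  one_mem' := fun p hp => hp 1 S.one_mem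
  mul_mem' := by
    intro g h hg hh p hp
    obtain ⟨p', hp'⟩ := evm_pull 1 (h : Matrix m m K) p
    have := hg p' (by
      intro s hs
      obtain ⟨q, hq⟩ := evm_pull (s : Matrix m m K) 1 p
      rw [hp', one_mul, ← mul_one ((s : Matrix m m K) * _), ← hq]
      apply hh
      intro s' hs'
      rw [hq, mul_one, ← Units.val_mul]
      exact hp _ (S.mul_mem hs hs'))
    rw [hp', one_mul, ← Units.val_mul] at this
    exact this
  inv_mem' := by
    intro g hg p hp
    let J : ℕ →o Ideal (MvPolynomial (m × m) K) :=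
      { toFun := fun k => ⨅ s : S, RingHom.ker (evm (((s : Matrix.GeneralLinearGroup m K) *
          g ^ k : Matrix.GeneralLinearGroup m K) : Matrix m m K))
        monotone' := by
          apply monotone_nat_of_le_succ
          intro k q hq
          rw [Submodule.mem_iInf] at hq ⊢
          intro s
          obtain ⟨q', hq'⟩ := evm_pull (((s : Matrix.GeneralLinearGroup m K)) : Matrix m m K)
            ((g ^ k : Matrix.GeneralLinearGroup m K) : Matrix m m K) q
          have h1 := hg q' (by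
            intro s' hs'
            rw [hq', ← Units.val_mul, ← Units.val_mul]
            exact hq ⟨_, S.mul_mem s.2 hs'⟩)
          rw [hq', ← Units.val_mul, ← Units.val_mul, mul_assoc, ← pow_succ'] at h1
          exact h1 }
    obtain ⟨n, hn⟩ := monotone_stabilizes_iff_noetherian.mpr
      (inferInstance : IsNoetherian (MvPolynomial (m × m) K) (MvPolynomial (m × m) K)) J
    obtain ⟨q, hq⟩ := evm_pull 1 (((g ^ (n + 1))⁻¹ : Matrix.GeneralLinearGroup m K) :
      Matrix m m K) p
    have h1 : q ∈ J (n + 1) := by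
      change q ∈ ⨅ s : S, _
      rw [Submodule.mem_iInf]
      intro s
      change evm _ q = 0
      rw [hq, one_mul, ← Units.val_mul, mul_assoc, mul_inv_cancel, mul_one]
      exact hp _ s.2
    rw [← hn (n + 1) (Nat.le_succ n)] at h1
    change q ∈ ⨅ s : S, _ at h1
    rw [Submodule.mem_iInf] at h1
    have h2 : evm _ q = 0 := h1 1
    rw [hq, one_mul, ← Units.val_mul] at h2
    have h3 : ((1 : S) : Matrix.GeneralLinearGroup m K) * g ^ n * (g ^ (n + 1))⁻¹ = g⁻¹ := by
      rw [pow_succ, mul_inv_rev, Subgroup.coe_one, one_mul]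
      group
    rw [h3] at h2
    exact h2

lemma Zcl_closed (S : Subgroup (Matrix.GeneralLinearGroup m K)) : ZariskiClosed (Zcl S) :=
  ⟨{p | ∀ s ∈ S, evm (s : Matrix m m K) p = 0}, fun _ => Iff.rfl⟩

lemma le_Zcl (S : Subgroup (Matrix.GeneralLinearGroup m K)) : S ≤ Zcl S :=
  fun _ hs _ hp => hp _ hs

/-- The element `t P + (1 - P)` of the general linear group. -/
def tor {P : Matrix m m K} (hP : P * P = P) {t : K} (ht : t ≠ 0) :
    Matrix.GeneralLinearGroup m K :=
  ⟨t • P + (1 - P), t⁻¹ • P + (1 - P), torus_mul hP ht, by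
    have := torus_mul hP (inv_ne_zero ht)
    rwa [inv_inv] at this⟩

/-- Polynomials along a one parameter group. -/
lemma evm_line (A B : Matrix m m K) (p : MvPolynomial (m × m) K) :
    ∃ q : Polynomial K, ∀ t : K, q.eval t = evm (A + t • B) p := by
  refine ⟨MvPolynomial.aeval (fun ij => Polynomial.C (A ij.1 ij.2) +
    Polynomial.C (B ij.1 ij.2) * Polynomial.X) p, fun t => ?_⟩
  have h : (Polynomial.evalRingHom t).comp (MvPolynomial.aeval (R := K) (fun ij : m × m =>
      Polynomial.C (A ij.1 ij.2) + Polynomial.C (B ij.1 ij.2) * Polynomial.X)).toRingHom =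
      evm (A + t • B) := by
    apply MvPolynomial.ringHom_ext
    · intro r
      simp
    · intro ij
      change Polynomial.eval t (MvPolynomial.aeval (R := K) (fun ij : m × m =>
        Polynomial.C (A ij.1 ij.2) + Polynomial.C (B ij.1 ij.2) * Polynomial.X)
        (MvPolynomial.X ij)) = _
      rw [MvPolynomial.aeval_X, Polynomial.eval_add, Polynomial.eval_mul, Polynomial.eval_C,
        Polynomial.eval_C, Polynomial.eval_X, evm, MvPolynomial.eval_X, Matrix.add_apply,
        Matrix.smul_apply, smul_eq_mul, mul_comm t]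
  exact RingHom.congr_fun h p

lemma two_values [Infinite K] {q₁ q₂ : Polynomial K} {t₁ t₂ : K} (h₁ : q₁.eval t₁ ≠ 0)
    (h₂ : q₂.eval t₂ ≠ 0) : ∃ t, t ≠ 0 ∧ q₁.eval t ≠ 0 ∧ q₂.eval t ≠ 0 := by
  have n1 : q₁ ≠ 0 := by rintro rfl; simp at h₁
  have n2 : q₂ ≠ 0 := by rintro rfl; simp at h₂
  have h : Polynomial.X * q₁ * q₂ ≠ 0 := mul_ne_zero (mul_ne_zero Polynomial.X_ne_zero n1) n2
  obtain ⟨t, ht⟩ : ∃ t, (Polynomial.X * q₁ * q₂).eval t ≠ 0 := by
    by_contra hcon
    push Not at hcon
    exact h (Polynomial.funext fun t => by rw [hcon t, Polynomial.eval_zero])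
  rw [Polynomial.eval_mul, Polynomial.eval_mul, Polynomial.eval_X] at ht
  exact ⟨t, left_ne_zero_of_mul (left_ne_zero_of_mul ht),
    right_ne_zero_of_mul (left_ne_zero_of_mul ht), right_ne_zero_of_mul ht⟩

/-- The words in the tori of a set of idempotents. -/
def Wd (Λ : Set (Matrix m m K)) : Subgroup (Matrix.GeneralLinearGroup m K) :=
  Subgroup.closure {g | ∃ P ∈ Λ, P * P = P ∧ ∃ t : K, t ≠ 0 ∧ (g : Matrix m m K) =
    t • P + (1 - P)}

/-- Two polynomials which do not vanish on the group of words do not vanish at a common point. -/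
theorem wd_two [Infinite K] {Λ : Set (Matrix m m K)} {a : Matrix.GeneralLinearGroup m K}
    (ha : a ∈ Wd Λ) : ∀ w ∈ Wd Λ, ∀ p q : MvPolynomial (m × m) K,
      evm (w : Matrix m m K) p ≠ 0 → evm ((w * a : Matrix.GeneralLinearGroup m K) :
        Matrix m m K) q ≠ 0 → ∃ w' ∈ Wd Λ, evm (w' : Matrix m m K) p ≠ 0 ∧
          evm (w' : Matrix m m K) q ≠ 0 := by
  induction ha using Subgroup.closure_induction with
  | mem a ha =>
    intro w hw p q hp hq
    obtain ⟨P, hPΛ, hP, t, ht, hat⟩ := ha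
    obtain ⟨p', hp'⟩ := evm_line ((w : Matrix m m K) * (1 - P)) ((w : Matrix m m K) * P) p
    obtain ⟨q', hq'⟩ := evm_line ((w : Matrix m m K) * (1 - P)) ((w : Matrix m m K) * P) q
    have key : ∀ s : K, (w : Matrix m m K) * (1 - P) + s • ((w : Matrix m m K) * P) =
        (w : Matrix m m K) * (s • P + (1 - P)) := by
      intro s
      rw [mul_add, mul_smul_comm, add_comm]
    obtain ⟨s, hs0, hs1, hs2⟩ := two_values (q₁ := p') (q₂ := q') (t₁ := 1) (t₂ := t)
      (by
        rw [hp', key, one_smul, add_sub_cancel, mul_one]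
        exact hp)
      (by
        rw [hq', key, ← hat, ← Units.val_mul]
        exact hq)
    refine ⟨w * tor hP hs0, (Wd Λ).mul_mem hw (Subgroup.subset_closure
      ⟨P, hPΛ, hP, s, hs0, rfl⟩), ?_, ?_⟩
    · rw [hp', key] at hs1
      exact hs1
    · rw [hq', key] at hs2
      exact hs2
  | one =>
    intro w hw p q hp hq
    rw [mul_one] at hq
    exact ⟨w, hw, hp, hq⟩
  | mul a b ha hb iha ihb =>
    intro w hw p q hp hq
    obtain ⟨q', hq'⟩ := evm_pull 1 (b : Matrix m m K) q
    obtain ⟨w1, hw1, h1, h2⟩ := iha w hw p q' hp (by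
      rw [hq', one_mul, ← Units.val_mul, mul_assoc]
      exact hq)
    rw [hq', one_mul, ← Units.val_mul] at h2
    exact ihb w1 hw1 p q h1 h2
  | inv a ha ih =>
    intro w hw p q hp hq
    obtain ⟨w', hw', h1, h2⟩ := ih (w * a⁻¹) ((Wd Λ).mul_mem hw ((Wd Λ).inv_mem ha)) q p hq (by
      rw [inv_mul_cancel_right]
      exact hp)
    exact ⟨w', hw', h2, h1⟩

/-- Two polynomials which do not vanish on the group of a strong pair do not vanish at a common
point. -/
theorem gen_two [Infinite K] {Γ : Subgroup (Equiv.Perm (m → K))} {J : Matrix m m K}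
    {G : Subgroup (Matrix.GeneralLinearGroup m K)} {π : Matrix m m K}
    (D : IsStrongMTPair Γ J G π) {p q : MvPolynomial (m × m) K}
    (hp : ∃ g ∈ G, evm (g : Matrix m m K) p ≠ 0) (hq : ∃ g ∈ G, evm (g : Matrix m m K) q ≠ 0) :
    ∃ g ∈ G, evm (g : Matrix m m K) p ≠ 0 ∧ evm (g : Matrix m m K) q ≠ 0 := by
  set Λ : Set (Matrix m m K) := {P | IsConj Γ G π P} with hΛ
  have hWG : Wd Λ ≤ G := by
    apply (Subgroup.closure_le _).mpr
    rintro g ⟨P, hP, -, t, ht, hg⟩
    obtain ⟨h, hh, hht⟩ := (smat_cochar D hP).2 t ht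
    have : g = h := Units.ext (by rw [hg, hht])
    rw [this]; exact hh
  have hGZ : G ≤ Zcl (Wd Λ) := by
    apply D.gen _ (Zcl_closed _)
    intro P hP
    have hPP := (smat_cochar D hP).1
    exact ⟨hPP, fun t ht => ⟨tor hPP ht, le_Zcl _ (Subgroup.subset_closure
      ⟨P, hP, hPP, t, ht, rfl⟩), rfl⟩⟩
  have key : ∀ p : MvPolynomial (m × m) K, (∃ g ∈ G, evm (g : Matrix m m K) p ≠ 0) →
      ∃ w ∈ Wd Λ, evm (w : Matrix m m K) p ≠ 0 := by
    rintro p ⟨g, hg, hgp⟩
    by_contra hcon
    push Not at hcon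
    exact hgp (hGZ hg p hcon)
  obtain ⟨w1, hw1, h1⟩ := key p hp
  obtain ⟨w2, hw2, h2⟩ := key q hq
  obtain ⟨w, hw, h3, h4⟩ := wd_two ((Wd Λ).mul_mem ((Wd Λ).inv_mem hw1) hw2) w1 hw1 p q h1
    (by rw [mul_inv_cancel_left]; exact h2)
  exact ⟨w, hWG hw, h3, h4⟩

end MTP.RRG
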