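import Pool.Agent.Helper21.MT.Trace
import Pool.Agent.Helper43.RR.Gen

/-!
Blocks of an invertible operator with respect to an idempotent.
-/

set_option linter.unusedSectionVars false

open Module MTPairs

namespace MTP.RRG

variable {K : Type*} [Field K] {W : Type*} [AddCommGroup W] [Module K W] [FiniteDimensional K W]

/-- If the blocks `p g p` and `p g (1 - p)` are invertible, then `p (g p g⁻¹) (1 - p)` has the same
rank as `p`. Here `h` exchanges `p` and `1 - p`, and `X`, `Y` are the two blocks completed to
operators of the whole space. -/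
theorem rk_block {p g gi h h' X' Y' : Module.End K W} (hp : p * p = p) (hg : g * gi = 1)
    (hh : h * p = (1 - p) * h) (hh1 : h * h' = 1) (hh2 : h' * h = 1)
    (hX : X' * (p * g * p + (1 - p)) = 1)
    (hY : (p * g * h * p + (1 - p)) * Y' = 1) (hY' : Y' * (p * g * h * p + (1 - p)) = 1) :
    rk (p * (g * p * gi) * (1 - p)) = rk p := by
  set q := 1 - p with hq
  have hqp : q * p = 0 := by rw [hq, sub_mul, one_mul, hp, sub_self]
  have hpq : p * q = 0 := by rw [hq, mul_sub, mul_one, hp, sub_self]
  have hqq : q * q = q := by rw [hq, mul_sub, mul_one, ← hq, hqp, sub_zero]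
  have h1 : p + q = 1 := by rw [hq]; abel
  -- `p = X' A`
  set A := p * g * p with hA
  have hXA : X' * A = p := by
    calc X' * A = X' * (A + q) * p := by
          rw [mul_assoc, add_mul, hqp, add_zero, hA, mul_assoc (p * g), hp]
      _ = p := by rw [hX, one_mul]
  -- the second block
  set Y := p * g * h * p + q with hYd
  have hpY : p * Y = p * g * h * p := by
    rw [hYd, mul_add, hpq, add_zero]
    simp only [← mul_assoc, hp]
  have hYp : Y * p = p * g * h * p := by
    rw [hYd, add_mul, hqp, add_zero, mul_assoc, hp]
  have hYY : Y' * p = p * Y' := by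
    calc Y' * p = Y' * p * (Y * Y') := by rw [hY, mul_one]
      _ = Y' * (p * Y) * Y' := by simp only [mul_assoc]
      _ = Y' * (Y * p) * Y' := by rw [hpY, hYp]
      _ = p * Y' := by rw [← mul_assoc, hY', one_mul]
  set B := p * g * q with hB
  have hBh : B = p * Y * h' := by
    have e : q = h * p * h' := by rw [hh, mul_assoc, hh1, mul_one]
    rw [hB, e, hpY]
    simp only [mul_assoc]
  set C := h * p * Y' with hC
  have hCB : C * B = q := by
    calc C * B = h * (p * Y') * (p * Y) * h' := by rw [hC, hBh]; simp only [mul_assoc]
      _ = h * (Y' * p) * (p * Y) * h' := by rw [hYY]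
      _ = h * Y' * (p * p) * Y * h' := by simp only [mul_assoc]
      _ = h * (Y' * p) * Y * h' := by rw [hp]; simp only [mul_assoc]
      _ = h * p * (Y' * Y) * h' := by rw [hYY]; simp only [mul_assoc]
      _ = q := by rw [hY', mul_one, hh, mul_assoc, hh1, mul_one]
  -- the inverse
  set E := p * gi * q with hE
  set D' := q * gi * q with hD'
  have r1 : A * E + B * D' = 0 := by
    calc A * E + B * D' = p * g * (p * p) * gi * q + p * g * (q * q) * gi * q := by
          rw [hA, hE, hB, hD']; simp only [mul_assoc]
      _ = p * g * (p + q) * gi * q := by rw [hp, hqq, mul_add, add_mul, add_mul]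
      _ = p * (g * gi) * q := by rw [h1, mul_one]; simp only [mul_assoc]
      _ = 0 := by rw [hg, mul_one, hpq]
  have r2 : q * g * p * E + q * g * q * D' = q := by
    calc q * g * p * E + q * g * q * D' = q * g * (p * p) * gi * q + q * g * (q * q) * gi * q := by
          rw [hE, hD']; simp only [mul_assoc]
      _ = q * g * (p + q) * gi * q := by rw [hp, hqq, mul_add, add_mul, add_mul]
      _ = q * (g * gi) * q := by rw [h1, mul_one]; simp only [mul_assoc]
      _ = q := by rw [hg, mul_one, hqq]
  have r3 : D' = - (C * A * E) := by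
    have e1 : B * D' = - (A * E) := by rw [eq_neg_iff_add_eq_zero, add_comm]; exact r1
    calc D' = q * D' := by rw [hD', ← mul_assoc, ← mul_assoc, hqq]
      _ = C * B * D' := by rw [hCB]
      _ = C * (B * D') := mul_assoc _ _ _
      _ = - (C * A * E) := by rw [e1, mul_neg, mul_assoc C A E]
  have r4 : (q * g * p - q * g * q * C * A) * E = q := by
    calc (q * g * p - q * g * q * C * A) * E = q * g * p * E + q * g * q * -(C * A * E) := by
          rw [sub_mul, mul_neg, sub_eq_add_neg]; simp only [mul_assoc]
      _ = q := by rw [← r3, r2]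
  -- the operator
  have hN : p * (g * p * gi) * q = A * E := by
    calc p * (g * p * gi) * q = p * g * p * gi * q := by simp only [mul_assoc]
      _ = p * g * (p * p) * gi * q := by rw [hp]
      _ = A * E := by rw [hA, hE]; simp only [mul_assoc, ← mul_assoc p p, hp]
  have hE2 : X' * (A * E) = E := by
    rw [← mul_assoc, hXA, hE]
    simp only [← mul_assoc, hp]
  have hqrk : rk q = rk p := by
    have e : q = h * p * h' := by rw [hh, mul_assoc, hh1, mul_one]
    apply le_antisymm
    · rw [e]
      exact (rk_mul_le_left _ _).trans (rk_mul_le_right _ _)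
    · have e2 : p = h' * q * h := by
        rw [e]
        calc p = (h' * h) * p * (h' * h) := by rw [hh2, one_mul, mul_one]
          _ = _ := by simp only [mul_assoc]
      conv_lhs => rw [e2]
      exact (rk_mul_le_left _ _).trans (rk_mul_le_right _ _)
  rw [hN]
  apply le_antisymm
  · rw [hA]
    have : p * g * p * E = p * (g * p * E) := by simp only [mul_assoc]
    rw [this]
    exact rk_mul_le_left _ _
  · rw [← hqrk]
    conv_lhs => rw [← r4, ← hE2]
    exact (rk_mul_le_right _ _).trans (rk_mul_le_right _ _)

variable {m : Type*} [Fintype m] [DecidableEq m]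

/-- The determinant of an operator depending affinely on a matrix is a polynomial. -/
lemma det_poly (φ : Matrix m m K →ₗ[K] Module.End K W) (C : Module.End K W) :
    ∃ P : MvPolynomial (m × m) K, ∀ X : Matrix m m K, evm X P = LinearMap.det (C + φ X) := by
  classical
  set b := Module.finBasis K W
  let M : Matrix (Fin (finrank K W)) (Fin (finrank K W)) (MvPolynomial (m × m) K) :=
    Matrix.of fun i j => MvPolynomial.C (LinearMap.toMatrix b b C i j) +
      ∑ kl : m × m, MvPolynomial.C (LinearMap.toMatrix b b (φ (Matrix.single kl.1 kl.2 1)) i j) *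
        MvPolynomial.X kl
  refine ⟨M.det, fun X => ?_⟩
  rw [← LinearMap.det_toMatrix b, RingHom.map_det]
  congr 1
  ext i j
  have hφ : φ X = ∑ kl : m × m, X kl.1 kl.2 • φ (Matrix.single kl.1 kl.2 1) := by
    conv_lhs => rw [Matrix.matrix_eq_sum_single X]
    rw [map_sum, Fintype.sum_prod_type]
    apply Finset.sum_congr rfl
    intro k _
    rw [map_sum]
    apply Finset.sum_congr rfl
    intro l _
    have : Matrix.single k l (X k l) = (X k l) • Matrix.single k l (1 : K) := by
      rw [Matrix.smul_single, smul_eq_mul, mul_one]
    rw [this, map_smul]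
  rw [map_add, hφ, map_sum, Matrix.add_apply, Matrix.sum_apply]
  simp only [RingHom.mapMatrix_apply, Matrix.map_apply, M, Matrix.of_apply, map_add, map_sum,
    map_mul, MvPolynomial.eval_C, MvPolynomial.eval_X, map_smul, Matrix.smul_apply, smul_eq_mul]
  congr 1
  apply Finset.sum_congr rfl
  intro kl _
  rw [mul_comm]

end MTP.RRG
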