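import Pool.Agent.Helper43.RR.Defs
import Pool.Agent.Helper2.AV.MB
import Pool.Agent.Helper55.AV.DAb

/-!
BLOCK RR-NS (about 80 lines). The ranks of the conjugates of a self opposite cocharacter.

Proofs in words. `hso` gives `g0 ∈ G` with `g0 p0 = (1 - p0) g0`; let `h0` be its inverse (field
`D.inv`), so `g0 p0 h0 = 1 - p0`.
* `rk_so`: an element of `SC G T p0` is `p = g (τ p0) h` with `g, h ∈ G` inverse to each other and
  `τ ∈ T` (unfold `SC` as in `Helper51/AV/SE.lean`, `rintro p ⟨τ, hτ, g, hg, h, hh, hgh, hhg, rfl⟩`).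
  Put `e = τ.symm ε`, a block (`D.tw_bl`), so central: it commutes with `G`. Then
  `p ε = g τ(p0 e) h`, so `rk (p ε) = rk (p0 e)` (rank of a conjugate: `MTP.rk_conj` or
  `rk_mul_le_left/right` twice; `D.rk` for `τ`), in the same way `rk ε = rk e`,
  and `(1 - p0) e = g0 (p0 e) h0` has the same rank as `p0 e`. Finally `rk e = rk (p0 e) +
  rk ((1 - p0) e)` as these are orthogonal idempotents with sum `e` (`MTP.rk_add` or compare the
  traces: `UN.trace_idem` says that the trace of an idempotent is its rank).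
* `ns_so`: if `p ε = 0` then `rk ε = 0` by `rk_so`, so `ε = 0`, contradiction with `hε.ne`; if
  `p ε = ε` then `2 rk ε = rk ε`, again `ε = 0`.
* `rkW_so`: `D.ssA.rs hε hW hWε` gives `mult : rk x = k * rk (Rw W x)` on `Ae (AA G T p0) ε`;
  apply it to `p ε` and to `ε` (`Rw W (x * ε) = Rw W x` as in `CL.lean`, `Rw W 1 = 1`,
  `MTP.rk 1 = finrank`).
-/

set_option linter.unusedSimpArgs false
set_option linter.unusedSectionVars false
set_option linter.unusedVariables false

open Module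

namespace AV

open MTP UN

variable {K : Type*} [Field K] [IsAlgClosed K] [CharZero K] {V : Type*} [AddCommGroup V]
  [Module K V] [FiniteDimensional K V]
  {ω : LinearMap.BilinForm K V} {G : Set (Module.End K V)}
  {T : Set (Module.End K V ≃+* Module.End K V)} {p0 ε : Module.End K V} {W : Submodule K V}

theorem MStr.rk_so (D : MStr ω G T p0) (hso : SOp G p0) (hε : Bl (AA G T p0) ε) :
    ∀ p ∈ SC G T p0, 2 * MTP.rk (p * ε) = MTP.rk ε := by
  intro p hp
  obtain ⟨g0, hg0, hg0p⟩ := hso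
  obtain ⟨h0, hh0, hgh0, hhg0⟩ := D.inv g0 hg0
  have hpA : p ∈ AA G T p0 := D.sc_mem hp
  have hpp : p * p = p := D.c1 hp
  obtain ⟨τ, hτ, g, hg, h, hh, hgh, hhg, hpe⟩ := hp
  have h00 : g0 * p0 * h0 = 1 - p0 := by
    rw [hg0p, mul_assoc, hgh0, mul_one]
  have hτ0 : τ g0 * τ p0 * τ h0 = 1 - τ p0 := by
    rw [← map_mul, ← map_mul, h00, map_sub, map_one]
  have hτgh : τ g0 * τ h0 = 1 := by rw [← map_mul, hgh0, map_one]
  have hτhg : τ h0 * τ g0 = 1 := by rw [← map_mul, hhg0, map_one]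
  have hτg : τ g0 ∈ G := D.tgrp τ hτ g0 hg0
  have hτh : τ h0 ∈ G := D.tgrp τ hτ h0 hh0
  -- the conjugating elements
  have k1 : (g * τ g0 * h) * (g * τ h0 * h) = 1 := by
    calc (g * τ g0 * h) * (g * τ h0 * h) = g * (τ g0 * (h * g) * τ h0) * h := by
          simp only [mul_assoc]
      _ = 1 := by rw [hhg, mul_one, hτgh, mul_one, hgh]
  have k2 : (g * τ h0 * h) * (g * τ g0 * h) = 1 := by
    calc (g * τ h0 * h) * (g * τ g0 * h) = g * (τ h0 * (h * g) * τ g0) * h := by
          simp only [mul_assoc]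
      _ = 1 := by rw [hhg, mul_one, hτhg, mul_one, hgh]
  have k3 : (g * τ g0 * h) * p * (g * τ h0 * h) = 1 - p := by
    calc (g * τ g0 * h) * p * (g * τ h0 * h)
        = g * (τ g0 * (h * g) * τ p0 * (h * g) * τ h0) * h := by
          rw [hpe]; simp only [mul_assoc]
      _ = g * (1 - τ p0) * h := by rw [hhg, mul_one, mul_one, hτ0]
      _ = g * h - g * τ p0 * h := by rw [mul_sub, sub_mul, mul_one]
      _ = 1 - p := by rw [hgh, ← hpe]
  have k4 : (g * τ h0 * h) ∈ G := D.mul _ (D.mul _ hg _ hτh) _ hh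
  have k5 : (1 - p) * ε = (g * τ g0 * h) * (p * ε) * (g * τ h0 * h) := by
    have h5 := hε.cen _ (D.g_mem k4)
    rw [← k3, mul_assoc _ (g * τ h0 * h) ε, ← h5]
    simp only [mul_assoc]
  have k6 : MTP.rk ((1 - p) * ε) = MTP.rk (p * ε) := by
    rw [k5]; exact MTP.rk_conj k2 k1 _
  have hcp : ε * p = p * ε := hε.cen p hpA
  have k7 : MTP.rk (p * ε + (1 - p) * ε) = MTP.rk (p * ε) + MTP.rk ((1 - p) * ε) := by
    apply MTP.rk_add (p := p) (q := p)
    · rw [← mul_assoc, hpp]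
    · rw [← mul_assoc, mul_sub, mul_one, hpp, sub_self, zero_mul]
    · rw [mul_assoc, hcp, ← mul_assoc, hpp]
    · rw [mul_assoc, hcp, ← mul_assoc, sub_mul, one_mul, hpp, sub_self, zero_mul]
  have k8 : p * ε + (1 - p) * ε = ε := by rw [sub_mul, one_mul]; abel
  rw [k8, k6] at k7
  omega

theorem MStr.ns_so (D : MStr ω G T p0) (hso : SOp G p0) (hε : Bl (AA G T p0) ε) :
    ∀ p ∈ SC G T p0, p * ε ≠ 0 ∧ p * ε ≠ ε := by
  intro p hp
  have h1 := D.rk_so hso hε p hp
  have h2 : MTP.rk ε ≠ 0 := fun h => hε.ne (MTP.rk_eq_zero.mp h)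
  constructor
  · intro h
    rw [h, MTP.rk_eq_zero.mpr rfl] at h1
    omega
  · intro h
    rw [h] at h1
    omega

theorem MStr.rkW_so (D : MStr ω G T p0) (hso : SOp G p0) (hε : Bl (AA G T p0) ε)
    (hW : Irr (AA G T p0 : Set (Module.End K V)) W) (hWε : InB ε W) :
    ∀ p ∈ SC G T p0, 2 * MTP.rk (Rw W p) = finrank K W := by
  intro p hp
  obtain ⟨k, hk, -, hrk⟩ := (D.ssA.rs hε hW hWε).mult
  have hρε : ∀ x : Module.End K V, Rw W (x * ε) = Rw W x := by
    intro x
    apply LinearMap.ext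
    intro w
    change prj W (x (ε w)) = prj W (x w)
    rw [hWε w w.2]
  have hρ1 : Rw W (1 : Module.End K V) = 1 := by
    apply LinearMap.ext
    intro w
    exact prj_coe W w
  have h1 := hrk (p * ε) ⟨mul_mem (D.sc_mem hp) hε.mem, by rw [mul_assoc, hε.idem]⟩
  have h2 := hrk ε ⟨hε.mem, hε.idem⟩
  have h3 : Rw W ε = 1 := by rw [← hρ1, ← hρε 1, one_mul]
  have h4 : MTP.rk (1 : Module.End K W) = finrank K W := by
    unfold MTP.rk
    rw [LinearMap.range_eq_top.mpr (fun w => ⟨w, rfl⟩), finrank_top]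
  rw [hρε] at h1
  rw [h3, h4] at h2
  have h5 := D.rk_so hso hε p hp
  rw [h1, h2] at h5
  have h6 : k * (2 * MTP.rk (Rw W p)) = k * finrank K W := by rw [← h5]; ring
  exact Nat.eq_of_mul_eq_mul_left hk h6

end AV
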