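import Pool.Agent.Helper43.RR.NS
import Pool.Agent.Helper51.AV.SE

/-!
BLOCK RR-SF (about 100 lines). A block with an irreducible representation of dimension not
divisible by four has a simple Lie algebra.

Proof in words. For `p ∈ SC G T p0` let `I p = SE.mI G T p0 ε p` be the minimal ideal of
`L = Lb G T p0 ε` containing `(p - c_p) ε` (`SE.mI_spec D hε hp (hns p hp)`, with
`hns = D.ns_so hso hε`). Here `c_p = 1/2`: the trace of `(p - c_p) ε` is zero (`D.lb_tr`), the
traces of `p ε` and `ε` are their ranks (`UN.trace_idem`), `2 rk (p ε) = rk ε` (`D.rk_so`), and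
`trace ε ≠ 0` (`D.trace_bl_ne`).
(1) If `I p = I p0` for all `p ∈ SC`, then `L ≤ I p0` by `D.lb_gen hε` exactly as at the end of the
proof of `MStr.smp_lb` in `Helper51/AV/SE.lean`, so `L = I p0` is simple (same last lines).
(2) Otherwise there are `p, q ∈ SC` with `I p ≠ I q`. Two different minimal ideals `I, I'` satisfy:
`a * b = b * a` for `a ∈ I, b ∈ I'` (`I ⊓ I'` is an ideal, contained in `I`, so it is zero or `I`,
and then `I = I'`; the commutator lies in `I ⊓ I'`; see `IsMin.eq_of_mem` and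
`Helper2/AV/ADefs`/`Helper42/AV/RD2` for lemmas of this kind) and `trace (a * b) = 0`: `I` is
spanned by the brackets `[x, y]`, `x, y ∈ I` (use `Red`: the brackets span an ideal `≠ 0`, or use
`Red.mem_orth_iff`: an element of `L` which commutes with `I` is orthogonal to `I` for the trace
form: `hL.mem_orth_iff hI.1 hs : s ∈ orth L I ↔ ∀ x ∈ I, x commutes with s`, exactly what is
needed with `hL = D.red_lb hε`). Hence with `a = (p - 1/2) ε`, `b = (q - 1/2) ε`:
`0 = trace (a b) = trace (p q ε) - 1/2 trace (p ε) - 1/2 trace (q ε) + 1/4 trace ε`, that is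
`trace (p q ε) = 1/4 trace ε`, and `p ε`, `q ε` commute, so `p q ε` is an idempotent of
`AA G T p0`. On `W`: `Rw W p`, `Rw W q` are commuting idempotents and the trace of their product
is `1/4 finrank K W` (use `(D.ssA.rs hε hW hWε).mult : trace V x = k * trace W (Rw W x)` for
`x ∈ Ae (AA G T p0) ε`), and this trace is the rank, a natural number. So `4 ∣ finrank K W`.
-/

set_option linter.unusedSimpArgs false
set_option linter.unusedSectionVars false
set_option linter.unusedVariables false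

open Module

namespace AV

open MTP UN

variable {K : Type*} [Field K] [IsAlgClosed K] [CharZero K] {V : Type*} [AddCommGroup V]
  [Module K V] [FiniteDimensional K V]
  {ω : LinearMap.BilinForm K V} {G : Set (Module.End K V)}
  {T : Set (Module.End K V ≃+* Module.End K V)} {p0 ε : Module.End K V} {W : Submodule K V}

open SE in
/-- If all the minimal ideals agree, the block is simple. -/
private lemma smp_of_eq (D : MStr ω G T p0) (hε : Bl (AA G T p0) ε)
    (hns : ∀ p ∈ SC G T p0, p * ε ≠ 0 ∧ p * ε ≠ ε)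
    (hF : ∀ p ∈ SC G T p0, mI G T p0 ε p = mI G T p0 ε p0) : Smp (Lb G T p0 ε) := by
  have hM := mI_spec D hε D.p0_mem (hns _ D.p0_mem)
  have hle : Lb G T p0 ε ≤ mI G T p0 ε p0 := by
    apply D.lb_gen hε
    · intro x hx y hy
      exact hM.1.1.2 x (hM.1.1.1 hx) y hy
    · intro p hp c hc
      have h1 := mI_spec D hε hp (hns _ hp)
      rw [hF p hp] at h1
      obtain ⟨h3, c', hc'⟩ := h1
      rw [c_unique D hε hc (h3.1.1 hc')]
      exact hc'
  have heq : mI G T p0 ε p0 = Lb G T p0 ε := le_antisymm hM.1.1.1 hle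
  intro M hM1 hM2
  by_cases hM0 : M = ⊥
  · exact Or.inl hM0
  · right
    rw [← heq]
    exact hM.1.2.2 M (hM1.trans hle) ⟨hM1, hM2⟩ hM0

/-- The scalar of a self opposite conjugate. -/
private lemma c_half (D : MStr ω G T p0) (hso : SOp G p0) (hε : Bl (AA G T p0) ε)
    {p : Module.End K V} (hp : p ∈ SC G T p0) {c : K} (hc : (p - c • 1) * ε ∈ Lb G T p0 ε) :
    LinearMap.trace K V (p * ε) = 2⁻¹ * LinearMap.trace K V ε ∧ c = 2⁻¹ := by
  have h1 := D.lb_tr hε hc
  have h2 := D.rk_so hso hε p hp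
  have h3 : LinearMap.trace K V (p * ε) = (MTP.rk (p * ε) : K) :=
    trace_idem (hε.mul_idem (D.sc_mem hp) (D.c1 hp))
  have h4 := hε.trace_eq
  have h5 : LinearMap.trace K V (p * ε) = 2⁻¹ * LinearMap.trace K V ε := by
    rw [h3, h4, ← h2]
    push_cast
    rw [← mul_assoc, inv_mul_cancel₀ two_ne_zero, one_mul]
  refine ⟨h5, ?_⟩
  rw [sub_mul, smul_mul_assoc, one_mul, map_sub, map_smul, smul_eq_mul, h5, ← sub_mul] at h1
  rcases mul_eq_zero.mp h1 with h6 | h6
  · exact (sub_eq_zero.mp h6).symm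
  · exact absurd h6 (D.trace_bl_ne hε)

open SE in
theorem MStr.smp_four (D : MStr ω G T p0) (hso : SOp G p0) (hε : Bl (AA G T p0) ε)
    (hW : Irr (AA G T p0 : Set (Module.End K V)) W) (hWε : InB ε W)
    (h4 : ¬ 4 ∣ finrank K W) : Smp (Lb G T p0 ε) := by
  have hns := D.ns_so hso hε
  by_contra hcon
  have hne : ¬ ∀ p ∈ SC G T p0, mI G T p0 ε p = mI G T p0 ε p0 := fun h =>
    hcon (smp_of_eq D hε hns h)
  push Not at hne
  obtain ⟨p, hp, hpq⟩ := hne
  have hq := D.p0_mem
  obtain ⟨h1, c, hc⟩ := mI_spec D hε hp (hns _ hp)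
  obtain ⟨h2, c', hc'⟩ := mI_spec D hε hq (hns _ hq)
  obtain ⟨hp1, hp2⟩ := c_half D hso hε hp (h1.1.1 hc)
  obtain ⟨hq1, hq2⟩ := c_half D hso hε hq (h2.1.1 hc')
  subst hp2
  subst hq2
  have hcomm : ∀ x ∈ mI G T p0 ε p, x * ((p0 - (2 : K)⁻¹ • 1) * ε) =
      (p0 - (2 : K)⁻¹ • 1) * ε * x := fun x hx => h1.comm h2 hpq hx hc'
  have horth := ((D.red_lb hε).mem_orth_iff h1.1 (h2.1.1 hc')).mpr hcomm
  have htr := horth.2 _ hc
  have hab := hcomm _ hc
  have hpA := D.sc_mem hp
  have hqA := D.sc_mem hq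
  have hsm : ∀ {a : Module.End K V}, a ∈ AA G T p0 → a - (2 : K)⁻¹ • 1 ∈ AA G T p0 := fun ha =>
    (AA G T p0).sub_mem ha (Subalgebra.smul_mem _ (AA G T p0).one_mem _)
  rw [MStr.comp_mul hε (hsm hpA)] at htr
  rw [MStr.comp_mul hε (hsm hpA), MStr.comp_mul hε (hsm hqA)] at hab
  -- the products commute
  have hpq2 : p * p0 * ε = p0 * p * ε := by
    have e1 : (p - (2 : K)⁻¹ • 1) * (p0 - (2 : K)⁻¹ • 1) * ε -
        (p0 - (2 : K)⁻¹ • 1) * (p - (2 : K)⁻¹ • 1) * ε = p * p0 * ε - p0 * p * ε := by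
      simp only [sub_mul, mul_sub, smul_mul_assoc, mul_smul_comm, one_mul, mul_one, smul_sub]
      abel
    rw [hab, sub_self] at e1
    exact (sub_eq_zero.mp e1.symm)
  have htr2 : LinearMap.trace K V (p0 * p * ε) = 4⁻¹ * LinearMap.trace K V ε := by
    have e1 : (p0 - (2 : K)⁻¹ • 1) * (p - (2 : K)⁻¹ • 1) * ε =
        p0 * p * ε - (2 : K)⁻¹ • (p0 * ε) - (2 : K)⁻¹ • (p * ε) +
          ((2 : K)⁻¹ * (2 : K)⁻¹) • ε := by
      simp only [sub_mul, mul_sub, smul_mul_assoc, mul_smul_comm, one_mul, mul_one, smul_smul]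
      module
    rw [e1] at htr
    simp only [map_add, map_sub, map_smul, smul_eq_mul, hp1, hq1] at htr
    have h5 : (4 : K)⁻¹ = (2 : K)⁻¹ * (2 : K)⁻¹ := by
      rw [← mul_inv]; norm_num
    rw [h5]
    linear_combination htr
  have hid : p0 * p * ε * (p0 * p * ε) = p0 * p * ε := by
    have hA : p0 * p ∈ AA G T p0 := (AA G T p0).mul_mem hqA hpA
    have hc1 := hε.cen p hpA
    have hc2 := hε.cen p0 hqA
    have hc3 := hε.cen _ hA
    calc p0 * p * ε * (p0 * p * ε) = p0 * p * (ε * (p0 * p)) * ε := by simp only [mul_assoc]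
      _ = p0 * (p * p0 * p) * (ε * ε) := by rw [hc3]; simp only [mul_assoc]
      _ = p0 * (p * p0 * p * ε) := by rw [hε.idem]; simp only [mul_assoc]
      _ = p0 * (p * p0 * ε * p) := by simp only [mul_assoc, hc1]
      _ = p0 * (p0 * p * ε * p) := by rw [hpq2]
      _ = (p0 * p0) * (p * (ε * p)) := by simp only [mul_assoc]
      _ = (p0 * p0) * ((p * p) * ε) := by rw [hc1]; simp only [mul_assoc]
      _ = _ := by rw [D.c1 hq, D.c1 hp]; simp only [mul_assoc]
  have ht1 := trace_idem hid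
  have ht2 := hε.trace_eq
  have hrk : 4 * MTP.rk (p0 * p * ε) = MTP.rk ε := by
    rw [ht1, ht2] at htr2
    have : ((4 * MTP.rk (p0 * p * ε) : ℕ) : K) = (MTP.rk ε : K) := by
      push_cast
      rw [htr2, ← mul_assoc, mul_inv_cancel₀ (by norm_num), one_mul]
    exact_mod_cast this
  obtain ⟨k, hk, -, hmult⟩ := (D.ssA.rs hε hW hWε).mult
  have m1 := hmult (p0 * p * ε) ⟨(AA G T p0).mul_mem ((AA G T p0).mul_mem hqA hpA) hε.mem, by
    rw [mul_assoc, hε.idem]⟩
  have m2 := hmult ε ⟨hε.mem, hε.idem⟩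
  have hone : Rw W ε = 1 := by
    ext w
    rw [Rw_coe (fun w hw => by rw [hWε w hw]; exact hw), hWε w w.2]
    rfl
  have hrk1 : MTP.rk (1 : Module.End K W) = finrank K W := by
    unfold MTP.rk
    have : LinearMap.range (1 : Module.End K W) = ⊤ := LinearMap.range_id
    rw [this, finrank_top]
  rw [hone, hrk1] at m2
  rw [m1, m2] at hrk
  apply h4
  refine ⟨MTP.rk (Rw W (p0 * p * ε)), ?_⟩
  have h5 : k * (4 * MTP.rk (Rw W (p0 * p * ε))) = k * finrank K W := by rw [← hrk]; ring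
  exact (Nat.eq_of_mul_eq_mul_left hk h5).symm

end AV
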